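import Pool.Agent.Helper25.FLT.B2
import Pool.Agent.Helper73.KM.Main

set_option autoImplicit false

/-!
# Harmful ties: reduction to overlapping boxes

`StKN`: no block flat progression with a harmful tie vector and an overlap vector which is not a tie.
-/

namespace Helper25.FLT

open Helper11.N1 Helper55.KE Helper55.KV

/-- no harmful tie vector together with an overlap vector -/
def StKN : Prop := ∀ (p q a b c : ℕ) [NeZero p] [NeZero q] (z : ZMod p → ZMod (p * q))
  (i0 ρ : ZMod p) (θ : ZMod (p * q)) (δ l : ℕ) (k : ℤ), LS p q a b c z i0 ρ θ δ l k →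
  2 * a < p → 2 * b < p → a.Coprime p → b.Coprime p →
  (ρ = (a : ZMod p) * b ∨ ρ = -((a : ZMod p) * b)) → 2 ≤ l → k ≠ 0 →
  (|k| < a ∨ (c = 1 ∧ k = -a)) →
  (∀ n m : ZMod p, z m - b * q = z n + ((1 - 2 * (c : ℤ) : ℤ) : ZMod (p * q)) → n - m ≠ b) →
  ∀ (n : ℕ) (x r : ℤ), 0 < n → n < p → n ≠ l → n + l ≠ q → At ρ θ n x r →
    |x| < b * q → |x + r * q| < a * q → False

theorem stLSs_of (hL : Helper11.LV.StLX) (hK : StKN) : StLSs := by
  intro p q a b c _ _ z i0 ρ θ δ l k h h2a h2b hap hbp hρ hl2 hk0 hka hNE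
  refine Helper73.KM.kempty_of_lx hL h h2a h2b hap hbp hρ hl2 hk0 hka hNE ?_
  intro n hn0 hn hnl hnq x r hA hcon
  exact hK p q a b c z i0 ρ θ δ l k h h2a h2b hap hbp hρ hl2 hk0 hka hNE n x r hn0 hn hnl hnq hA
    hcon.1 hcon.2

end Helper25.FLT
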