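import Pool.Agent.Helper55.KE.MBlk

set_option autoImplicit false
set_option linter.unusedSectionVars false

/-!
# Block flatness and full flatness

If every tie has a class `κ` with `a ≤ |κ|` (and `κ ≠ a` in the case `c = 1`), block flatness
implies full flatness.
-/

namespace Helper25.FLT

open Helper11.N1 Helper55.KE
open Helper11.N1.DECaux (ind ite_ind ind_and ind_congr ind_pos ind_neg)

section

variable {p q a b c : ℕ} [NeZero p] [NeZero q]

theorem sum_one {f : ZMod p → ℤ} {P : ZMod p → Prop} {n : ZMod p} (hn : P n)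
    (hu : ∀ j, P j → j = n) : ∑ j : ZMod p, ind (P j) * f j = f n := by
  rw [Finset.sum_eq_single n]
  · rw [ind_pos hn, one_mul]
  · intro j _ hj
    rw [ind_neg (fun h => hj (hu j h)), zero_mul]
  · intro h
    exact absurd (Finset.mem_univ n) h

theorem sum_none {f : ZMod p → ℤ} {P : ZMod p → Prop} (hu : ∀ j, ¬ P j) :
    ∑ j : ZMod p, ind (P j) * f j = 0 := by
  apply Finset.sum_eq_zero
  intro j _
  rw [ind_neg (hu j), zero_mul]

/-- disjoint arcs -/
theorem arcs {d : ℕ} {y κ : ZMod p} (h1 : d ≤ κ.val) (h2 : κ.val + d ≤ p) (hy : y.val < d)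
    (hy' : (y - κ).val < d) : False := by
  have e1 : y = (((y - κ).val + κ.val : ℕ) : ZMod p) := by
    rw [Nat.cast_add, ZMod.natCast_zmod_val, ZMod.natCast_zmod_val]
    ring
  have e2 := congrArg ZMod.val e1
  rw [ZMod.val_natCast_of_lt (by omega)] at e2
  omega

theorem gen_inj {z : ZMod p → ZMod (p * q)} (hG : Gen q z) {i j : ZMod p} (h : z i = z j) :
    i = j := by
  refine hG i j ?_
  rw [h, sub_self, ZMod.val_zero]
  exact dvd_zero _

theorem gen_res' {z : ZMod p → ZMod (p * q)} (hG : Gen q z) {i j : ZMod p}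
    (h : res p q (z i) = res p q (z j)) : i = j := gen_res p q hG h

theorem sc_res {z : ZMod p → ZMod (p * q)} (j : ZMod p) :
    res p q (sc q z j) = res p q (z j) := by
  unfold sc
  rw [map_add]
  have : res p q (e p q j) = 0 := by
    unfold e
    rw [map_natCast, Nat.cast_mul, ZMod.natCast_self, zero_mul]
  rw [this, add_zero]

theorem aq_ne (hP : Par p q a b) : (a : ZMod (p * q)) * (q : ZMod (p * q)) ≠ 0 := by
  obtain ⟨haq, hbq, habq, h2a, h2b⟩ := lt_mul_of hP
  have ha := hP.ha
  have hq1 := hP.hq
  intro h
  have h1 : ((a * q : ℕ) : ZMod (p * q)) = 0 := by push_cast; exact h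
  rw [ZMod.natCast_eq_zero_iff] at h1
  have h2 : 0 < a * q := Nat.mul_pos (by omega) hq1
  have := Nat.le_of_dvd h2 h1
  omega

/-- the step over a bottom line -/
theorem sbot (hP : Par p q a b) {z : ZMod p → ZMod (p * q)} (hG : Gen q z) (X : ZMod (p * q))
    (W n : ZMod p) : FF q a b z X W (sc q z n + 1) - FF q a b z X W (sc q z n) =
      ind (off X (z n) < b * q) - ind (aB b W n) := by
  rw [sstep hP z X W (sc q z n), Finset.sum_add_distrib]
  have s1 := sum_one (f := fun j => ind (off X (z j) < b * q) - ind (aB b W j))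
    (P := fun j => sc q z j = sc q z n) (n := n) rfl (fun j hj => by
      apply gen_res' hG
      rw [← sc_res, ← sc_res (z := z) n, hj])
  have s2 := sum_none (f := fun j => ind (aT a b W j) - ind (off X (z j) < b * q))
    (P := fun j => sc q z j + a * q = sc q z n) (fun j hj => by
      have h1 := congrArg (res p q) hj
      rw [map_add, map_mul, map_natCast, map_natCast, ZMod.natCast_self, mul_zero, add_zero,
        sc_res, sc_res] at h1
      have h2 := gen_res' hG h1
      subst h2
      exact aq_ne hP (left_eq_add.1 hj.symm))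
  rw [s1, s2, add_zero]

/-- the step over a top line -/
theorem stop (hP : Par p q a b) {z : ZMod p → ZMod (p * q)} (hG : Gen q z) (X : ZMod (p * q))
    (W n : ZMod p) : FF q a b z X W (sc q z n + a * q + 1) - FF q a b z X W (sc q z n + a * q) =
      ind (aT a b W n) - ind (off X (z n) < b * q) := by
  rw [sstep hP z X W (sc q z n + a * q), Finset.sum_add_distrib]
  have s1 := sum_none (f := fun j => ind (off X (z j) < b * q) - ind (aB b W j))
    (P := fun j => sc q z j = sc q z n + a * q) (fun j hj => by
      have h1 := congrArg (res p q) hj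
      rw [map_add, map_mul, map_natCast, map_natCast, ZMod.natCast_self, mul_zero, add_zero,
        sc_res, sc_res] at h1
      have h2 := gen_res' hG h1
      subst h2
      exact aq_ne hP (left_eq_add.1 hj))
  have s2 := sum_one (f := fun j => ind (aT a b W j) - ind (off X (z j) < b * q))
    (P := fun j => sc q z j + a * q = sc q z n + a * q) (n := n) rfl (fun j hj => by
      apply gen_res' hG
      rw [← sc_res, ← sc_res (z := z) n, add_right_cancel hj])
  rw [s1, s2, zero_add]

theorem ind01 (P : Prop) : ind P = 0 ∧ ¬ P ∨ ind P = 1 ∧ P := by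
  by_cases h : P
  · exact Or.inr ⟨ind_pos h, h⟩
  · exact Or.inl ⟨ind_neg h, h⟩

/-- the middle position of a block -/
theorem mid_ok (hP : Par p q a b) (hb2 : 2 * b < p) {z : ZMod p → ZMod (p * q)} (hG : Gen q z)
    (hB : Blk q b c z) (hF : ∀ X W S, rp p q X = 0 → |FF q a b z X W S| ≤ 1)
    (hM : ∀ n m : ZMod p, byy q b c z m = bx q c z n → a ≤ (m + b - n).val ∧
      (m + b - n).val + a ≤ p ∧ ¬ (c = 1 ∧ (m + b - n).val = a))
    {X : ZMod (p * q)} (hX : rp p q X = 0) (W : ZMod p) (S : ZMod (p * q)) :
    |FF q a b z (X + 1) W S| ≤ 1 := by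
  have ha := hP.ha
  have hab := hP.hab
  have hq1 := hP.hq
  have hc := hB.hc
  have hM1 := one_lt_mul hP
  obtain ⟨haq, hbq, habq, h2a, h2b⟩ := lt_mul_of hP
  -- the two sub-steps
  have e1 : X + 1 = X + ((1 : ℕ) : ZMod (p * q)) := by rw [Nat.cast_one]
  have hstep : ∀ m : ℕ, m < p → ∀ S, FF q a b z (X + ((m + 1 : ℕ) : ZMod (p * q))) W S -
      FF q a b z (X + (m : ZMod (p * q))) W S =
      ind (m = c) * ∑ j : ZMod p, ind (bx q c z j = X) *
        (ind (aR a W j) - ind (off (sc q z j + 1) S < a * q)) +
      ind (m = 1 - c) * ∑ j : ZMod p, ind (byy q b c z j = X) *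
        (ind (off (sc q z j + 1) S < a * q) - ind (aL a b W j)) :=
    fun m hm S => bstep hP hB hX W S hm
  have hF0 : ∀ S, |FF q a b z X W S| ≤ 1 := fun S => hF X W S hX
  -- the position after the block
  have hF2 : ∀ S, |FF q a b z (X + ((2 : ℕ) : ZMod (p * q))) W S| ≤ 1 := by
    intro S
    have h0 : ∀ m : ℕ, 2 ≤ m → m ≤ p → FF q a b z (X + (m : ZMod (p * q))) W S =
        FF q a b z (X + ((2 : ℕ) : ZMod (p * q))) W S := by
      intro m h2
      induction m, h2 using Nat.le_induction with
      | base => intro _; rfl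
      | succ m hm ih =>
        intro hmp
        have h3 := hstep m (by omega) S
        have h4 : ¬ (m = c) := by omega
        have h5 : ¬ (m = 1 - c) := by omega
        rw [ind_neg h4, ind_neg h5] at h3
        rw [← ih (by omega)]
        linarith
    rw [← h0 p (by omega) le_rfl]
    apply hF
    rw [map_add, hX, map_natCast, ZMod.natCast_self, add_zero]
  have h10 := hstep 0 (by omega) S
  have h21 := hstep 1 (by omega) S
  rw [Nat.cast_zero, add_zero] at h10
  have e2 : ((0 + 1 : ℕ) : ZMod (p * q)) = 1 := by push_cast; ring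
  have e3 : ((1 + 1 : ℕ) : ZMod (p * q)) = ((2 : ℕ) : ZMod (p * q)) := rfl
  rw [e2] at h10
  rw [e3, Nat.cast_one] at h21
  have b0 := abs_le.1 (hF0 S)
  have b2 := abs_le.1 (hF2 S)
  set F0 := FF q a b z X W S with hF0d
  set F1 := FF q a b z (X + 1) W S with hF1d
  set F2 := FF q a b z (X + ((2 : ℕ) : ZMod (p * q))) W S with hF2d
  rw [abs_le]
  -- injectivity
  have hxu : ∀ n j, bx q c z n = X → bx q c z j = X → j = n := by
    intro n j h1 h2
    apply gen_inj hG
    unfold bx at h1 h2
    have := h2.trans h1.symm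
    exact sub_left_injective this
  have hyu : ∀ n j, byy q b c z n = X → byy q b c z j = X → j = n := by
    intro n j h1 h2
    apply gen_inj hG
    unfold byy at h1 h2
    have := h2.trans h1.symm
    exact sub_left_injective (sub_left_injective this)
  by_cases hn : ∃ n, bx q c z n = X
  swap
  · push Not at hn
    have s0 : ∑ j : ZMod p, ind (bx q c z j = X) *
        (ind (aR a W j) - ind (off (sc q z j + 1) S < a * q)) = 0 := sum_none hn
    rw [s0] at h10 h21
    rcases (by omega : c = 0 ∨ c = 1) with rfl | rfl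
    · have : ¬ ((0 : ℕ) = 1 - 0) := by omega
      rw [ind_neg this] at h10
      constructor <;> linarith
    · have : ¬ ((1 : ℕ) = 1 - 1) := by omega
      rw [ind_neg this] at h21
      constructor <;> linarith
  by_cases hm : ∃ m, byy q b c z m = X
  swap
  · push Not at hm
    have s0 : ∑ j : ZMod p, ind (byy q b c z j = X) *
        (ind (off (sc q z j + 1) S < a * q) - ind (aL a b W j)) = 0 := sum_none hm
    rw [s0] at h10 h21
    rcases (by omega : c = 0 ∨ c = 1) with rfl | rfl
    · have : ¬ ((1 : ℕ) = 0) := by omega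
      rw [ind_neg this] at h21
      constructor <;> linarith
    · have : ¬ ((0 : ℕ) = 1) := by omega
      rw [ind_neg this] at h10
      constructor <;> linarith
  obtain ⟨n, hn⟩ := hn
  obtain ⟨m, hm⟩ := hm
  obtain ⟨k1, k2, k3⟩ := hM n m (hm.trans hn.symm)
  have s1 : ∑ j : ZMod p, ind (bx q c z j = X) *
      (ind (aR a W j) - ind (off (sc q z j + 1) S < a * q)) =
      ind (aR a W n) - ind (off (sc q z n + 1) S < a * q) :=
    sum_one (P := fun j => bx q c z j = X) hn (fun j hj => hxu n j hn hj)
  have s2 : ∑ j : ZMod p, ind (byy q b c z j = X) *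
      (ind (off (sc q z j + 1) S < a * q) - ind (aL a b W j)) =
      ind (off (sc q z m + 1) S < a * q) - ind (aL a b W m) :=
    sum_one (P := fun j => byy q b c z j = X) hm (fun j hj => hyu m j hm hj)
  rw [s1, s2] at h10 h21
  set κ : ZMod p := m + b - n with hκ
  -- the arcs of the levels are disjoint
  have hRL : ¬ (aR a W n ∧ aL a b W m) := by
    rintro ⟨h1, h2⟩
    unfold aR at h1
    unfold aL at h2
    have e4 : W - (b : ZMod p) - 1 - m = (W - 1 - n) - κ := by rw [hκ]; ring
    rw [e4] at h2
    exact arcs k1 k2 h1 h2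
  have hRL' : ind (aR a W n) + ind (aL a b W m) ≤ 1 := by
    by_cases c1 : aR a W n <;> by_cases c2 : aL a b W m
    · exact absurd ⟨c1, c2⟩ hRL
    · rw [ind_pos c1, ind_neg c2]; norm_num
    · rw [ind_neg c1, ind_pos c2]; norm_num
    · rw [ind_neg c1, ind_neg c2]; norm_num
  have r0 : 0 ≤ ind (aR a W n) := by
    by_cases h : aR a W n
    · rw [ind_pos h]; norm_num
    · rw [ind_neg h]
  have r1 : ind (aR a W n) ≤ 1 := by
    by_cases h : aR a W n
    · rw [ind_pos h]
    · rw [ind_neg h]; norm_num
  have l0 : 0 ≤ ind (aL a b W m) := by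
    by_cases h : aL a b W m
    · rw [ind_pos h]; norm_num
    · rw [ind_neg h]
  have l1 : ind (aL a b W m) ≤ 1 := by
    by_cases h : aL a b W m
    · rw [ind_pos h]
    · rw [ind_neg h]; norm_num
  have hκq : e p q κ = ((q * κ.val : ℕ) : ZMod (p * q)) := rfl
  have heκ : e p q m + (b : ZMod (p * q)) * (q : ZMod (p * q)) = e p q n + e p q κ := by
    have h1 : m + (b : ZMod p) = n + κ := by rw [hκ]; ring
    have h2 := congrArg (e p q) h1
    rw [e_add, e_add, e_natCast, Nat.cast_mul] at h2
    exact h2
  rcases (by omega : c = 0 ∨ c = 1) with rfl | rfl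
  · -- first the right side
    have i1 : ind ((0 : ℕ) = 0) = 1 := ind_pos rfl
    have i2 : ind ((0 : ℕ) = 1 - 0) = 0 := ind_neg (by omega)
    have i3 : ind ((1 : ℕ) = 0) = 0 := ind_neg (by omega)
    have i4 : ind ((1 : ℕ) = 1 - 0) = 1 := ind_pos rfl
    rw [i1, i2] at h10
    rw [i3, i4] at h21
    unfold bx at hn
    unfold byy at hm
    have hzn : z n = X := by
      rw [← hn]; push_cast; ring
    have hzm : z m = X + b * q + 1 := by
      rw [← hm]; push_cast; ring
    have hs : sc q z m = sc q z n + 1 + ((q * κ.val : ℕ) : ZMod (p * q)) := by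
      unfold sc
      rw [hzn, hzm, ← hκq]
      linear_combination heκ
    have hκp : κ.val < p := ZMod.val_lt κ
    have hκq1 : q * κ.val + q * a ≤ q * p := by
      rw [← mul_add]
      exact Nat.mul_le_mul_left q k2
    have hκq2 : q * a ≤ q * κ.val := Nat.mul_le_mul_left q k1
    have hcomm : p * q = q * p := mul_comm p q
    have hcomm2 : a * q = q * a := mul_comm a q
    have haq0 : 0 < q * a := Nat.mul_pos (by omega) (by omega)
    have haq1 : q * 2 ≤ q * a := Nat.mul_le_mul_left q ha
    have h6 : off (sc q z n + 1) (sc q z m + 1) = q * κ.val + 1 := by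
      have h7 : sc q z m + 1 = sc q z n + 1 + ((q * κ.val + 1 : ℕ) : ZMod (p * q)) := by
        rw [hs]; push_cast; ring
      rw [h7, off_nat _ (by omega)]
    have h5 := off_add (sc q z n + 1) (sc q z m + 1) S
    rw [h6] at h5
    rcases ind01 (off (sc q z n + 1) S < a * q) with ⟨g1, hI⟩ | ⟨g1, hI⟩ <;>
      rcases ind01 (off (sc q z m + 1) S < a * q) with ⟨g2, hJ⟩ | ⟨g2, hJ⟩ <;>
      rw [g1] at h10 <;> rw [g2] at h21
    · constructor <;> linarith
    · constructor <;> linarith
    · -- only the ordinate of `n`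
      rcases ind01 (aR a W n) with ⟨g3, hr⟩ | ⟨g3, hr⟩ <;> rw [g3] at h10
      · constructor <;> linarith
      · constructor <;> linarith
    · -- both ordinates: the special one
      by_contra hcon
      rcases ind01 (aR a W n) with ⟨g3, hr⟩ | ⟨g3, hr⟩
      swap
      · rw [g3] at h10
        exact hcon ⟨by linarith, by linarith⟩
      rcases ind01 (aL a b W m) with ⟨g4, hl⟩ | ⟨g4, hl⟩
      swap
      · rw [g4] at h21
        exact hcon ⟨by linarith, by linarith⟩
      rw [g3] at h10
      rw [g4] at h21
      have f1 : F1 = -2 := by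
        by_contra hf
        apply hcon
        have : -2 ≤ F1 := by linarith
        have h8 : F1 ≠ -2 := hf
        constructor
        · omega
        · linarith
      have f0 : F0 = -1 := by linarith
      have f2 : F2 = -1 := by linarith
      rcases h5 with h5 | h5
      · omega
      have hu : off (sc q z n + 1) S = 0 := by omega
      have hκa : q * κ.val + q * a = q * p := by omega
      have hSn : S = sc q z n + 1 := (off_eq_zero.1 hu).symm
      have hκa' : κ.val + a = p := by
        have h9 : q * (κ.val + a) = q * p := by rw [mul_add]; exact hκa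
        exact Nat.eq_of_mul_eq_mul_left (by omega) h9
      -- the bottom of `n`
      have t1 := sbot hP hG X W n
      rw [← hSn, ← hF0d, f0] at t1
      have t2 := abs_le.1 (hF0 (sc q z n))
      have t3 : ind (off X (z n) < b * q) = 1 := by
        apply ind_pos
        rw [hzn, off_self]
        exact Nat.mul_pos (by have := hP.hb; omega) (by omega)
      rw [t3] at t1
      have hBn : aB b W n := by
        rcases ind01 (aB b W n) with ⟨g5, hb5⟩ | ⟨g5, hb5⟩
        · rw [g5] at t1
          linarith [t2.1]
        · exact hb5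
      -- the top of `m`
      have hsm : sc q z m + a * q = S := by
        rw [hs, hSn]
        have h7 : ((q * κ.val + q * a : ℕ) : ZMod (p * q)) = 0 := by
          rw [hκa, ← hcomm, ZMod.natCast_self]
        push_cast at h7 ⊢
        linear_combination h7
      have t4 := stop hP hG (X + ((2 : ℕ) : ZMod (p * q))) W m
      rw [hsm, ← hF2d, f2] at t4
      have t5 := abs_le.1 (hF2 (S + 1))
      have t6 : ind (off (X + ((2 : ℕ) : ZMod (p * q))) (z m) < b * q) = 1 := by
        apply ind_pos
        have hb0 := hP.hb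
        have hbq2 : 2 * 1 ≤ b * q := Nat.mul_le_mul hb0 hq1
        have h7 : z m = X + ((2 : ℕ) : ZMod (p * q)) + ((b * q - 1 : ℕ) : ZMod (p * q)) := by
          rw [hzm, Nat.cast_sub (by omega)]
          push_cast
          ring
        rw [h7, off_nat _ (by omega)]
        omega
      rw [t6] at t4
      have hTm : aT a b W m := by
        rcases ind01 (aT a b W m) with ⟨g5, hb5⟩ | ⟨g5, hb5⟩
        · rw [g5] at t4
          linarith [t5.1]
        · exact hb5
      unfold aB at hBn
      unfold aT at hTm
      have h11 : W - (a : ZMod p) - 1 - m = ((W - 1 - n).val + b : ℕ) := by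
        have h12 : κ + (a : ZMod p) = 0 := by
          have h13 : ((κ.val + a : ℕ) : ZMod p) = 0 := by rw [hκa', ZMod.natCast_self]
          rw [Nat.cast_add, ZMod.natCast_zmod_val] at h13
          exact h13
        rw [Nat.cast_add, ZMod.natCast_zmod_val]
        rw [hκ] at h12
        linear_combination -h12
      rw [h11, ZMod.val_natCast_of_lt (by omega)] at hTm
      omega
  · -- first the left side
    have i1 : ind ((0 : ℕ) = 1) = 0 := ind_neg (by omega)
    have i2 : ind ((0 : ℕ) = 1 - 1) = 1 := ind_pos rfl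
    have i3 : ind ((1 : ℕ) = 1) = 1 := ind_pos rfl
    have i4 : ind ((1 : ℕ) = 1 - 1) = 0 := ind_neg (by omega)
    rw [i1, i2] at h10
    rw [i3, i4] at h21
    unfold bx at hn
    unfold byy at hm
    have hzn : z n = X + 1 := by
      rw [← hn]; push_cast; ring
    have hzm : z m = X + b * q := by
      rw [← hm]; push_cast; ring
    have hs : sc q z m + 1 = sc q z n + ((q * κ.val : ℕ) : ZMod (p * q)) := by
      unfold sc
      rw [hzn, hzm, ← hκq]
      linear_combination heκ
    have hκp : κ.val < p := ZMod.val_lt κ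
    have hκq1 : q * κ.val + q * a ≤ q * p := by
      rw [← mul_add]
      exact Nat.mul_le_mul_left q k2
    have hκ3 : a < κ.val := by
      rcases Nat.lt_or_ge a κ.val with h | h
      · exact h
      · exact absurd ⟨rfl, by omega⟩ k3
    have hκq2 : q * (a + 1) ≤ q * κ.val := Nat.mul_le_mul_left q hκ3
    rw [mul_add] at hκq2
    have hcomm : p * q = q * p := mul_comm p q
    have hcomm2 : a * q = q * a := mul_comm a q
    have h6 : off (sc q z n) (sc q z m + 1) = q * κ.val := by
      rw [hs, off_nat _ (by omega)]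
    have h5 := off_add (sc q z n) (sc q z m + 1) S
    have h7 : off (sc q z n) (sc q z n + 1) = 1 := by
      have := off_nat (sc q z n) (n := 1) hM1
      rwa [Nat.cast_one] at this
    have h8 := off_add (sc q z n) (sc q z n + 1) S
    rw [h6] at h5
    rw [h7] at h8
    have h9 := off_lt (sc q z n) S
    rcases ind01 (off (sc q z n + 1) S < a * q) with ⟨g1, hI⟩ | ⟨g1, hI⟩ <;>
      rcases ind01 (off (sc q z m + 1) S < a * q) with ⟨g2, hJ⟩ | ⟨g2, hJ⟩ <;>
      rw [g2] at h10 <;> rw [g1] at h21
    · constructor <;> linarith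
    · constructor <;> linarith
    · constructor <;> linarith
    · exfalso
      omega

end

end Helper25.FLT
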