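import Pool.Agent.Helper55.KE.MTop
import Pool.Agent.Helper25.FLT.B1

set_option autoImplicit false
set_option linter.unusedSectionVars false

/-!
# Assembly of the merges

`StLSs`: no block flat progression with a harmful tie vector, `|k| < a` or `c = 1`, `k = -a`,
no tie of class `0`.  `stmerge2 : StL0 → StLSs → StMerge`.
-/

namespace Helper25.FLT

open Helper11.N1 Helper55.KE Pool.Agent.Helper55.FT
open Helper11.N1.DECaux (ind ite_ind ind_and ind_congr ind_pos ind_neg)

/-- no block flat progression with a harmful tie vector of index `l ≥ 2`; `-k` is the class of the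
tie; no tie has class `0` -/
def StLSs : Prop := ∀ (p q a b c : ℕ) [NeZero p] [NeZero q] (z : ZMod p → ZMod (p * q))
  (i0 ρ : ZMod p) (θ : ZMod (p * q)) (δ l : ℕ) (k : ℤ), LS p q a b c z i0 ρ θ δ l k →
  2 * a < p → 2 * b < p → a.Coprime p → b.Coprime p →
  (ρ = (a : ZMod p) * b ∨ ρ = -((a : ZMod p) * b)) → 2 ≤ l → k ≠ 0 →
  (|k| < a ∨ (c = 1 ∧ k = -a)) →
  (∀ n m : ZMod p, z m - b * q = z n + ((1 - 2 * (c : ℤ) : ℤ) : ZMod (p * q)) → n - m ≠ b) → False

section

variable {p q a b c : ℕ} [NeZero p] [NeZero q]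

theorem of_pr1 (hS : StLSs) {z : ZMod p → ZMod (p * q)} {i0 ρ : ZMod p} {θ : ZMod (p * q)}
    (hθ : res p q θ ≠ 1 ∧ res p q θ ≠ -1) (hP : Par p q a b) (hpq : p < q) (ha : 2 * a < p) (hb : 2 * b < p) (hap : a.Coprime p)
    (hbp : b.Coprime p) (hG : Gen q z) (hB : Blk q b c z) (hAP : AP q z i0 ρ θ)
    (hρ : ρ = (a : ZMod p) * b ∨ ρ = -((a : ZMod p) * b))
    (hF : ∀ X W S, rp p q X = 0 → |FF q a b z X W S| ≤ 1) {n m : ℕ} (hn : n < p) (hmn : m < n)
    (hM : z (i0 + (m : ZMod p) * ρ) - b * q =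
      z (i0 + (n : ZMod p) * ρ) + ((1 - 2 * (c : ℤ) : ℤ) : ZMod (p * q)))
    {k : ℤ} (hk : (i0 + (n : ZMod p) * ρ) - (i0 + (m : ZMod p) * ρ) - b = (k : ZMod p))
    (hk0 : k ≠ 0) (hka : |k| < a ∨ (c = 1 ∧ k = -a))
    (hNE : ∀ n m : ZMod p, z m - b * q = z n + ((1 - 2 * (c : ℤ) : ℤ) : ZMod (p * q)) → n - m ≠ b) :
    False := by
  have hab := hP.hab
  have hp2 : 2 < p := by
    have := hP.ha
    omega
  have hδ0 := delta_pos hp2 hG hAP
  refine hS p q a b c z i0 ρ θ ((p : ZMod (p * q)) * θ).val (n - m) k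
    { hP := hP, hG := hG, hB := hB, hAP := hAP, hF := hF, hδ0 := hδ0
      hδM := ZMod.val_lt _, hδ := ZMod.natCast_zmod_val _, hl0 := by omega, hl := by omega
      hpq := hpq, hxl := ?_, hrl := ?_ } ha hb hap hbp hρ ?_ hk0 hka hNE
  · rw [hAP.2 m (by omega), hAP.2 n hn] at hM
    rw [Nat.cast_sub hmn.le]
    push_cast at hM ⊢
    linear_combination -hM
  · rw [Nat.cast_sub hmn.le]
    push_cast
    linear_combination hk
  · by_contra hcon
    have h1 : n = m + 1 := by omega
    subst h1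
    rw [hAP.2 m (by omega), hAP.2 (m + 1) hn] at hM
    have h2 := congrArg (res p q) hM
    rw [map_sub, map_add, map_add, map_add, map_mul, map_mul, map_mul, map_natCast, map_natCast,
      map_natCast, map_natCast, ZMod.natCast_self, mul_zero, sub_zero, res_int] at h2
    have hc := hB.hc
    have : c = 0 ∨ c = 1 := by omega
    rcases this with rfl | rfl
    · apply hθ.2
      push_cast at h2
      linear_combination -h2
    · apply hθ.1
      push_cast at h2
      linear_combination -h2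

/-- a harmful pair -/
theorem of_pr (hS : StLSs) {z : ZMod p → ZMod (p * q)} {i0 ρ : ZMod p} {θ : ZMod (p * q)}
    (hθ : res p q θ ≠ 1 ∧ res p q θ ≠ -1) (hP : Par p q a b) (hpq : p < q) (ha : 2 * a < p) (hb : 2 * b < p) (hap : a.Coprime p)
    (hbp : b.Coprime p) (hG : Gen q z) (hB : Blk q b c z) (hAP : AP q z i0 ρ θ)
    (hρ : ρ = (a : ZMod p) * b ∨ ρ = -((a : ZMod p) * b))
    (hF : ∀ X W S, rp p q X = 0 → |FF q a b z X W S| ≤ 1) {n m : ZMod p}
    (hM : z m - b * q = z n + ((1 - 2 * (c : ℤ) : ℤ) : ZMod (p * q)))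
    {k : ℤ} (hk : n - m - b = (k : ZMod p)) (hk0 : k ≠ 0) (hka : |k| < a ∨ (c = 1 ∧ k = -a))
    (hNE : ∀ n m : ZMod p, z m - b * q = z n + ((1 - 2 * (c : ℤ) : ℤ) : ZMod (p * q)) → n - m ≠ b) :
    False := by
  obtain ⟨n', hn', rfl⟩ := ap_row hAP n
  obtain ⟨m', hm', rfl⟩ := ap_row hAP m
  rcases lt_trichotomy m' n' with h1 | h1 | h1
  · exact of_pr1 hS hθ hP hpq ha hb hap hbp hG hB hAP hρ hF hn' h1 hM hk hk0 hka hNE
  · subst h1
    have h2 := congrArg (res p q) hM
    have hc := hB.hc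
    rw [map_sub, map_add, map_mul, map_natCast, map_natCast, ZMod.natCast_self, mul_zero, sub_zero,
      res_int, left_eq_add] at h2
    rw [ZMod.intCast_zmod_eq_zero_iff_dvd] at h2
    have h3 : (q : ℤ) ∣ 1 := by
      have : c = 0 ∨ c = 1 := by omega
      rcases this with rfl | rfl
      · simpa using h2
      · exact (dvd_neg (a := (q : ℤ))).1 (by simpa using h2)
    have h4 := Int.le_of_dvd one_pos h3
    have := hP.hq
    have := hP.ha
    have := hP.hab
    omega
  · have hr : ∀ i : ℕ, i < p → i0 - ρ + ((p - 1 - i : ℕ) : ZMod p) * -ρ =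
        i0 + (i : ZMod p) * ρ := by
      intro i hi
      rw [Nat.cast_sub (by omega), Nat.cast_sub (by omega), ZMod.natCast_self]
      push_cast
      ring
    refine of_pr1 hS (by
      rw [map_neg]
      exact ⟨fun h => hθ.2 (by rw [← h, neg_neg]), fun h => hθ.1 (neg_inj.1 h)⟩)
      hP hpq ha hb hap hbp hG hB (ap_rev hAP) ?_ hF (n := p - 1 - n')
      (m := p - 1 - m') (by omega) (by omega) (k := k) ?_ ?_ hk0 hka hNE
    · rcases hρ with h2 | h2
      · exact Or.inr (by rw [h2])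
      · exact Or.inl (by rw [h2, neg_neg])
    · rw [hr m' hm', hr n' hn']
      exact hM
    · rw [hr m' hm', hr n' hn']
      exact hk

/-- full flatness from block flatness -/
theorem full_ok (hP : Par p q a b) (hb2 : 2 * b < p) {z : ZMod p → ZMod (p * q)} (hG : Gen q z)
    (hB : Blk q b c z) (hF : ∀ X W S, rp p q X = 0 → |FF q a b z X W S| ≤ 1)
    (hM : ∀ n m : ZMod p, byy q b c z m = bx q c z n → a ≤ (m + b - n).val ∧
      (m + b - n).val + a ≤ p ∧ ¬ (c = 1 ∧ (m + b - n).val = a))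
    (X : ZMod (p * q)) (W : ZMod p) (S : ZMod (p * q)) : |FF q a b z X W S| ≤ 1 := by
  have ha := hP.ha
  have hab := hP.hab
  have hc := hB.hc
  set m := (rp p q X).val with hm
  have hmp : m < p := ZMod.val_lt _
  obtain ⟨X0, hX0⟩ : ∃ X0 : ZMod (p * q), X = X0 + (m : ZMod (p * q)) := ⟨X - m, by ring⟩
  have hr0 : rp p q X0 = 0 := by
    have h1 : rp p q X = rp p q X0 + (m : ZMod p) := by rw [hX0, map_add, map_natCast]
    rw [hm, ZMod.natCast_zmod_val] at h1
    exact right_eq_add.1 h1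
  rcases Nat.lt_or_ge m 2 with h2 | h2
  · rcases (by omega : m = 0 ∨ m = 1) with h3 | h3
    · rw [hX0, h3, Nat.cast_zero, add_zero]
      exact hF X0 W S hr0
    · rw [hX0, h3, Nat.cast_one]
      exact mid_ok hP hb2 hG hB hF hM hr0 W S
  · have h0 : ∀ t : ℕ, 2 ≤ t → t ≤ p → FF q a b z (X0 + (t : ZMod (p * q))) W S =
        FF q a b z (X0 + ((2 : ℕ) : ZMod (p * q))) W S := by
      intro t ht
      induction t, ht using Nat.le_induction with
      | base => intro _; rfl
      | succ t ht ih =>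
        intro htp
        have h3 := bstep hP hB hr0 W S (m := t) (by omega)
        have h4 : ¬ (t = c) := by omega
        have h5 : ¬ (t = 1 - c) := by omega
        rw [ind_neg h4, ind_neg h5] at h3
        rw [← ih (by omega)]
        linarith
    rw [hX0, h0 m h2 hmp.le, ← h0 p (by omega) le_rfl]
    apply hF
    rw [map_add, hr0, map_natCast, ZMod.natCast_self, add_zero]

/-- a configuration from block flatness -/
theorem conf_of (hS : StLSs) {z : ZMod p → ZMod (p * q)} {i0 ρ : ZMod p} {θ : ZMod (p * q)}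
    (hθ : res p q θ ≠ 1 ∧ res p q θ ≠ -1) (hP : Par p q a b) (hpq : p < q) (ha : 2 * a < p)
    (hb : 2 * b < p) (hap : a.Coprime p) (hbp : b.Coprime p) (hG : Gen q z) (hB : Blk q b c z)
    (hAP : AP q z i0 ρ θ) (hρ : ρ = (a : ZMod p) * b ∨ ρ = -((a : ZMod p) * b))
    (hF : ∀ X W S, rp p q X = 0 → |FF q a b z X W S| ≤ 1)
    (hNE : ∀ n m : ZMod p, z m - b * q = z n + ((1 - 2 * (c : ℤ) : ℤ) : ZMod (p * q)) →
      n - m ≠ b) : Conf p q := by
  refine ⟨a, b, inferInstance, inferInstance, hP, ha, hb, hap, hbp, z, i0, ρ, θ, hρ, hG, hAP, ?_⟩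
  refine full_ok hP hb hG hB hF ?_
  intro n m h
  have hM : z m - b * q = z n + ((1 - 2 * (c : ℤ) : ℤ) : ZMod (p * q)) := by
    rw [cast_eps hB.hc]
    unfold byy bx at h
    linear_combination h
  by_contra hcon
  have hne := hNE n m hM
  set κ := m + (b : ZMod p) - n with hκ
  have hκ0 : κ.val ≠ 0 := by
    intro h1
    rw [ZMod.val_eq_zero] at h1
    apply hne
    rw [hκ] at h1
    linear_combination -h1
  have hκp : κ.val < p := ZMod.val_lt κ
  have hc := hB.hc
  -- the class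
  obtain ⟨k, hk1, hk2, hk3⟩ : ∃ k : ℤ, ((k : ℤ) : ZMod p) = -κ ∧ k ≠ 0 ∧
      (|k| < a ∨ (c = 1 ∧ k = -a)) := by
    rcases Nat.lt_or_ge κ.val a with h1 | h1
    · refine ⟨-(κ.val : ℤ), by push_cast; rw [ZMod.natCast_zmod_val], by omega, Or.inl ?_⟩
      rw [abs_neg, Nat.abs_cast]
      exact_mod_cast h1
    rcases Nat.lt_or_ge p (κ.val + a) with h2 | h2
    · refine ⟨(p : ℤ) - κ.val, by push_cast; rw [ZMod.natCast_self, ZMod.natCast_zmod_val]; ring,
        by omega, Or.inl ?_⟩
      rw [abs_of_pos (by omega)]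
      omega
    · have h3 : c = 1 ∧ κ.val = a := by
        by_contra h4
        exact hcon ⟨h1, h2, h4⟩
      refine ⟨-(a : ℤ), ?_, by have := hP.ha; omega, Or.inr ⟨h3.1, rfl⟩⟩
      rw [← h3.2]
      push_cast
      rw [ZMod.natCast_zmod_val]
  refine of_pr hS hθ hP hpq ha hb hap hbp hG hB hAP hρ hF hM (k := k) ?_ hk2 hk3 hNE
  rw [hk1, hκ]
  ring

theorem mconf2 (hS : StLSs) {a : ℕ} {D : ℤ} (hpq : p < q) (hc : p.Coprime q)
    (hDq : IsCoprime D (q : ℤ)) (hF : Flat p q D) (hq : NU p q) (ha : 2 ≤ a) (ha2 : 2 * a < p)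
    (hac : a.Coprime p) (haD : (p : ℤ) ∣ D + a)
    (hDu : ¬ ((q : ℤ) ∣ D - 1) ∧ ¬ ((q : ℤ) ∣ D + 1))
    (hNh : ∀ h : ℤ, 0 < h → h < p → ¬ (((p * q : ℕ) : ℤ) ∣ D * h - 1) ∧
      ¬ (((p * q : ℕ) : ℤ) ∣ D * h + 1)) : Conf p q := by
  obtain ⟨b, hb1, hb2, hb3, hb4, hbc⟩ := exists_b (by omega) hc hq
  have habc : (a * b).Coprime p := Nat.Coprime.mul_left hac hbc
  obtain ⟨hz1, hz2, hz3⟩ := aLK2 p q a b hb1 habc D haD (by omega)
  have hG : Gen q (zap (p := p) q a b D) := genap p q a b hpq.le habc D hDq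
  have hAP := ap_zap (q := q) habc D
  have hbd : ∀ (X : ZMod (p * q)) W S, p ∣ X.val → |FF q a b (zap q a b D) X W S| ≤ 1 := by
    intro X W S hX
    rcases hz3 X W S hX with h | ⟨N, k, h0, h1, h⟩
    · rw [h]; norm_num
    · rw [h]; exact hF N k h0 h1
  have hθ : res p q ((D - a * b * q : ℤ) : ZMod (p * q)) ≠ 1 ∧
      res p q ((D - a * b * q : ℤ) : ZMod (p * q)) ≠ -1 := by
    have e1 : res p q ((D - a * b * q : ℤ) : ZMod (p * q)) = ((D : ℤ) : ZMod q) := by
      rw [res_int]
      push_cast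
      rw [ZMod.natCast_self]
      ring
    rw [e1]
    refine ⟨fun h => hDu.1 ?_, fun h => hDu.2 ?_⟩
    · rw [← ZMod.intCast_zmod_eq_zero_iff_dvd]
      push_cast
      rw [h]
      ring
    · rw [← ZMod.intCast_zmod_eq_zero_iff_dvd]
      push_cast
      rw [h]
      ring
  have hrz : ∀ j, rp p q (zap q a b D j) = 0 := fun j => (rp_zero_iff _).2 (hz1 j)
  have hbq1 : ((b : ZMod p)) * (q : ZMod p) = -1 := by
    have h1 := (ZMod.natCast_eq_zero_iff (b * q + 1) p).2 hb1
    push_cast at h1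
    linear_combination h1
  rcases Nat.lt_or_ge (2 * b) p with hb | hb
  · have hP : Par p q a b := ⟨ha, hb2, by omega, by omega⟩
    have hB : Blk q b 0 (zap (p := p) q a b D) := by
      refine ⟨by omega, fun j => by rw [hrz, Nat.cast_zero], fun j => ?_⟩
      rw [map_sub, hrz, map_mul, map_natCast, map_natCast, zero_sub, hbq1]
      norm_num
    refine conf_of hS hθ hP hpq ha2 hb hac hbc hG hB hAP (Or.inl (by push_cast; ring))
      (fun X W S hX => hbd X W S ((rp_zero_iff X).1 hX)) ?_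
    intro n m h h1
    refine noh hpq hNh (idx_lt a b m) (idx_lt a b n) (Or.inl ?_)
    have h2 := idx_sc (q := q) habc D m
    have h3 := idx_sc (q := q) habc D n
    have h4 : e p q n = e p q m + b * q := by
      have : n = m + (b : ZMod p) := by rw [← h1]; ring
      rw [this, e_add, e_natCast, Nat.cast_mul]
    rw [h4] at h3
    push_cast at h
    linear_combination -h2 + h3 + h
  · have hP : Par p q a (p - b) := ⟨ha, by omega, by omega, by omega⟩
    have hbc' : (p - b).Coprime p := cop_sub (by omega) hbc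
    have hm := mir p q a b (zap (p := p) q a b D)
    have hcast : ((p - b : ℕ) : ZMod (p * q)) * q = - (b * q) := by
      rw [Nat.cast_sub (by omega), sub_mul, ← Nat.cast_mul, ZMod.natCast_self, zero_sub]
    have hcastp : ((p - b : ℕ) : ZMod p) = - b := by
      rw [Nat.cast_sub (by omega), ZMod.natCast_self, zero_sub]
    have hrw : ∀ X : ZMod (p * q), ∀ j : ZMod p, X = zap q a b D (j - (b : ZMod p)) - b * q →
        rp p q X = 1 := by
      rintro X j rfl
      rw [map_sub, hrz, map_mul, map_natCast, map_natCast, hbq1]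
      ring
    have hB : Blk q (p - b) 1
        (fun j : ZMod p => zap (p := p) q a b D (j - (b : ZMod p)) - b * q) := by
      refine ⟨le_rfl, fun j => ?_, fun j => ?_⟩
      · rw [hrw _ j rfl, Nat.cast_one]
      · rw [hcast]
        simp only [sub_neg_eq_add, sub_add_cancel, hrz, Nat.sub_self, Nat.cast_zero]
    have hG' := hm.2.2.2 hG
    have hAP' := ap_translate hAP (b : ZMod p) (b * q)
    have hF' : ∀ X W S, p ∣ X.val → |FF q a (p - b)
        (fun j : ZMod p => zap q a b D (j - (b : ZMod p)) - b * q) X W S| ≤ 1 := by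
      intro X W S hX
      rw [hm.2.1 (by omega) X W S, abs_neg]
      exact hbd X W S hX
    refine conf_of hS (i0 := 0 + (b : ZMod p)) hθ hP hpq ha2 (by omega) hac hbc' hG' hB hAP'
      (Or.inr (by rw [hcastp]; push_cast; ring))
      (fun X W S hX => hF' X W S ((rp_zero_iff X).1 hX)) ?_
    intro n m h h1
    rw [hcastp] at h1
    refine noh hpq hNh (idx_lt a b (n - (b : ZMod p))) (idx_lt a b (m - (b : ZMod p)))
      (Or.inl ?_)
    have h2 := idx_sc (q := q) habc D (m - (b : ZMod p))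
    have h3 := idx_sc (q := q) habc D (n - (b : ZMod p))
    have h4 : e p q (m - (b : ZMod p)) = e p q (n - (b : ZMod p)) + b * q := by
      have : m - (b : ZMod p) = n - (b : ZMod p) + (b : ZMod p) := by
        linear_combination -h1
      rw [this, e_add, e_natCast, Nat.cast_mul]
    rw [h4] at h2
    simp only [hcast] at h
    push_cast at h
    linear_combination h2 - h3 - h

end

/-- merges from harmful ties -/
theorem stmerge2 (h0 : StL0) (hS : StLSs) : StMerge := by
  intro p q D g hp hpq hc hD hF hq hDp hNh _ _ _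
  have h1 : NeZero p := ⟨by omega⟩
  have h2 : NeZero q := ⟨by omega⟩
  push_cast at hD
  have hDp' : IsCoprime D (p : ℤ) := hD.of_mul_right_left
  have hDq : IsCoprime D (q : ℤ) := hD.of_mul_right_right
  by_cases hDu : (q : ℤ) ∣ D - 1 ∨ (q : ℤ) ∣ D + 1
  · exact Helper25.FLT.merge_one h0 hp hpq hc (by push_cast; exact hD) hF hq hDp hDu
  push Not at hDu
  refine Helper25.FLT.no_conf h0 (p := p) (q := q) ?_
  obtain ⟨a, ha, ha2, ha3, ha4, hac⟩ := exists_res hp hDp' hDp
  rcases Nat.lt_or_ge (2 * a) p with h | h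
  · exact mconf2 hS hpq hc hDq hF hq ha2 h hac ha hDu hNh
  · have hac' : (p - a).Coprime p := cop_sub (by omega) hac
    refine mconf2 hS (a := p - a) (D := -D) hpq hc hDq.neg_left (flat_neg hF) hq (by omega)
      (by omega) hac' ?_ ?_ ?_
    · obtain ⟨w, hw⟩ := ha
      refine ⟨1 - w, ?_⟩
      rw [Nat.cast_sub (by omega)]
      linarith
    · refine ⟨fun h7 => hDu.2 ?_, fun h7 => hDu.1 ?_⟩
      · have := (dvd_neg (a := (q : ℤ))).2 h7
        have e1 : -(-D - 1) = D + 1 := by ring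
        rwa [e1] at this
      · have := (dvd_neg (a := (q : ℤ))).2 h7
        have e1 : -(-D + 1) = D - 1 := by ring
        rwa [e1] at this
    · intro h h3 h4
      obtain ⟨h5, h6⟩ := hNh h h3 h4
      have hneg : ∀ x : ℤ, ((p * q : ℕ) : ℤ) ∣ x → ((p * q : ℕ) : ℤ) ∣ -x := fun x hx =>
        (dvd_neg (a := ((p * q : ℕ) : ℤ))).2 hx
      refine ⟨fun h7 => h6 ?_, fun h7 => h5 ?_⟩
      · have := hneg _ h7
        have e1 : -(-D * h - 1) = D * h + 1 := by ring
        rwa [e1] at this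
      · have := hneg _ h7
        have e1 : -(-D * h + 1) = D * h - 1 := by ring
        rwa [e1] at this

end Helper25.FLT
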