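import Pool.Agent.Helper25.FLT.B2

set_option autoImplicit false
set_option linter.unusedSectionVars false

/-!
# The second ties

For `q < p + l` the reversed progression has the tie index `q - l`, with class moved by `± a`.
-/

namespace Helper25.FLT

open Helper11.N1 Helper55.KE Pool.Agent.Helper55.FT

section

variable {p q a b c : ℕ} [NeZero p] [NeZero q] {z : ZMod p → ZMod (p * q)} {i0 ρ : ZMod p}
  {θ : ZMod (p * q)} {δ l : ℕ} {k : ℤ}

/-- `b q = -ε` modulo `p` -/
theorem LS.bq (h : LS p q a b c z i0 ρ θ δ l k) :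
    (b : ZMod p) * (q : ZMod p) = ((-(1 - 2 * (c : ℤ)) : ℤ) : ZMod p) := by
  have h1 := h.hB.hx i0
  have h2 := h.hB.hy i0
  have hc := h.hB.hc
  rw [map_sub, h1, map_mul, map_natCast, map_natCast, Nat.cast_sub hc] at h2
  push_cast at h2 ⊢
  linear_combination -h2

/-- the step is divisible by `p` -/
theorem LS.qθ (h : LS p q a b c z i0 ρ θ δ l k) :
    (q : ZMod (p * q)) * θ = 0 := by
  have hab := h.hP.hab
  have ha := h.hP.ha
  have h0 := h.hAP.2 0 (by omega)
  have h1 := h.hAP.2 1 (by omega)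
  have h2 := congrArg (rp p q) h0
  have h3 := congrArg (rp p q) h1
  rw [h.hB.hx, map_add, h.hB.hx] at h2 h3
  have h4 : rp p q θ = 0 := by
    rw [Nat.cast_one, one_mul] at h3
    exact left_eq_add.1 h3
  rw [rp_zero_iff] at h4
  obtain ⟨t, ht⟩ := h4
  have h5 : θ = ((p * t : ℕ) : ZMod (p * q)) := by rw [← ht, ZMod.natCast_zmod_val]
  rw [h5]
  have h6 : (q : ZMod (p * q)) * ((p * t : ℕ) : ZMod (p * q)) =
      ((p * q : ℕ) : ZMod (p * q)) * t := by push_cast; ring
  rw [h6, ZMod.natCast_self, zero_mul]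

/-- the second ties are the first ties of the reversed progression -/
theorem LS.rev2 (h : LS p q a b c z i0 ρ θ δ l k) {σ : ℤ}
    (hσ : ρ = (σ : ZMod p) * ((a : ZMod p) * b)) (hq : q < p + l) {k' : ℤ}
    (hk' : (k' : ZMod p) = ((k + σ * (1 - 2 * (c : ℤ)) * a : ℤ) : ZMod p)) :
    LS p q a b c z (i0 - ρ) (-ρ) (-θ) (p * q - δ) (q - l) k' := by
  have hl := h.hl
  have hl0 := h.hl0
  have hpq := h.hpq
  have hδ0 := h.hδ0
  have hδM := h.hδM
  have hxl := h.hxl
  have hrl := h.hrl
  have hqθ := LS.qθ h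
  have hbq := LS.bq h
  refine { hP := h.hP, hG := h.hG, hB := h.hB, hAP := ap_rev h.hAP, hF := h.hF, hδ0 := by omega
           hδM := by omega, hδ := ?_, hl0 := by omega, hl := by omega, hpq := hpq, hxl := ?_
           hrl := ?_ }
  · rw [Nat.cast_sub hδM.le, ZMod.natCast_self, h.hδ]
    ring
  · rw [Nat.cast_sub (by omega)]
    push_cast at hxl ⊢
    linear_combination hxl - hqθ
  · rw [Nat.cast_sub (by omega)]
    push_cast at hk' hbq hrl ⊢
    rw [hk']
    have e1 : (q : ZMod p) * ρ = -((σ : ZMod p) * (1 - 2 * (c : ZMod p)) * a) := by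
      rw [hσ]
      linear_combination (σ : ZMod p) * a * hbq
    linear_combination hrl - e1

/-- the class of the second tie is not `0` -/
theorem LS.ne2 (h : LS p q a b c z i0 ρ θ δ l k)
    (hNE : ∀ n m : ZMod p, z m - b * q = z n + ((1 - 2 * (c : ℤ) : ℤ) : ZMod (p * q)) →
      n - m ≠ b) : (k : ZMod p) ≠ 0 := by
  intro hk
  have hl := h.hl
  have hxl := h.hxl
  have hrl := h.hrl
  have h0 := h.hAP.2 0 (by omega)
  have h1 := h.hAP.2 l hl
  refine hNE (i0 + (l : ZMod p) * ρ) (i0 + ((0 : ℕ) : ZMod p) * ρ) ?_ ?_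
  · rw [h0, h1, Nat.cast_zero, zero_mul, add_zero]
    push_cast at hxl ⊢
    linear_combination -hxl
  · push_cast at hrl ⊢
    linear_combination hrl + hk

end

end Helper25.FLT
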