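import Pool.Agent.Helper25.FLT.TR
import Pool.Agent.Helper55.FT.Def

set_option autoImplicit false

/-!
# From bounded progression sums to a flat configuration

`Flat p q D` with `q` and `D` different from `± 1` modulo `p` and without merges gives a generic
flat progression with parameters `a, b < p / 2`.
-/

namespace Helper25.FLT

open Helper11.N1 Helper55.KE Pool.Agent.Helper55.FT

/-- all progression sums are bounded by `1` (flatness of `(p, q, r)` with `D r ≡ 1` modulo `p q`) -/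
def Flat (p q : ℕ) (D : ℤ) : Prop := ∀ N k : ℤ, 0 ≤ N → N < p * q → |G p q D N k| ≤ 1

/-- `x` is not `± 1` modulo `p` -/
def NU (p : ℕ) (x : ℤ) : Prop := ¬ ((p : ℤ) ∣ x - 1) ∧ ¬ ((p : ℤ) ∣ x + 1)

/-- there is no merge -/
def NM (p q : ℕ) (D : ℤ) : Prop :=
  ∀ g : ℤ, 0 < g → g < p → ¬ ((q : ℤ) ∣ D * g - 1) ∧ ¬ ((q : ℤ) ∣ D * g + 1)

theorem flat_neg {p q : ℕ} {D : ℤ} (h : Flat p q D) : Flat p q (-D) := by
  intro N k h0 h1
  rw [G_neg, abs_neg]
  exact h _ _ h0 h1

theorem nu_neg {p : ℕ} {x : ℤ} (h : NU p x) : NU p (-x) := by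
  refine ⟨fun h1 => h.2 ?_, fun h1 => h.1 ?_⟩
  · have := (dvd_neg (a := (p : ℤ)) (b := -x - 1)).2 h1
    have e : -(-x - 1) = x + 1 := by ring
    rwa [e] at this
  · have := (dvd_neg (a := (p : ℤ)) (b := -x + 1)).2 h1
    have e : -(-x + 1) = x - 1 := by ring
    rwa [e] at this

theorem nm_neg {p q : ℕ} {D : ℤ} (h : NM p q D) : NM p q (-D) := by
  intro g h0 h1
  obtain ⟨h2, h3⟩ := h g h0 h1
  refine ⟨fun h4 => h3 ?_, fun h4 => h2 ?_⟩
  · have := (dvd_neg (a := (q : ℤ)) (b := -D * g - 1)).2 h4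
    have e : -(-D * g - 1) = D * g + 1 := by ring
    rwa [e] at this
  · have := (dvd_neg (a := (q : ℤ)) (b := -D * g + 1)).2 h4
    have e : -(-D * g + 1) = D * g - 1 := by ring
    rwa [e] at this

theorem cop_sub {a p : ℕ} (h : a ≤ p) (hac : a.Coprime p) : (p - a).Coprime p := by
  have h1 : (p - a).Coprime a := (Nat.coprime_sub_self_left h).2 hac.symm
  have h2 : (p - a).Coprime ((p - a) + a) := by rwa [Nat.coprime_self_add_right]
  rwa [Nat.sub_add_cancel h] at h2

/-- the residue of `-x` modulo `p` -/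
theorem exists_res {p : ℕ} (hp : 2 ≤ p) {x : ℤ} (hc : IsCoprime x (p : ℤ)) (hx : NU p x) :
    ∃ a : ℕ, (p : ℤ) ∣ x + a ∧ 2 ≤ a ∧ a + 2 ≤ p ∧ 2 * a ≠ p ∧ a.Coprime p := by
  have hp0 : (0 : ℤ) < p := by exact_mod_cast (by omega : 0 < p)
  obtain ⟨a, ha⟩ := Int.eq_ofNat_of_zero_le (Int.emod_nonneg (-x) hp0.ne')
  have hlt := Int.emod_lt_of_pos (-x) hp0
  rw [ha] at hlt
  have hdvd : (p : ℤ) ∣ x + a := by
    have h1 := Int.emod_add_mul_ediv (-x) p
    rw [ha] at h1
    exact ⟨-(-x / p), by linarith⟩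
  have hcop : a.Coprime p := by
    have h1 : IsCoprime (a : ℤ) (p : ℤ) := by
      obtain ⟨u, v, huv⟩ := hc
      obtain ⟨w, hw⟩ := hdvd
      refine ⟨-u, v + u * w, ?_⟩
      have : (a : ℤ) = p * w - x := by linarith
      rw [this]
      linear_combination huv
    exact Nat.isCoprime_iff_coprime.1 h1
  refine ⟨a, hdvd, ?_, ?_, ?_, hcop⟩
  · rcases Nat.lt_or_ge a 2 with h | h
    · exfalso
      interval_cases a
      · have h1 : p = 1 := by simpa using hcop
        omega
      · exact hx.2 (by simpa using hdvd)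
    · exact h
  · rcases Nat.lt_or_ge p (a + 2) with h | h
    · exfalso
      have h1 : a + 1 = p := by omega
      apply hx.1
      obtain ⟨w, hw⟩ := hdvd
      refine ⟨w - 1, ?_⟩
      have : (p : ℤ) = a + 1 := by rw [← h1]; push_cast; ring
      rw [this] at hw ⊢
      linarith
    · exact h
  · intro h
    have h1 : a.Coprime (2 * a) := by rw [h]; exact hcop
    have h2 : a = 1 := by
      have : a.gcd (2 * a) = a := Nat.gcd_eq_left (Dvd.intro_left 2 rfl)
      rw [Nat.Coprime, this] at h1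
      exact h1
    subst h2
    have h3 : p = 2 := by omega
    subst h3
    exact hx.2 (by simpa using hdvd)

theorem exists_b {p q : ℕ} (hp : 2 ≤ p) (hc : p.Coprime q) (hq : NU p q) :
    ∃ b : ℕ, p ∣ b * q + 1 ∧ 2 ≤ b ∧ b + 2 ≤ p ∧ 2 * b ≠ p ∧ b.Coprime p := by
  obtain ⟨u, v, huv⟩ := (Nat.isCoprime_iff_coprime.2 hc).symm
  have hcu : IsCoprime u (p : ℤ) := ⟨q, v, by linear_combination huv⟩
  have hnu : NU p u := by
    refine ⟨fun h => hq.1 ?_, fun h => hq.2 ?_⟩
    · obtain ⟨w, hw⟩ := h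
      refine ⟨-v - w * q, ?_⟩
      have : u = p * w + 1 := by linarith
      rw [this] at huv
      linear_combination huv
    · obtain ⟨w, hw⟩ := h
      refine ⟨v + w * q, ?_⟩
      have : u = p * w - 1 := by linarith
      rw [this] at huv
      linear_combination -huv
  obtain ⟨b, h1, h2, h3, h4, h5⟩ := exists_res hp hcu hnu
  refine ⟨b, ?_, h2, h3, h4, h5⟩
  obtain ⟨w, hw⟩ := h1
  have : (p : ℤ) ∣ ((b * q + 1 : ℕ) : ℤ) := by
    refine ⟨v + w * q, ?_⟩
    push_cast
    have hb : (b : ℤ) = p * w - u := by linarith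
    rw [hb]
    linear_combination -huv
  exact_mod_cast this

section

variable {p q : ℕ} [NeZero p] [NeZero q]

/-- the index of the row `j` -/
def idx (a b : ℕ) (j : ZMod p) : ℕ := (j * ((a * b : ℕ) : ZMod p)⁻¹).val

theorem idx_lt (a b : ℕ) (j : ZMod p) : idx a b j < p := ZMod.val_lt _

omit [NeZero p] [NeZero q] in
theorem zap_eq (a b : ℕ) (D : ℤ) (j : ZMod p) :
    zap q a b D j = ((idx a b j : ℕ) : ZMod (p * q)) * ((D - a * b * q : ℤ) : ZMod (p * q)) := rfl

/-- reduction modulo `q` -/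
def rq (p q : ℕ) : ZMod (p * q) →+* ZMod q := ZMod.castHom (Dvd.intro_left p rfl) (ZMod q)

theorem rq_zap (a b : ℕ) (D : ℤ) (j : ZMod p) :
    rq p q (zap q a b D j) = (((idx a b j : ℤ) * D : ℤ) : ZMod q) := by
  rw [zap_eq, map_mul, map_natCast, map_intCast]
  push_cast
  rw [ZMod.natCast_self, mul_zero, sub_zero]

theorem no_merge {a b : ℕ} {D : ℤ} (hq : 2 ≤ q) (hNM : NM p q D) {m n : ZMod p}
    (h : rq p q (zap q a b D m) = rq p q (zap q a b D n) + 1) : False := by
  rw [rq_zap, rq_zap] at h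
  have h1 : (((idx a b m : ℤ) * D - ((idx a b n : ℤ) * D + 1) : ℤ) : ZMod q) = 0 := by
    push_cast at h ⊢
    rw [h]
    ring
  rw [ZMod.intCast_zmod_eq_zero_iff_dvd] at h1
  have hm := idx_lt a b m
  have hn := idx_lt a b n
  rcases lt_trichotomy (idx a b m) (idx a b n) with h2 | h2 | h2
  · refine (hNM ((idx a b n : ℤ) - idx a b m) (by omega) (by omega)).2 ?_
    have := (dvd_neg (a := (q : ℤ))).2 h1
    have e1 : -((idx a b m : ℤ) * D - ((idx a b n : ℤ) * D + 1)) =
      D * ((idx a b n : ℤ) - idx a b m) + 1 := by ring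
    rwa [e1] at this
  · rw [h2] at h1
    have e1 : (idx a b n : ℤ) * D - ((idx a b n : ℤ) * D + 1) = -1 := by ring
    rw [e1] at h1
    have := Int.le_of_dvd (by norm_num) ((dvd_neg (a := (q : ℤ))).1 (by simpa using h1) : (q : ℤ) ∣ 1)
    omega
  · refine (hNM ((idx a b m : ℤ) - idx a b n) (by omega) (by omega)).1 ?_
    have e1 : (idx a b m : ℤ) * D - ((idx a b n : ℤ) * D + 1) =
      D * ((idx a b m : ℤ) - idx a b n) - 1 := by ring
    rwa [e1] at h1

theorem ap_zap {a b : ℕ} (hab : (a * b).Coprime p) (D : ℤ) :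
    AP q (zap (p := p) q a b D) 0 ((a * b : ℕ) : ZMod p) ((D - a * b * q : ℤ) : ZMod (p * q)) := by
  have hu : IsUnit ((a * b : ℕ) : ZMod p) := (ZMod.isUnit_iff_coprime _ p).2 hab
  refine ⟨hu, fun n hn => ?_⟩
  have h1 : ∀ n : ℕ, n < p → idx a b (0 + (n : ZMod p) * ((a * b : ℕ) : ZMod p)) = n := by
    intro n hn
    unfold idx
    rw [zero_add, mul_assoc, ZMod.mul_inv_of_unit _ hu, mul_one, ZMod.val_natCast_of_lt hn]
  have h0 : idx a b (0 : ZMod p) = 0 := by
    unfold idx
    rw [zero_mul, ZMod.val_zero]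
  rw [zap_eq, zap_eq, h1 n hn, h0]
  push_cast
  ring

/-- the conclusion: a generic flat progression -/
def Conf (p q : ℕ) : Prop := ∃ (a b : ℕ), ∃ (_ : NeZero p) (_ : NeZero q), Par p q a b ∧
  2 * a < p ∧ 2 * b < p ∧ a.Coprime p ∧ b.Coprime p ∧
  ∃ (z : ZMod p → ZMod (p * q)) (i0 ρ : ZMod p) (θ : ZMod (p * q)),
    (ρ = (a : ZMod p) * b ∨ ρ = -((a : ZMod p) * b)) ∧
    Gen q z ∧ AP q z i0 ρ θ ∧ ∀ X W S, |FF q a b z X W S| ≤ 1

theorem conf1 {a : ℕ} {D : ℤ} (hpq : p < q) (hc : p.Coprime q) (hDq : IsCoprime D (q : ℤ))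
    (hF : Flat p q D) (hq : NU p q) (ha : 2 ≤ a) (ha2 : 2 * a < p) (hac : a.Coprime p)
    (haD : (p : ℤ) ∣ D + a) (hNM : NM p q D) : Conf p q := by
  obtain ⟨b, hb1, hb2, hb3, hb4, hbc⟩ := exists_b (by omega) hc hq
  have habc : (a * b).Coprime p := Nat.Coprime.mul_left hac hbc
  obtain ⟨hz1, hz2, hz3⟩ := aLK2 p q a b hb1 habc D haD (by omega)
  have hG : Gen q (zap (p := p) q a b D) := genap p q a b hpq.le habc D hDq
  have hAP := ap_zap (q := q) habc D
  have hbd : ∀ (X : ZMod (p * q)) W S, p ∣ X.val → |FF q a b (zap q a b D) X W S| ≤ 1 := by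
    intro X W S hX
    rcases hz3 X W S hX with h | ⟨N, k, h0, h1, h⟩
    · rw [h]; norm_num
    · rw [h]; exact hF N k h0 h1
  rcases Nat.lt_or_ge (2 * b) p with hb | hb
  · have hP : Par p q a b := ⟨ha, hb2, by omega, by omega⟩
    refine ⟨a, b, inferInstance, inferInstance, hP, ha2, hb, hac, hbc, _, _, _, _,
      Or.inl (by push_cast; ring), hG, hAP, ?_⟩
    refine aLK3 p q a b hP hb1 _ ?_ hz1 ?_ hbd
    · intro i j hij
      refine hG i j ?_
      rw [hij, sub_self, ZMod.val_zero]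
      exact dvd_zero _
    · intro n m h
      exfalso
      refine no_merge (a := a) (b := b) (m := m) (n := n) (by omega) hNM ?_
      have h1 := congrArg (rq p q) h
      rw [map_sub, map_add, map_mul, map_natCast, map_natCast, map_one, ZMod.natCast_self,
        mul_zero, sub_zero] at h1
      exact h1
  · have hP : Par p q a (p - b) := ⟨ha, by omega, by omega, by omega⟩
    have hbc' : (p - b).Coprime p := cop_sub (by omega) hbc
    have hm := mir p q a b (zap (p := p) q a b D)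
    refine ⟨a, p - b, inferInstance, inferInstance, hP, ha2, by omega, hac, hbc',
      (fun j : ZMod p => zap q a b D (j - (b : ZMod p)) - b * q), _, _, _, Or.inr ?_,
      hm.2.2.2 hG, ap_translate hAP (b : ZMod p) _, ?_⟩
    · rw [Nat.cast_sub (by omega), ZMod.natCast_self]
      push_cast
      ring
    obtain ⟨c, hc1⟩ := hb1
    have hcq : c ≤ q := by
      by_contra hcon
      have h1 : q + 1 ≤ c := by omega
      have h2 : p * (q + 1) ≤ p * c := Nat.mul_le_mul_left p h1
      have h3 : b * q + q ≤ p * q := by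
        have : (b + 1) * q ≤ p * q := Nat.mul_le_mul_right q (by omega)
        rw [add_mul, one_mul] at this
        exact this
      rw [mul_add, mul_one] at h2
      omega
    have hbq : (p - b) * q = p * (q - c) + 1 := by
      rw [Nat.sub_mul, Nat.mul_sub]
      have h3 : b * q + q ≤ p * q := by
        have : (b + 1) * q ≤ p * q := Nat.mul_le_mul_right q (by omega)
        rw [add_mul, one_mul] at this
        exact this
      have h4 : p * c ≤ p * q := Nat.mul_le_mul_left p hcq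
      omega
    have hcast : ((p - b : ℕ) : ZMod (p * q)) * q = - (b * q) := by
      rw [Nat.cast_sub (by omega), sub_mul, ← Nat.cast_mul, ZMod.natCast_self, zero_sub]
    refine aLK3B p q a (p - b) hP ⟨q - c, hbq⟩ _ ?_ ?_ ?_ ?_
    · intro i j hij
      have hG' := hm.2.2.2 hG
      refine hG' i j ?_
      rw [hij, sub_self, ZMod.val_zero]
      exact dvd_zero _
    · intro j
      -- the positions are `1` modulo `p`
      obtain ⟨t, ht⟩ := hz1 (j - (b : ZMod p))
      have h1 : zap q a b D (j - (b : ZMod p)) - b * q =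
          ((p * t + (p * (q - c) + 1) : ℕ) : ZMod (p * q)) := by
        rw [← hbq, Nat.cast_add, ← ht, ZMod.natCast_zmod_val, Nat.cast_mul, hcast]
        ring
      rw [h1, ZMod.val_natCast, Nat.mod_mul_right_mod]
      have h2 : p * t + (p * (q - c) + 1) = 1 + p * (t + (q - c)) := by ring
      rw [h2, Nat.add_mul_mod_self_left]
      exact Nat.mod_eq_of_lt (by omega)
    · intro n m h
      exfalso
      refine no_merge (a := a) (b := b) (m := n - (b : ZMod p)) (n := m - (b : ZMod p))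
        (by omega) hNM ?_
      have h1 := congrArg (rq p q) h
      simp only [map_sub, map_add, map_mul, map_natCast, map_one, ZMod.natCast_self, mul_zero,
        sub_zero] at h1
      exact h1.symm
    · intro X W S hX
      rw [hm.2.1 (by omega) X W S, abs_neg]
      exact hbd X W S hX

end

theorem conf {p q : ℕ} {D : ℤ} (hp : 2 ≤ p) (hpq : p < q) (hc : p.Coprime q)
    (hD : IsCoprime D ((p * q : ℕ) : ℤ)) (hF : Flat p q D) (hq : NU p q) (hDp : NU p D)
    (hNM : NM p q D) : Conf p q := by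
  have h1 : NeZero p := ⟨by omega⟩
  have h2 : NeZero q := ⟨by omega⟩
  push_cast at hD
  have hDp' : IsCoprime D (p : ℤ) := hD.of_mul_right_left
  have hDq : IsCoprime D (q : ℤ) := hD.of_mul_right_right
  obtain ⟨a, ha, ha2, ha3, ha4, hac⟩ := exists_res hp hDp' hDp
  rcases Nat.lt_or_ge (2 * a) p with h | h
  · exact conf1 hpq hc hDq hF hq ha2 h hac ha hNM
  · have hac' : (p - a).Coprime p := cop_sub (by omega) hac
    refine conf1 (a := p - a) (D := -D) hpq hc hDq.neg_left (flat_neg hF) hq (by omega) (by omega)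
      hac' ?_ (nm_neg hNM)
    obtain ⟨w, hw⟩ := ha
    refine ⟨1 - w, ?_⟩
    rw [Nat.cast_sub (by omega)]
    linarith

end Helper25.FLT
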