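import Pool.Agent.Helper25.FLT.G3
import Pool.Agent.Helper10.KE.GlueD

set_option autoImplicit false

/-!
# `StL0`
-/

namespace Helper25.FLT

open Helper11.N1 Helper55.KE Helper10.KE

theorem stL0_holds : StL0 := stL0 stHalf (fun _ _ _ _ _ h => Helper10.KE.main h)

end Helper25.FLT
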