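import Pool.Agent.Helper25.FLT.Conf
import Pool.Agent.Helper55.KE.Main

set_option autoImplicit false

/-!
# The star theorem from its parts

`StL0`: the overlap vectors of a flat progression (three jump rule).
`StMerge`: merges, `r ≡ ± g` modulo `q` with `0 < g < p`, but not modulo `p q`.
`StE`: the family `r ≡ w` modulo `p q` with `2 ≤ w < p`.
-/

namespace Helper25.FLT

open Helper11.N1 Helper55.KE Pool.Agent.Helper55.FT

/-- overlap vectors of a flat progression; `δ = p θ` is less than `p q / 2` -/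
def StL0 : Prop := ∀ (p q a b : ℕ) [NeZero p] [NeZero q], Par p q a b → a ≤ b → 2 * b < p →
  a.Coprime p → b.Coprime p →
  ∀ (z : ZMod p → ZMod (p * q)) (i0 ρ : ZMod p) (θ : ZMod (p * q)),
  (ρ = (a : ZMod p) * b ∨ ρ = -((a : ZMod p) * b)) → Gen q z → AP q z i0 ρ θ →
  0 < ((p : ZMod (p * q)) * θ).val → 2 * ((p : ZMod (p * q)) * θ).val < p * q →
  (∀ X W S, |FF q a b z X W S| ≤ 1) → L0 p q a b θ (θ + e p q ρ)

/-- merges which do not belong to the family `E` -/
def StMerge : Prop := ∀ (p q : ℕ) (D g : ℤ), 2 ≤ p → p < q → p.Coprime q →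
  IsCoprime D ((p * q : ℕ) : ℤ) → Flat p q D → NU p q → NU p D →
  (∀ h : ℤ, 0 < h → h < p → ¬ (((p * q : ℕ) : ℤ) ∣ D * h - 1) ∧ ¬ (((p * q : ℕ) : ℤ) ∣ D * h + 1)) →
  0 < g → g < p → ((q : ℤ) ∣ D * g - 1 ∨ (q : ℤ) ∣ D * g + 1) → False

/-- the family `r ≡ w` modulo `p q` -/
def StE : Prop := ∀ (w p q : ℕ) (D : ℤ), 2 ≤ w → w < p → p < q → w.Coprime p → w.Coprime q →
  p.Coprime q → ((p * q : ℕ) : ℤ) ∣ D * w - 1 → Flat p q D →
  (((w * p : ℕ) : ℤ) ∣ (q : ℤ) - 1) ∨
  (NU w p ∧ NU w q ∧ ∀ D2 : ℤ, ((w * p : ℕ) : ℤ) ∣ D2 * q - 1 → Flat w p D2)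

/-- reversal -/
theorem l0_all (h : StL0) (p q a b : ℕ) [NeZero p] [NeZero q] (hP : Par p q a b) (hab : a ≤ b)
    (hb : 2 * b < p) (hap : a.Coprime p) (hbp : b.Coprime p) (z : ZMod p → ZMod (p * q))
    (i0 ρ : ZMod p) (θ : ZMod (p * q)) (hρ : ρ = (a : ZMod p) * b ∨ ρ = -((a : ZMod p) * b))
    (hG : Gen q z) (hAP : AP q z i0 ρ θ)
    (hF : ∀ X W S, |FF q a b z X W S| ≤ 1) : L0 p q a b θ (θ + e p q ρ) := by
  have ha := hP.ha
  have hab' := hP.hab
  have hp2 : 2 < p := by omega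
  have hq1 := hP.hq
  have hM : 0 < p * q := Nat.mul_pos (by omega) (by omega)
  set δ : ZMod (p * q) := (p : ZMod (p * q)) * θ with hδ
  -- `2 θ` is not divisible by `q`
  have hnd : ∀ s : ℤ, (q : ℤ) ∣ s → ((2 : ℕ) : ZMod (p * q)) * θ ≠ (s : ZMod (p * q)) := by
    intro s hs h2
    exact ap_ndvd' hAP hG (n := 2) (by omega) (by omega) h2 hs
  have h2δ : ∀ s : ℤ, (p : ZMod (p * q)) * θ = (s : ZMod (p * q)) → ¬ (((p * q : ℕ) : ℤ) ∣ 2 * s) := by
    intro s hs hdvd
    -- `2 p θ = 0`, so `2 θ` is divisible by `q`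
    have h3 : ((2 * (p : ℤ) * (θ.val : ℤ) : ℤ) : ZMod (p * q)) = 0 := by
      have : ((2 * s : ℤ) : ZMod (p * q)) = 0 := by
        rw [ZMod.intCast_zmod_eq_zero_iff_dvd]
        exact hdvd
      push_cast at this ⊢
      rw [← hs] at this
      rw [ZMod.natCast_zmod_val]
      linear_combination this
    rw [ZMod.intCast_zmod_eq_zero_iff_dvd] at h3
    push_cast at h3
    have h4 : (q : ℤ) ∣ 2 * (θ.val : ℤ) := by
      obtain ⟨w, hw⟩ := h3
      refine ⟨w, ?_⟩
      have hp0 : (p : ℤ) ≠ 0 := by exact_mod_cast (by omega : p ≠ 0)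
      apply mul_left_cancel₀ hp0
      linear_combination hw
    refine hnd (2 * (θ.val : ℤ)) h4 ?_
    push_cast
    rw [ZMod.natCast_zmod_val]
  have hval : ((δ.val : ℤ) : ZMod (p * q)) = δ := by
    push_cast
    exact ZMod.natCast_zmod_val δ
  have hlt : δ.val < p * q := ZMod.val_lt δ
  have hne : 2 * δ.val ≠ p * q := by
    intro h1
    refine h2δ (δ.val : ℤ) hval.symm ⟨1, ?_⟩
    rw [mul_one]
    exact_mod_cast h1
  have hpos : 0 < δ.val := by
    rcases Nat.eq_zero_or_pos δ.val with h1 | h1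
    · exfalso
      refine h2δ (δ.val : ℤ) hval.symm ?_
      rw [h1]
      simp
    · exact h1
  rcases Nat.lt_or_ge (2 * δ.val) (p * q) with h1 | h1
  · exact h p q a b hP hab hb hap hbp z i0 ρ θ hρ hG hAP hpos h1 hF
  · have hAP' := ap_rev hAP
    have hneg : (p : ZMod (p * q)) * -θ = -δ := by rw [hδ]; ring
    have hδ0 : δ ≠ 0 := by
      intro h2
      rw [h2, ZMod.val_zero] at hpos
      omega
    have hvneg : (-δ).val = p * q - δ.val := by
      have : NeZero δ := ⟨hδ0⟩
      rw [ZMod.val_neg_of_ne_zero]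
    have hρ' : -ρ = (a : ZMod p) * b ∨ -ρ = -((a : ZMod p) * b) := by
      rcases hρ with h2 | h2
      · exact Or.inr (by rw [h2])
      · exact Or.inl (by rw [h2, neg_neg])
    have h2 := h p q a b hP hab hb hap hbp z (i0 - ρ) (-ρ) (-θ) hρ' hG hAP'
      (by rw [hneg, hvneg]; omega) (by rw [hneg, hvneg]; omega) hF
    have h3 := l0_rev' h2
    rw [neg_neg, neg_neg] at h3
    exact h3

/-- no generic flat progression -/
theorem no_conf (h : StL0) {p q : ℕ} (hC : Conf p q) : False := by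
  obtain ⟨a, b, _, _, hP, ha, hb, hap, hbp, z, i0, ρ, θ, hρ, hG, hAP, hF⟩ := hC
  rcases le_total a b with hab | hab
  · exact star p q a b hP hap hbp z hG (disj hP hbp hG hAP hF
      (l0_all h p q a b hP hab hb hap hbp z i0 ρ θ hρ hG hAP hF)) hF
  · have hP' : Par p q b a := ⟨hP.hb, hP.ha, by have := hP.hab; omega, hP.hq⟩
    have hG' := gen_zr hP z hG
    have hAP' := ap_zr hAP
    have hF' := ff_zr hP z hF
    exact star p q b a hP' hbp hap (zr q z) hG' (disj hP' hap hG' hAP' hF'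
      (l0_all h p q b a hP' hab ha hbp hap (zr q z) i0 ρ _ (by rwa [mul_comm (b : ZMod p)])
        hG' hAP' hF')) hF'

/-- the star theorem for all coprime `p < q` -/
theorem starT (hL0 : StL0) (hM : StMerge) (hE : StE) : ∀ (p q : ℕ) (D : ℤ), 2 ≤ p → p < q →
    p.Coprime q → IsCoprime D ((p * q : ℕ) : ℤ) → Flat p q D → NU p q → NU p D → False := by
  intro p
  induction p using Nat.strong_induction_on with
  | _ p ih =>
    intro q D hp hpq hc hD hF hq hDp
    -- the family `E`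
    have hEE : ∀ (D' : ℤ) (w : ℤ), IsCoprime D' ((p * q : ℕ) : ℤ) → Flat p q D' → NU p D' →
        0 < w → w < p → ¬ (((p * q : ℕ) : ℤ) ∣ D' * w - 1) := by
      intro D' w hD' hF' hDp' hw0 hwp hdvd
      obtain ⟨n, rfl⟩ := Int.eq_ofNat_of_zero_le hw0.le
      have hn0 : 0 < n := by exact_mod_cast hw0
      have hnp : n < p := by exact_mod_cast hwp
      obtain ⟨t, ht⟩ := hdvd
      push_cast at ht
      have hn2 : 2 ≤ n := by
        rcases Nat.lt_or_ge n 2 with h1 | h1
        · exfalso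
          have : n = 1 := by omega
          subst this
          refine hDp'.1 ⟨q * t, ?_⟩
          push_cast at ht
          linear_combination ht
        · exact h1
      have hwp : n.Coprime p := Nat.isCoprime_iff_coprime.1 ⟨D', -(q * t), by linear_combination ht⟩
      have hwq : n.Coprime q := Nat.isCoprime_iff_coprime.1 ⟨D', -(p * t), by linear_combination ht⟩
      rcases hE n p q D' hn2 hnp hpq hwp hwq hc ⟨t, by push_cast; exact ht⟩ hF' with h1 | ⟨h1, h2, h3⟩
      · refine hq.1 ?_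
        obtain ⟨s, hs⟩ := h1
        push_cast at hs
        exact ⟨n * s, by linear_combination hs⟩
      · have hc2 : IsCoprime ((n * p : ℕ) : ℤ) (q : ℤ) := by
          push_cast
          exact IsCoprime.mul_left (Nat.isCoprime_iff_coprime.2 hwq) (Nat.isCoprime_iff_coprime.2 hc)
        obtain ⟨u, v, huv⟩ := hc2
        have hv : ((n * p : ℕ) : ℤ) ∣ v * q - 1 := ⟨-u, by linear_combination huv⟩
        refine ih n hnp p v hn2 hnp hwp ⟨q, u, by linear_combination huv⟩ (h3 v hv) h1 ?_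
        push_cast at huv
        refine ⟨fun h4 => h2.1 ?_, fun h4 => h2.2 ?_⟩
        · obtain ⟨s, hs⟩ := h4
          refine ⟨-(s * q) - u * p, ?_⟩
          have : v = n * s + 1 := by linear_combination hs
          rw [this] at huv
          linear_combination huv
        · obtain ⟨s, hs⟩ := h4
          refine ⟨s * q + u * p, ?_⟩
          have : v = n * s - 1 := by linear_combination hs
          rw [this] at huv
          linear_combination -huv
    have hnoE : ∀ h : ℤ, 0 < h → h < p →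
        ¬ (((p * q : ℕ) : ℤ) ∣ D * h - 1) ∧ ¬ (((p * q : ℕ) : ℤ) ∣ D * h + 1) := by
      intro w h0 h1
      refine ⟨hEE D w hD hF hDp h0 h1, fun h2 => hEE (-D) w hD.neg_left (flat_neg hF) (nu_neg hDp)
        h0 h1 ?_⟩
      obtain ⟨t, ht⟩ := h2
      exact ⟨-t, by linear_combination -ht⟩
    by_cases hNM : NM p q D
    · exact no_conf hL0 (conf hp hpq hc hD hF hq hDp hNM)
    · unfold NM at hNM
      push Not at hNM
      obtain ⟨g, h0, h1, h2⟩ := hNM
      refine hM p q D g hp hpq hc hD hF hq hDp hnoE h0 h1 ?_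
      by_cases h3 : (q : ℤ) ∣ D * g - 1
      · exact Or.inl h3
      · exact Or.inr (h2 h3)

end Helper25.FLT
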