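import Pool.Agent.Helper25.FLT.Final
import Pool.Agent.Helper25.FLT.B3
import Pool.Agent.Helper25.FLT.G4
import Pool.Agent.Helper73.E.StE

set_option autoImplicit false

/-!
# The conjecture from the harmful ties
-/

namespace Helper25.FLT

/-- the conjecture on flat ternary cyclotomic polynomials from the statement on harmful ties -/
theorem end_of (hS : StLSs) :
    ∀ p q r : ℕ, p.Prime → q.Prime → r.Prime → Odd p → Odd q → Odd r →
      p < q → q < r →
      (∀ k : ℕ, |(Polynomial.cyclotomic (p * q * r) ℤ).coeff k| ≤ 1) →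
      (Int.ModEq (p : ℤ) (q : ℤ) 1 ∨ Int.ModEq (p : ℤ) (q : ℤ) (-1)) ∨
      (Int.ModEq ((p * q : ℕ) : ℤ) (r : ℤ) 1 ∨ Int.ModEq ((p * q : ℕ) : ℤ) (r : ℤ) (-1)) :=
  final stL0_holds (stmerge2 stL0_holds hS) Pool.Agent.Helper73.E.m_E

end Helper25.FLT
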