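import Pool.Agent.Helper25.FLT.Top
import Pool.Agent.Helper55.FT.Flat
import Pool.Agent.Helper10.TB.Final
import Pool.Agent.Helper55.FT.Q5xF
import Pool.Agent.Helper55.FT.Q7xF

set_option autoImplicit false

/-!
# The conjecture on flat ternary cyclotomic polynomials from its parts
-/

namespace Helper25.FLT

open Pool.Agent.Helper55.FT

/-- the conjecture for `r ≡ ± 1` modulo `p` -/
theorem unit_case :
    ∀ p q r : ℕ, p.Prime → q.Prime → r.Prime → Odd p → p < q → q < r →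
      (Int.ModEq (p : ℤ) (r : ℤ) 1 ∨ Int.ModEq (p : ℤ) (r : ℤ) (-1)) →
      (∀ k : ℕ, |(Polynomial.cyclotomic (p * q * r) ℤ).coeff k| ≤ 1) →
      (Int.ModEq (p : ℤ) (q : ℤ) 1 ∨ Int.ModEq (p : ℤ) (q : ℤ) (-1)) ∨
      (Int.ModEq ((p * q : ℕ) : ℤ) (r : ℤ) 1 ∨ Int.ModEq ((p * q : ℕ) : ℤ) (r : ℤ) (-1)) := by
  intro p q r hp hq hr hop hpq hqr hrp hflat
  by_cases h11 : 11 ≤ p
  · exact Pool.Agent.Helper10.TB.flat_imp hp hq hr h11 hpq hqr hrp hflat
  have hcases : p = 3 ∨ p = 5 ∨ p = 7 := by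
    have h2 := hp.two_le
    interval_cases p <;> first
      | omega
      | (exfalso; revert hp; decide)
      | (exfalso; revert hop; decide)
  rcases hcases with rfl | rfl | rfl
  · left
    have h3 : q % 3 ≠ 0 := by
      intro h
      have h4 : 3 ∣ q := Nat.dvd_of_mod_eq_zero h
      have h5 := (Nat.prime_dvd_prime_iff_eq hp hq).1 h4
      omega
    have h6 : q % 3 = 1 ∨ q % 3 = 2 := by omega
    unfold Int.ModEq
    rcases h6 with h | h
    · left; omega
    · right; omega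
  · exact conj_of_pairs hp (by norm_num)
      (fun q D h1 h2 h3 => of_rows (by norm_num) rows_5 h1 h2 h3) hq hr hpq hqr hflat
  · exact conj_of_pairs hp (by norm_num)
      (fun q D h1 h2 h3 => of_rows (by norm_num) rows_7 h1 h2 h3) hq hr hpq hqr hflat

theorem nu_of {p : ℕ} {x : ℤ} (h : ¬ (Int.ModEq (p : ℤ) x 1 ∨ Int.ModEq (p : ℤ) x (-1))) :
    NU p x := by
  push Not at h
  obtain ⟨h1, h2⟩ := h
  refine ⟨fun h3 => h1 ?_, fun h3 => h2 ?_⟩
  · exact ((Int.modEq_iff_dvd).2 h3).symm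
  · refine ((Int.modEq_iff_dvd).2 ?_).symm
    rwa [sub_neg_eq_add]

/-- the conjecture from its parts -/
theorem final (hL0 : StL0) (hM : StMerge) (hE : StE) :
    ∀ p q r : ℕ, p.Prime → q.Prime → r.Prime → Odd p → Odd q → Odd r →
      p < q → q < r →
      (∀ k : ℕ, |(Polynomial.cyclotomic (p * q * r) ℤ).coeff k| ≤ 1) →
      (Int.ModEq (p : ℤ) (q : ℤ) 1 ∨ Int.ModEq (p : ℤ) (q : ℤ) (-1)) ∨
      (Int.ModEq ((p * q : ℕ) : ℤ) (r : ℤ) 1 ∨ Int.ModEq ((p * q : ℕ) : ℤ) (r : ℤ) (-1)) := by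
  intro p q r hp hq hr hop _ _ hpq hqr hflat
  by_cases hrp : Int.ModEq (p : ℤ) (r : ℤ) 1 ∨ Int.ModEq (p : ℤ) (r : ℤ) (-1)
  · exact unit_case p q r hp hq hr hop hpq hqr hrp hflat
  by_contra hcon
  push Not at hcon
  obtain ⟨⟨hq1, hq2⟩, _, _⟩ := hcon
  have hqu : NU p q := nu_of (by push Not; exact ⟨hq1, hq2⟩)
  have hru : NU p r := nu_of hrp
  have hcpq : p.Coprime q := (Nat.coprime_primes hp hq).2 hpq.ne
  have hcpr : p.Coprime r := (Nat.coprime_primes hp hr).2 (hpq.trans hqr).ne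
  have hcqr : q.Coprime r := (Nat.coprime_primes hq hr).2 hqr.ne
  have hc : (p * q).Coprime r := Nat.Coprime.mul_left hcpr hcqr
  obtain ⟨u, v, huv⟩ := Nat.isCoprime_iff_coprime.2 hc
  have hD : ((p * q : ℕ) : ℤ) ∣ v * r - 1 := ⟨-u, by linear_combination huv⟩
  refine starT hL0 hM hE p q v hp.two_le hpq hcpq ⟨r, u, by linear_combination huv⟩ ?_ hqu ?_
  · intro N k h0 h1
    exact G_le hp hq hr hpq hqr hflat hD h0 h1
  · obtain ⟨w, hw⟩ := hD
    push_cast at hw
    refine ⟨fun h4 => hru.1 ?_, fun h4 => hru.2 ?_⟩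
    · obtain ⟨s, hs⟩ := h4
      refine ⟨q * w - s * r, ?_⟩
      have : v = p * s + 1 := by linear_combination hs
      rw [this] at hw
      linear_combination hw
    · obtain ⟨s, hs⟩ := h4
      refine ⟨s * r - q * w, ?_⟩
      have : v = p * s - 1 := by linear_combination hs
      rw [this] at hw
      linear_combination -hw

end Helper25.FLT
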