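import Pool.Agent.Helper55.KE.MBlk

set_option autoImplicit false
set_option linter.unusedSectionVars false

/-!
# Merges with `g = 1`: recurrence for the triangle count on the coarse lattice
-/

namespace Helper25.FLT

open Helper11.N1 Helper55.KE
open Helper11.N1.DECaux (ind ite_ind ind_and ind_congr ind_pos ind_neg)

/-- the arc `1 ≤ y ≤ a` -/
noncomputable def gI {p : ℕ} (a : ℕ) (y : ZMod p) : ℤ := ind ((y - 1).val < a)

/-- the difference of two arcs -/
noncomputable def hI {p : ℕ} (a : ℕ) (κ y : ZMod p) : ℤ := gI a y - gI a (y - κ)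

section

variable {p q a b : ℕ} [NeZero p] [NeZero q]

theorem rep_cast (x : ZMod p) (n : ℕ) :
    e p q x + (n : ZMod (p * q)) = ((q * x.val + n : ℕ) : ZMod (p * q)) := by
  unfold e
  push_cast
  ring

theorem rep_lt (x : ZMod p) {n : ℕ} (hn : n < q) : q * x.val + n < p * q := by
  have h1 : x.val + 1 ≤ p := ZMod.val_lt x
  have h2 : q * (x.val + 1) ≤ q * p := Nat.mul_le_mul_left q h1
  rw [mul_add, mul_one, mul_comm q p] at h2
  omega

theorem rep_inj {x m : ZMod p} {n i : ℕ} (hn : n < q) (hi : i < q) :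
    e p q x + (n : ZMod (p * q)) = e p q m + (i : ZMod (p * q)) ↔ x = m ∧ i = n := by
  constructor
  · intro h
    rw [rep_cast, rep_cast] at h
    have h1 := congrArg ZMod.val h
    rw [ZMod.val_natCast_of_lt (rep_lt x hn), ZMod.val_natCast_of_lt (rep_lt m hi)] at h1
    have hq : 0 < q := by omega
    have h2 : (q * x.val + n) / q = (q * m.val + i) / q := by rw [h1]
    have h3 : (q * x.val + n) % q = (q * m.val + i) % q := by rw [h1]
    rw [Nat.mul_add_div hq, Nat.mul_add_div hq, Nat.div_eq_of_lt hn, Nat.div_eq_of_lt hi, add_zero,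
      add_zero] at h2
    rw [Nat.mul_add_mod, Nat.mul_add_mod, Nat.mod_eq_of_lt hn, Nat.mod_eq_of_lt hi] at h3
    exact ⟨ZMod.val_injective p h2, h3.symm⟩
  · rintro ⟨rfl, rfl⟩
    rfl

theorem sum_pos (z0 : ZMod (p * q)) (x m : ZMod p) {n : ℕ} (hn : n < q) :
    ∑ i ∈ Finset.range q, ind (z0 + e p q x + (n : ZMod (p * q)) =
      z0 + e p q m + (i : ZMod (p * q))) = ind (x = m) := by
  have h1 : ∀ i ∈ Finset.range q, ind (z0 + e p q x + (n : ZMod (p * q)) =
      z0 + e p q m + (i : ZMod (p * q))) = if i = n then ind (x = m) else 0 := by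
    intro i hi
    rw [Finset.mem_range] at hi
    have h2 : (z0 + e p q x + (n : ZMod (p * q)) = z0 + e p q m + (i : ZMod (p * q))) ↔
        (x = m ∧ i = n) := by
      rw [add_assoc, add_assoc, add_right_inj]
      exact rep_inj hn hi
    rw [ind_congr h2]
    by_cases h3 : i = n
    · rw [if_pos h3]
      exact ind_congr (by simp [h3])
    · rw [if_neg h3]
      exact ind_neg (fun h => h3 h.2)
  rw [Finset.sum_congr rfl h1, Finset.sum_ite_eq']
  rw [if_pos (Finset.mem_range.2 hn)]

/-- the horizontal arc in coarse coordinates -/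
theorem off_arc (hap : a < p) (s0 : ZMod (p * q)) (x s : ZMod p) {n : ℕ} (hn : n < q) :
    ind (off (s0 + e p q x + (n : ZMod (p * q)) + 1) (s0 + e p q s) < a * q) = gI a (s - x) := by
  have hq : 0 < q := by omega
  unfold gI
  apply ind_congr
  have hp := NeZero.pos p
  have h1 : off (s0 + e p q x + (n : ZMod (p * q)) + 1) (s0 + e p q s) =
      (e p q (s - x) - ((n + 1 : ℕ) : ZMod (p * q))).val := by
    unfold off
    congr 1
    rw [e_sub]
    push_cast
    ring
  rw [h1]
  set y := s - x with hy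
  by_cases hy0 : y = 0
  · have h2 : (e p q y - ((n + 1 : ℕ) : ZMod (p * q))) = ((p * q - (n + 1) : ℕ) : ZMod (p * q)) := by
      have h3 : n + 1 ≤ p * q := by nlinarith
      rw [hy0, e_zero, Nat.cast_sub h3, ZMod.natCast_self]
    have h3 : q ≤ p * q := Nat.le_mul_of_pos_left q hp
    rw [h2, ZMod.val_natCast_of_lt (by omega), hy0, zero_sub]
    have h4 : (-1 : ZMod p).val = p - 1 := by
      obtain ⟨k, rfl⟩ : ∃ k, p = k + 1 := ⟨p - 1, by omega⟩
      rw [ZMod.val_neg_one]
      omega
    rw [h4]
    have h5 : (a + 1) * q ≤ p * q := Nat.mul_le_mul_right q hap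
    rw [add_mul, one_mul] at h5
    constructor
    · intro h6
      omega
    · intro h6
      omega
  · have hy1 : 0 < y.val := by
      rcases Nat.eq_zero_or_pos y.val with h | h
      · exact absurd ((ZMod.val_eq_zero y).1 h) hy0
      · exact h
    have hyp := ZMod.val_lt y
    have h2 : (e p q y - ((n + 1 : ℕ) : ZMod (p * q))) = ((q * y.val - (n + 1) : ℕ) : ZMod (p * q)) := by
      have h3 : n + 1 ≤ q * y.val := by nlinarith
      rw [Nat.cast_sub h3]
      rfl
    have h3 := rep_lt (q := q) y (n := 0) hq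
    rw [h2, ZMod.val_natCast_of_lt (by omega)]
    have h4 : (y - 1).val = y.val - 1 := by
      have h5 : y - 1 = ((y.val - 1 : ℕ) : ZMod p) := by
        rw [Nat.cast_sub hy1, ZMod.natCast_zmod_val, Nat.cast_one]
      rw [h5, ZMod.val_natCast_of_lt (by omega)]
    rw [h4]
    have h6 : n + 1 ≤ q * y.val := by nlinarith
    constructor
    · intro h7
      by_contra h8
      have h9 : a + 1 ≤ y.val := by omega
      have h10 : q * (a + 1) ≤ q * y.val := Nat.mul_le_mul_left q h9
      rw [mul_add, mul_one, mul_comm q a] at h10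
      omega
    · intro h7
      have h9 : y.val ≤ a := by omega
      have h10 : q * y.val ≤ q * a := Nat.mul_le_mul_left q h9
      rw [mul_comm q a] at h10
      omega

/-- data of the chain of all clusters: `A = ± a` -/
structure G1 (p q a b : ℕ) (z : ZMod p → ZMod (p * q)) (i0 A A' : ZMod p) : Prop where
  hA : A * A' = 1
  hz : ∀ j, ∃ n : ℕ, n < q ∧ z j = z i0 + e p q (A' * (j - i0)) + (n : ZMod (p * q))

theorem G1.scz {z : ZMod p → ZMod (p * q)} {i0 A A' : ZMod p} (h : G1 p q a b z i0 A A')
    (m : ZMod p) : ∃ n : ℕ, n < q ∧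
      z (i0 + A * m) = z i0 + e p q m + (n : ZMod (p * q)) ∧
      sc q z (i0 + A * m) = sc q z i0 + e p q ((1 + A) * m) + (n : ZMod (p * q)) := by
  obtain ⟨n, hn, hz⟩ := h.hz (i0 + A * m)
  have h1 : A' * (i0 + A * m - i0) = m := by
    have := h.hA
    linear_combination m * this
  rw [h1] at hz
  refine ⟨n, hn, hz, ?_⟩
  unfold Helper11.N1.sc
  rw [hz, add_mul, one_mul, e_add, e_add]
  ring

/-- the sum over the rows, reindexed -/
theorem G1.reindex {z : ZMod p → ZMod (p * q)} {i0 A A' : ZMod p} (h : G1 p q a b z i0 A A')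
    (f : ZMod p → ℤ) : ∑ j : ZMod p, f j = ∑ m : ZMod p, f (i0 + A * m) := by
  symm
  refine Fintype.sum_bijective (fun m : ZMod p => i0 + A * m) ?_ _ _ (fun m => rfl)
  constructor
  · intro m m' h1
    have h2 : A * m = A * m' := add_left_cancel h1
    have h3 : A' * (A * m) = A' * (A * m') := by rw [h2]
    have := h.hA
    linear_combination h3 - (m - m') * this
  · intro j
    refine ⟨A' * (j - i0), ?_⟩
    have := h.hA
    simp only
    linear_combination (j - i0) * this

/-- one coarse step -/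
theorem G1.rstep (hP : Par p q a b) {z : ZMod p → ZMod (p * q)} {i0 A A' : ZMod p}
    (h : G1 p q a b z i0 A A') (m W s : ZMod p) :
    FF q a b z (z i0 + e p q (m + 1)) (i0 + W) (sc q z i0 + e p q s) -
      FF q a b z (z i0 + e p q m) (i0 + W) (sc q z i0 + e p q s) =
    hI a ((1 + A) * (b : ZMod p)) (W - A * m) - hI a ((1 + A) * (b : ZMod p)) (s - (1 + A) * m) := by
  have hap : a < p := by
    have := hP.hab
    omega
  have hb := hP.hb
  set S := sc q z i0 + e p q s with hS
  -- the sum over the fine positions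
  have h1 : FF q a b z (z i0 + e p q (m + 1)) (i0 + W) S -
      FF q a b z (z i0 + e p q m) (i0 + W) S = ∑ i ∈ Finset.range q,
        (FF q a b z (z i0 + e p q m + ((i + 1 : ℕ) : ZMod (p * q))) (i0 + W) S -
          FF q a b z (z i0 + e p q m + (i : ZMod (p * q))) (i0 + W) S) := by
    rw [Finset.sum_range_sub (fun i => FF q a b z (z i0 + e p q m + (i : ZMod (p * q)))
      (i0 + W) S)]
    rw [Nat.cast_zero, add_zero, e_add, e_one, add_assoc]
  rw [h1]
  have h2 : ∀ i ∈ Finset.range q,
      FF q a b z (z i0 + e p q m + ((i + 1 : ℕ) : ZMod (p * q))) (i0 + W) S -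
          FF q a b z (z i0 + e p q m + (i : ZMod (p * q))) (i0 + W) S =
      ∑ k : ZMod p, (ind (z (i0 + A * k) = z i0 + e p q m + (i : ZMod (p * q))) *
          (ind (aR a (i0 + W) (i0 + A * k)) - ind (off (sc q z (i0 + A * k) + 1) S < a * q)) +
        ind (z (i0 + A * k) - b * q = z i0 + e p q m + (i : ZMod (p * q))) *
          (ind (off (sc q z (i0 + A * k) + 1) S < a * q) -
            ind (aL a b (i0 + W) (i0 + A * k)))) := by
    intro i _
    rw [Nat.cast_succ, ← add_assoc, xstep hP z, h.reindex]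
  rw [Finset.sum_congr rfl h2, Finset.sum_comm]
  have h3 : ∀ k : ZMod p, ∑ i ∈ Finset.range q,
      (ind (z (i0 + A * k) = z i0 + e p q m + (i : ZMod (p * q))) *
          (ind (aR a (i0 + W) (i0 + A * k)) - ind (off (sc q z (i0 + A * k) + 1) S < a * q)) +
        ind (z (i0 + A * k) - b * q = z i0 + e p q m + (i : ZMod (p * q))) *
          (ind (off (sc q z (i0 + A * k) + 1) S < a * q) -
            ind (aL a b (i0 + W) (i0 + A * k)))) =
      (if k = m then gI a (W - A * m) - gI a (s - (1 + A) * m) else 0) +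
      (if k = m + (b : ZMod p) then gI a (s - (1 + A) * m - (1 + A) * (b : ZMod p)) -
        gI a (W - A * m - (1 + A) * (b : ZMod p)) else 0) := by
    intro k
    obtain ⟨n, hn, hz, hsc⟩ := h.scz k
    have e1 : ind (off (sc q z (i0 + A * k) + 1) S < a * q) = gI a (s - (1 + A) * k) := by
      rw [hsc, hS]
      exact off_arc hap _ _ _ hn
    have e2 : ind (aR a (i0 + W) (i0 + A * k)) = gI a (W - A * k) := by
      unfold gI aR
      apply ind_congr
      have : i0 + W - 1 - (i0 + A * k) = W - A * k - 1 := by ring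
      rw [this]
    have e3 : ind (aL a b (i0 + W) (i0 + A * k)) = gI a (W - A * k - (b : ZMod p)) := by
      unfold gI aL
      apply ind_congr
      have : i0 + W - b - 1 - (i0 + A * k) = W - A * k - b - 1 := by ring
      rw [this]
    have e4 : z (i0 + A * k) - b * q = z i0 + e p q (k - (b : ZMod p)) + (n : ZMod (p * q)) := by
      have h5 : e p q ((b : ℕ) : ZMod p) = (b : ZMod (p * q)) * q := by
        rw [e_natCast]
        push_cast
        rfl
      rw [hz, e_sub, h5]
      ring
    rw [e1, e2, e3, e4, hz, Finset.sum_add_distrib, ← Finset.sum_mul, ← Finset.sum_mul,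
      sum_pos _ _ _ hn, sum_pos _ _ _ hn]
    congr 1
    · by_cases hk : k = m
      · rw [if_pos hk, ind_pos hk, one_mul, hk]
      · rw [if_neg hk, ind_neg hk, zero_mul]
    · by_cases hk : k = m + (b : ZMod p)
      · have hk' : k - (b : ZMod p) = m := by rw [hk]; ring
        rw [if_pos hk, ind_pos hk', one_mul, hk]
        congr 1
        · congr 1
          ring
        · congr 1
          ring
      · have hk' : ¬ k - (b : ZMod p) = m := fun h => hk (by rw [← h]; ring)
        rw [if_neg hk, ind_neg hk', zero_mul]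
  rw [Finset.sum_congr rfl (fun k _ => h3 k), Finset.sum_add_distrib, Finset.sum_ite_eq',
    Finset.sum_ite_eq', if_pos (Finset.mem_univ _), if_pos (Finset.mem_univ _)]
  unfold hI
  ring

/-- the band -/
theorem G1.bnd (hP : Par p q a b) {z : ZMod p → ZMod (p * q)} {i0 : ZMod p} (m W : ZMod p) :
    FF q a b z (z i0 + e p q m) (i0 + W) (sc q z i0 + e p q (m + W)) = 0 := by
  have h1 : sc q z i0 + e p q (m + W) = z i0 + e p q m + e p q (i0 + W) := by
    unfold Helper11.N1.sc
    rw [e_add, e_add]
    ring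
  rw [h1, dec p q a b hP]
  ring

/-- the bound for the sums -/
theorem G1.f0 (hP : Par p q a b) {z : ZMod p → ZMod (p * q)} {i0 A A' : ZMod p}
    (h : G1 p q a b z i0 A A') {m0 : ZMod p}
    (hF : ∀ W S, |FF q a b z (z i0 + e p q m0) W S| ≤ 1) (W s : ZMod p) :
    |∑ i ∈ Finset.range (s - W).val, (hI a ((1 + A) * (b : ZMod p)) (W - A * (i : ZMod p)) -
      hI a ((1 + A) * (b : ZMod p)) (s - (1 + A) * (i : ZMod p)))| ≤ 1 := by
  set W1 := W + A * m0 with hW1
  set s1 := s + (1 + A) * m0 with hs1
  have h1 : ∀ d : ℕ, FF q a b z (z i0 + e p q (m0 + d)) (i0 + W1) (sc q z i0 + e p q s1) -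
      FF q a b z (z i0 + e p q m0) (i0 + W1) (sc q z i0 + e p q s1) =
      ∑ i ∈ Finset.range d, (hI a ((1 + A) * (b : ZMod p)) (W - A * (i : ZMod p)) -
        hI a ((1 + A) * (b : ZMod p)) (s - (1 + A) * (i : ZMod p))) := by
    intro d
    induction d with
    | zero => rw [Nat.cast_zero, add_zero, sub_self, Finset.sum_range_zero]
    | succ d ih =>
      rw [Finset.sum_range_succ, ← ih]
      have h2 := h.rstep hP (m0 + d) W1 s1
      have e1 : W1 - A * (m0 + d) = W - A * d := by rw [hW1]; ring
      have e2 : s1 - (1 + A) * (m0 + d) = s - (1 + A) * d := by rw [hs1]; ring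
      rw [e1, e2] at h2
      have e3 : m0 + ((d + 1 : ℕ) : ZMod p) = m0 + d + 1 := by
        push_cast
        ring
      rw [e3]
      linarith
  have h2 := h1 (s - W).val
  have e1 : s1 = m0 + (((s - W).val : ℕ) : ZMod p) + W1 := by
    rw [ZMod.natCast_zmod_val, hs1, hW1]
    ring
  have h3 : FF q a b z (z i0 + e p q (m0 + ((s - W).val : ℕ))) (i0 + W1)
      (sc q z i0 + e p q s1) = 0 := by
    rw [e1]
    exact G1.bnd hP _ _
  rw [h3] at h2
  rw [← h2, zero_sub, abs_neg]
  exact hF _ _

end

end Helper25.FLT
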