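import Pool.Agent.Helper25.FLT.G1a

set_option autoImplicit false
set_option linter.unusedSectionVars false

/-!
# Merges with `g = 1`: closed formula
-/

namespace Helper25.FLT

open Helper11.N1 Helper55.KE
open Helper11.N1.DECaux (ind ite_ind ind_and ind_congr ind_pos ind_neg)

section

variable {p : ℕ} [NeZero p]

theorem val_pred {y : ZMod p} (hy : y ≠ 0) : (y - 1).val = y.val - 1 := by
  have hy1 : 0 < y.val := by
    rcases Nat.eq_zero_or_pos y.val with h | h
    · exact absurd ((ZMod.val_eq_zero y).1 h) hy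
    · exact h
  have hyp := ZMod.val_lt y
  have h5 : y - 1 = ((y.val - 1 : ℕ) : ZMod p) := by
    rw [Nat.cast_sub hy1, ZMod.natCast_zmod_val, Nat.cast_one]
  rw [h5, ZMod.val_natCast_of_lt (by omega)]

theorem arc_iff {d : ℕ} (hd : d < p) (y : ZMod p) : (y - 1).val < d ↔ 1 ≤ y.val ∧ y.val ≤ d := by
  by_cases hy : y = 0
  · subst hy
    have h4 : (0 - 1 : ZMod p).val = p - 1 := by
      obtain ⟨k, rfl⟩ : ∃ k, p = k + 1 := ⟨p - 1, by omega⟩
      rw [zero_sub, ZMod.val_neg_one]
      omega
    rw [h4, ZMod.val_zero]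
    omega
  · have hy1 : 0 < y.val := by
      rcases Nat.eq_zero_or_pos y.val with h | h
      · exact absurd ((ZMod.val_eq_zero y).1 h) hy
      · exact h
    rw [val_pred hy]
    omega

theorem eq_nat_iff {d : ℕ} (hd : d < p) (y : ZMod p) : y = (d : ZMod p) ↔ y.val = d := by
  constructor
  · intro h
    rw [h, ZMod.val_natCast_of_lt hd]
  · intro h
    rw [← h, ZMod.natCast_zmod_val]

theorem arc_diff {d : ℕ} (hd : d < p) (y : ZMod p) :
    ind ((y - 1).val < d) - ind ((y + 1 - 1).val < d) = ind (y = (d : ZMod p)) - ind (y = 0) := by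
  have h1 := arc_iff hd y
  have h2 := eq_nat_iff hd y
  have h3 : y = 0 ↔ y.val = 0 := (ZMod.val_eq_zero y).symm
  have h4 : y + 1 - 1 = y := by ring
  rw [h4]
  by_cases c1 : y.val < d <;> by_cases c2 : y.val = 0 <;> by_cases c3 : y.val = d
  all_goals first
    | omega
    | skip
  · rw [ind_pos c1, ind_pos (h3.2 c2), ind_neg (fun h => c3 (h2.1 h)),
      ind_neg (fun h => by have := h1.1 h; omega)]
  · rw [ind_pos c1, ind_neg (fun h => c2 (h3.1 h)), ind_neg (fun h => c3 (h2.1 h)),
      ind_pos (h1.2 (by omega))]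
    ring
  · rw [ind_neg c1, ind_pos (h3.2 c2), ind_pos (h2.2 c3),
      ind_neg (fun h => by have := h1.1 h; omega)]
    norm_num
  · rw [ind_neg c1, ind_neg (fun h => c2 (h3.1 h)), ind_pos (h2.2 c3),
      ind_pos (h1.2 (by omega))]
  · rw [ind_neg c1, ind_neg (fun h => c2 (h3.1 h)), ind_neg (fun h => c3 (h2.1 h)),
      ind_neg (fun h => by have := h1.1 h; omega)]

theorem gI_diff {a : ℕ} (ha : a < p) (y : ZMod p) :
    gI a y - gI a (y + 1) = ind (y = (a : ZMod p)) - ind (y = 0) := arc_diff ha y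

/-- a function with the jumps of an arc from `0` to `κ` -/
def IsU (κ : ZMod p) (U : ZMod p → ℤ) : Prop :=
  ∀ y, U y - U (y + 1) = ind (y = κ) - ind (y = 0)

theorem isU_pos {k : ℕ} (hk : k < p) : IsU (k : ZMod p) (fun y => gI k y) := gI_diff hk

theorem isU_neg {k : ℕ} (hk : k < p) : IsU (-(k : ZMod p)) (fun y => - ind ((-y).val < k)) := by
  intro y
  have h1 := arc_diff hk (-y)
  have h2 : (-y + 1 - 1) = -y := by ring
  have h3 : (-y - 1) = -(y + 1) := by ring
  rw [h2, h3] at h1
  have h4 : ind (-y = (k : ZMod p)) = ind (y = -(k : ZMod p)) := ind_congr (by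
    constructor
    · intro h
      rw [← h, neg_neg]
    · intro h
      rw [h, neg_neg])
  have h5 : ind (-y = 0) = ind (y = 0) := ind_congr neg_eq_zero
  rw [h4, h5] at h1
  simp only
  linarith

/-- the level function is a difference of `U` -/
theorem hI_eq {a : ℕ} (ha : a < p) {κ : ZMod p} {U : ZMod p → ℤ} (hU : IsU κ U) (y : ZMod p) :
    hI a κ y = U y - U (y - a) := by
  have hstep : ∀ y : ZMod p, hI a κ (y + 1) - (U (y + 1) - U (y + 1 - a)) =
      hI a κ y - (U y - U (y - a)) := by
    intro y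
    have h1 := gI_diff ha y
    have h2 := gI_diff ha (y - κ)
    have h3 := hU y
    have h4 := hU (y - a)
    have e1 : y - κ + 1 = y + 1 - κ := by ring
    have e2 : y - (a : ZMod p) + 1 = y + 1 - a := by ring
    rw [e1] at h2
    rw [e2] at h4
    have i1 : ind (y - κ = (a : ZMod p)) = ind (y - (a : ZMod p) = κ) := ind_congr (by
      constructor
      · intro h; rw [← h]; ring
      · intro h; rw [← h]; ring)
    have i2 : ind (y - κ = 0) = ind (y = κ) := ind_congr sub_eq_zero
    have i3 : ind (y - (a : ZMod p) = 0) = ind (y = (a : ZMod p)) := ind_congr sub_eq_zero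
    rw [i1, i2] at h2
    rw [i3] at h4
    unfold hI
    linarith
  have hconst := fun x => const_of_step (fun y => hI a κ y - (U y - U (y - a))) hstep x y
  have hsum : ∑ x : ZMod p, (hI a κ x - (U x - U (x - a))) = 0 := by
    have s1 : ∑ x : ZMod p, gI a (x - κ) = ∑ x : ZMod p, gI a x :=
      Fintype.sum_equiv (Equiv.subRight κ) _ _ (fun x => rfl)
    have s2 : ∑ x : ZMod p, U (x - a) = ∑ x : ZMod p, U x :=
      Fintype.sum_equiv (Equiv.subRight (a : ZMod p)) _ _ (fun x => rfl)
    unfold hI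
    rw [Finset.sum_sub_distrib, Finset.sum_sub_distrib, Finset.sum_sub_distrib, s1, s2]
    ring
  have h1 : ∑ x : ZMod p, (hI a κ x - (U x - U (x - a))) =
      ∑ x : ZMod p, (hI a κ y - (U y - U (y - a))) :=
    Finset.sum_congr rfl (fun x _ => hconst x)
  rw [hsum, Finset.sum_const, Finset.card_univ, ZMod.card, nsmul_eq_mul] at h1
  have hp : (p : ℤ) ≠ 0 := by exact_mod_cast NeZero.ne p
  rcases mul_eq_zero.1 h1.symm with h2 | h2
  · exact absurd h2 hp
  · linarith

/-- `A_s(d)` -/
noncomputable def AA (b : ℕ) (w s : ZMod p) (d : ℕ) : ℤ :=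
  ∑ i ∈ Finset.range d, (ind (s = w * ((i : ZMod p) + 1 + b)) - ind (s = w * ((i : ZMod p) + 1)))

theorem aa_succ (b : ℕ) (w s : ZMod p) (d : ℕ) : AA b w s (d + 1) = AA b w s d +
    (ind (s = w * ((d : ZMod p) + 1 + b)) - ind (s = w * ((d : ZMod p) + 1))) := by
  unfold AA
  rw [Finset.sum_range_succ]

theorem aa_step {b : ℕ} {w : ZMod p} {U : ZMod p → ℤ} (hU : IsU (w * (b : ZMod p)) U) (s : ZMod p) (d : ℕ) :
    U (s - w * (d + 1)) - U (s - w * (d + 1) + 1) =
      ind (s = w * ((d : ZMod p) + 1 + b)) - ind (s = w * ((d : ZMod p) + 1)) := by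
  rw [hU (s - w * (d + 1))]
  congr 1
  · apply ind_congr
    constructor
    · intro h
      linear_combination h
    · intro h
      linear_combination h
  · apply ind_congr
    exact sub_eq_zero

/-- closed formula, `A = a` -/
theorem g_pos {a b : ℕ} (ha : a < p) {U : ZMod p → ℤ} (hU : IsU ((1 + (a : ZMod p)) * (b : ZMod p)) U)
    (hf : ∀ W s : ZMod p, |∑ i ∈ Finset.range (s - W).val,
      (hI a ((1 + (a : ZMod p)) * (b : ZMod p)) (W - (a : ZMod p) * (i : ZMod p)) -
      hI a ((1 + (a : ZMod p)) * (b : ZMod p)) (s - (1 + (a : ZMod p)) * (i : ZMod p)))| ≤ 1)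
    (s W : ZMod p) : |U s - U W + AA b (1 + (a : ZMod p)) s (s - W).val| ≤ 1 := by
  set w : ZMod p := 1 + (a : ZMod p) with hw
  have h1 : ∀ d : ℕ, ∑ i ∈ Finset.range d, hI a (w * (b : ZMod p)) (W - (a : ZMod p) * (i : ZMod p)) =
      U W - U (W - a * d) := by
    intro d
    induction d with
    | zero =>
      rw [Finset.sum_range_zero, Nat.cast_zero, mul_zero, sub_zero, sub_self]
    | succ d ih =>
      rw [Finset.sum_range_succ, ih, hI_eq ha hU]
      have : W - (a : ZMod p) * d - a = W - a * ((d + 1 : ℕ) : ZMod p) := by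
        push_cast
        ring
      rw [this]
      ring
  have h2 : ∀ d : ℕ, ∑ i ∈ Finset.range d, hI a (w * (b : ZMod p)) (s - w * (i : ZMod p)) =
      U s - U (s - w * d) + AA b w s d := by
    intro d
    induction d with
    | zero =>
      rw [Finset.sum_range_zero, Nat.cast_zero, mul_zero, sub_zero, sub_self]
      unfold AA
      rw [Finset.sum_range_zero, add_zero]
    | succ d ih =>
      have h3 := aa_step hU s d
      rw [Finset.sum_range_succ, ih, hI_eq ha hU, aa_succ, ← h3]
      have e1 : s - w * (d : ZMod p) - a = s - w * (d + 1) + 1 := by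
        rw [hw]
        ring
      rw [e1, Nat.cast_succ]
      ring
  have h3 := hf W s
  rw [Finset.sum_sub_distrib, h1, h2] at h3
  have e1 : W - (a : ZMod p) * (((s - W).val : ℕ) : ZMod p) =
      s - w * (((s - W).val : ℕ) : ZMod p) := by
    rw [ZMod.natCast_zmod_val, hw]
    ring
  rw [e1] at h3
  rw [abs_le] at h3 ⊢
  constructor <;> linarith [h3.1, h3.2]

/-- closed formula, `A = -a` -/
theorem g_neg {a b : ℕ} (ha : a < p) {U : ZMod p → ℤ} (hU : IsU ((1 + -(a : ZMod p)) * (b : ZMod p)) U)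
    (hf : ∀ W s : ZMod p, |∑ i ∈ Finset.range (s - W).val,
      (hI a ((1 + -(a : ZMod p)) * (b : ZMod p)) (W - -(a : ZMod p) * (i : ZMod p)) -
      hI a ((1 + -(a : ZMod p)) * (b : ZMod p)) (s - (1 + -(a : ZMod p)) * (i : ZMod p)))| ≤ 1)
    (s W : ZMod p) : |U s - U W + AA b (1 + -(a : ZMod p)) s (s - W).val| ≤ 1 := by
  set w : ZMod p := 1 + -(a : ZMod p) with hw
  have h1 : ∀ d : ℕ, ∑ i ∈ Finset.range d,
      hI a (w * (b : ZMod p)) (W + a - -(a : ZMod p) * (i : ZMod p)) =
      U (W + a * d) - U W := by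
    intro d
    induction d with
    | zero =>
      rw [Finset.sum_range_zero, Nat.cast_zero, mul_zero, add_zero, sub_self]
    | succ d ih =>
      rw [Finset.sum_range_succ, ih, hI_eq ha hU]
      have e1 : W + a - -(a : ZMod p) * d - a = W + a * d := by ring
      have e2 : W + a - -(a : ZMod p) * d = W + a * ((d + 1 : ℕ) : ZMod p) := by
        push_cast
        ring
      rw [e1, e2]
      ring
  have h2 : ∀ d : ℕ, ∑ i ∈ Finset.range d, hI a (w * (b : ZMod p)) (s + a - w * (i : ZMod p)) =
      -(U s - U (s - w * d) + AA b w s d) := by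
    intro d
    induction d with
    | zero =>
      rw [Finset.sum_range_zero, Nat.cast_zero, mul_zero, sub_zero, sub_self]
      unfold AA
      rw [Finset.sum_range_zero, add_zero, neg_zero]
    | succ d ih =>
      have h3 := aa_step hU s d
      rw [Finset.sum_range_succ, ih, hI_eq ha hU, aa_succ, ← h3]
      have e1 : s + a - w * (d : ZMod p) - a = s - w * d := by ring
      have e2 : s + a - w * (d : ZMod p) = s - w * (d + 1) + 1 := by
        rw [hw]
        ring
      rw [e1, e2, Nat.cast_succ]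
      ring
  have h3 := hf (W + a) (s + a)
  have e0 : s + a - (W + (a : ZMod p)) = s - W := by ring
  rw [e0, Finset.sum_sub_distrib, h1, h2] at h3
  have e1 : W + (a : ZMod p) * (((s - W).val : ℕ) : ZMod p) =
      s - w * (((s - W).val : ℕ) : ZMod p) := by
    rw [ZMod.natCast_zmod_val, hw]
    ring
  rw [e1] at h3
  rw [abs_le] at h3 ⊢
  constructor <;> linarith [h3.1, h3.2]

end

end Helper25.FLT
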