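import Pool.Agent.Helper25.FLT.G1b

set_option autoImplicit false
set_option linter.unusedSectionVars false

/-!
# Merges with `g = 1`: counting
-/

namespace Helper25.FLT

open Helper11.N1 Helper55.KE
open Helper11.N1.DECaux (ind ite_ind ind_and ind_congr ind_pos ind_neg)

section

variable {p : ℕ} [NeZero p]

theorem ord_iff (w : ZMod p) (m : ℤ) : w * (m : ZMod p) = 0 ↔ ((addOrderOf w : ℕ) : ℤ) ∣ m := by
  rw [addOrderOf_dvd_iff_zsmul_eq_zero, zsmul_eq_mul, mul_comm]

theorem ord_pos (w : ZMod p) : 0 < addOrderOf w := addOrderOf_pos w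

/-- equality of multiples -/
theorem mul_eq_iff (w : ZMod p) (m n : ℤ) :
    w * (m : ZMod p) = w * (n : ZMod p) ↔ ((addOrderOf w : ℕ) : ℤ) ∣ m - n := by
  rw [← ord_iff, Int.cast_sub, mul_sub, sub_eq_zero]

/-- equal multiples with close indices -/
theorem idx_eq {w : ZMod p} {m n : ℤ} (h : w * (m : ZMod p) = w * (n : ZMod p))
    (h1 : m - n < addOrderOf w) (h2 : n - m < addOrderOf w) : m = n := by
  rw [mul_eq_iff] at h
  have := Int.eq_zero_of_abs_lt_dvd h (by rw [abs_lt]; constructor <;> omega)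
  omega

/-- a representative in `[lo, lo + P)` -/
theorem exists_idx (w x : ZMod p) (lo : ℤ) : ∃ u : ℤ, lo ≤ u ∧ u < lo + addOrderOf w ∧
    w * x = w * (u : ZMod p) := by
  have hP : (0 : ℤ) < addOrderOf w := by exact_mod_cast ord_pos w
  refine ⟨lo + ((x.val : ℤ) - lo) % (addOrderOf w), ?_, ?_, ?_⟩
  · have := Int.emod_nonneg ((x.val : ℤ) - lo) hP.ne'
    omega
  · have := Int.emod_lt_of_pos ((x.val : ℤ) - lo) hP
    omega
  · have h1 : x = (((x.val : ℕ) : ℤ) : ZMod p) := by
      rw [Int.cast_natCast, ZMod.natCast_zmod_val]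
    conv_lhs => rw [h1]
    rw [mul_eq_iff]
    refine ⟨((x.val : ℤ) - lo) / (addOrderOf w), ?_⟩
    have := Int.emod_add_mul_ediv ((x.val : ℤ) - lo) (addOrderOf w)
    linarith

/-- `A_s(d)` as a difference of two counts -/
theorem aa_eq (b : ℕ) (w s : ZMod p) (d : ℕ) :
    AA b w s d = ∑ i ∈ Finset.range (b % addOrderOf w), ind (s = w * ((i : ZMod p) + 1 + d)) -
      ∑ i ∈ Finset.range (b % addOrderOf w), ind (s = w * ((i : ZMod p) + 1)) := by
  set b0 := b % addOrderOf w with hb0
  have hb : w * (b : ZMod p) = w * (b0 : ZMod p) := by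
    have := (mul_eq_iff w (b : ℤ) (b0 : ℤ)).2 ?_
    · simpa using this
    · refine ⟨(b / addOrderOf w : ℕ), ?_⟩
      have h1 := Nat.mod_add_div b (addOrderOf w)
      have h2 : (b : ℤ) = b0 + addOrderOf w * (b / addOrderOf w : ℕ) := by
        rw [hb0]
        exact_mod_cast h1.symm
      linarith
  let f : ℕ → ℤ := fun i => ind (s = w * ((i : ZMod p) + 1))
  have h1 : AA b w s d = ∑ i ∈ Finset.range d, (f (b0 + i) - f i) := by
    unfold AA
    refine Finset.sum_congr rfl fun i _ => ?_
    congr 1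
    apply ind_congr
    have : w * ((i : ZMod p) + 1 + b) = w * (((b0 + i : ℕ) : ZMod p) + 1) := by
      push_cast
      rw [mul_add, hb]
      ring
    rw [this]
  have h2 : ∑ i ∈ Finset.range b0, ind (s = w * ((i : ZMod p) + 1 + d)) =
      ∑ i ∈ Finset.range b0, f (d + i) := by
    refine Finset.sum_congr rfl fun i _ => ?_
    apply ind_congr
    have : w * ((i : ZMod p) + 1 + d) = w * (((d + i : ℕ) : ZMod p) + 1) := by
      push_cast
      ring
    rw [this]
  have h3 := Finset.sum_range_add f b0 d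
  have h4 := Finset.sum_range_add f d b0
  rw [add_comm d b0, h3] at h4
  rw [h1, h2, Finset.sum_sub_distrib]
  have h5 : ∑ i ∈ Finset.range b0, ind (s = w * ((i : ZMod p) + 1)) =
    ∑ i ∈ Finset.range b0, f i := rfl
  rw [h5]
  linarith

theorem ind_nonneg' (P : Prop) : 0 ≤ ind P := by
  by_cases h : P
  · rw [ind_pos h]; norm_num
  · rw [ind_neg h]

theorem sum_ind_pos {b0 : ℕ} {f : ℕ → Prop} (h : 1 ≤ ∑ i ∈ Finset.range b0, ind (f i)) :
    ∃ i < b0, f i := by
  by_contra hcon
  push Not at hcon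
  rw [Finset.sum_eq_zero (fun i hi => ind_neg (hcon i (Finset.mem_range.1 hi)))] at h
  omega

theorem sum_ind_ge {b0 : ℕ} {f : ℕ → Prop} {i : ℕ} (hi : i < b0) (h : f i) :
    1 ≤ ∑ i ∈ Finset.range b0, ind (f i) := by
  have := Finset.single_le_sum (f := fun i => ind (f i)) (s := Finset.range b0)
    (fun i _ => ind_nonneg' (f i)) (Finset.mem_range.2 hi)
  rw [ind_pos h] at this
  exact this

theorem contra_pos {a b k : ℕ} (ha2 : 2 ≤ a) (hap : 2 * a < p) (hbp : 2 * b < p)
    (hk1 : 1 ≤ k) (hka : k ≤ a) (hau : IsUnit (a : ZMod p)) {A : ZMod p}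
    (hA : A = (a : ZMod p) ∨ A = -(a : ZMod p)) (hκ : (1 + A) * (b : ZMod p) = (k : ZMod p))
    (hG : ∀ s W : ZMod p, |gI k s - gI k W + AA b (1 + A) s (s - W).val| ≤ 1) : False := by
  set w : ZMod p := 1 + A with hw
  set P := addOrderOf w with hP
  set b0 := b % P with hb0
  have hPpos : 0 < P := ord_pos w
  have hb0P : b0 < P := Nat.mod_lt _ hPpos
  have hkp : k < p := by omega
  have hAu : IsUnit A := by
    rcases hA with h | h
    · rw [h]; exact hau
    · rw [h]; exact hau.neg
  -- the value of `w`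
  have hwval : k < w.val := by
    rcases hA with h | h
    · have : w = ((a + 1 : ℕ) : ZMod p) := by
        rw [hw, h]
        push_cast
        ring
      rw [this, ZMod.val_natCast_of_lt (by omega)]
      omega
    · have : w = ((p + 1 - a : ℕ) : ZMod p) := by
        rw [hw, h, Nat.cast_sub (by omega)]
        push_cast
        rw [ZMod.natCast_self]
        ring
      rw [this, ZMod.val_natCast_of_lt (by omega)]
      omega
  -- the first consequence
  have hP1 : ∀ y : ℕ, 1 ≤ y → y ≤ b0 → ¬ (1 ≤ (w * (y : ZMod p)).val ∧ (w * (y : ZMod p)).val ≤ k) →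
      ∀ j : ℕ, 1 ≤ j → j ≤ k → ∃ t : ℤ, 1 ≤ t ∧ t ≤ b0 ∧
        w * (t : ZMod p) = w * ((j : ZMod p) - A * y) := by
    intro y hy1 hy2 hy3 j hj1 hj2
    have h1 := (abs_le.1 (hG (w * (y : ZMod p)) (j : ZMod p))).1
    have h2 : gI k (w * (y : ZMod p)) = 0 := by
      unfold gI
      exact ind_neg (fun h => hy3 ((arc_iff hkp _).1 h))
    have h3 : gI k (j : ZMod p) = 1 := by
      unfold gI
      apply ind_pos
      rw [arc_iff hkp, ZMod.val_natCast_of_lt (by omega)]
      exact ⟨hj1, hj2⟩
    rw [h2, h3, aa_eq] at h1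
    have h4 : 1 ≤ ∑ i ∈ Finset.range b0, ind (w * (y : ZMod p) = w * ((i : ZMod p) + 1)) := by
      refine sum_ind_ge (i := y - 1) (by omega) ?_
      rw [Nat.cast_sub hy1, Nat.cast_one, sub_add_cancel]
    obtain ⟨i, hi, hi2⟩ := sum_ind_pos (b0 := b0) (f := fun i => w * (y : ZMod p) =
      w * ((i : ZMod p) + 1 + ((w * (y : ZMod p) - (j : ZMod p)).val : ℕ))) (by
        have := h1
        linarith)
    rw [ZMod.natCast_zmod_val] at hi2
    refine ⟨(i : ℤ) + 1, by omega, by omega, ?_⟩
    push_cast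
    have e : A = w - 1 := by rw [hw]; ring
    rw [e]
    linear_combination -hi2
  -- the index `u`
  have hP2 : ∀ y : ℕ, 1 ≤ y → y ≤ b0 → ¬ (1 ≤ (w * (y : ZMod p)).val ∧ (w * (y : ZMod p)).val ≤ k) →
      ∃ u : ℕ, 1 ≤ u ∧ u + k ≤ b0 ∧ w * (u : ZMod p) = w * (-A * y) := by
    intro y hy1 hy2 hy3
    obtain ⟨u, hu0, hu1, hu2⟩ := exists_idx w (-A * (y : ZMod p)) 0
    rw [zero_add] at hu1
    have hj : ∀ j : ℕ, 1 ≤ j → j ≤ k → ∃ t : ℤ, 1 ≤ t ∧ t ≤ b0 ∧
        w * ((u + j : ℤ) : ZMod p) = w * (t : ZMod p) := by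
      intro j hj1 hj2
      obtain ⟨t, ht1, ht2, ht3⟩ := hP1 y hy1 hy2 hy3 j hj1 hj2
      refine ⟨t, ht1, ht2, ?_⟩
      push_cast
      rw [ht3]
      linear_combination -hu2
    have hub : u + k ≤ b0 := by
      by_contra hcon
      push Not at hcon
      rcases le_or_gt u b0 with h | h
      · obtain ⟨jn, hjn⟩ := Int.eq_ofNat_of_zero_le (show 0 ≤ (b0 : ℤ) + 1 - u by omega)
        obtain ⟨t, ht1, ht2, ht3⟩ := hj jn (by omega) (by omega)
        have := idx_eq ht3 (by omega) (by omega)
        omega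
      · obtain ⟨t, ht1, ht2, ht3⟩ := hj 1 le_rfl hk1
        have := idx_eq ht3 (by push_cast; omega) (by push_cast; omega)
        push_cast at this
        omega
    have hu1' : 1 ≤ u := by
      by_contra hcon
      have hu : u = 0 := by omega
      rw [hu, Int.cast_zero, mul_zero] at hu2
      have h1 : A * (w * (y : ZMod p)) = 0 := by linear_combination -hu2
      rw [hAu.mul_right_eq_zero] at h1
      have h2 := (ord_iff w (y : ℤ)).1 (by rw [Int.cast_natCast]; exact h1)
      have := Int.le_of_dvd (by omega) h2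
      omega
    obtain ⟨n, rfl⟩ := Int.eq_ofNat_of_zero_le hu0
    exact ⟨n, by omega, by omega, by rw [Int.cast_natCast] at hu2; exact hu2.symm⟩
  have hb01 : 1 ≤ b0 := by
    rcases Nat.eq_zero_or_pos b0 with h | h
    · exfalso
      have h1 : w * (b : ZMod p) = 0 := by
        have := (ord_iff w (b : ℤ)).2 (by exact_mod_cast Nat.dvd_of_mod_eq_zero h)
        simpa using this
      rw [hκ, ZMod.natCast_eq_zero_iff] at h1
      have := Nat.le_of_dvd (by omega) h1
      omega
    · exact h
  have h1T : ¬ (1 ≤ (w * ((1 : ℕ) : ZMod p)).val ∧ (w * ((1 : ℕ) : ZMod p)).val ≤ k) := by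
    rw [Nat.cast_one, mul_one]
    omega
  obtain ⟨u1, hu1a, hu1b, hu1c⟩ := hP2 1 le_rfl hb01 h1T
  classical
  -- counting
  set Tc := (Finset.Icc 1 b0).filter
    (fun y : ℕ => (1 ≤ (w * (y : ZMod p)).val ∧ (w * (y : ZMod p)).val ≤ k)) with hTc
  set T := (Finset.Icc 1 b0) \ Tc with hT
  have hTmem : ∀ y ∈ T, (1 ≤ y ∧ y ≤ b0) ∧
      ¬ (1 ≤ (w * (y : ZMod p)).val ∧ (w * (y : ZMod p)).val ≤ k) := by
    intro y hy
    rw [hT, Finset.mem_sdiff, Finset.mem_Icc] at hy
    refine ⟨hy.1, fun h => hy.2 ?_⟩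
    rw [hTc, Finset.mem_filter, Finset.mem_Icc]
    exact ⟨hy.1, h⟩
  have hcard : Tc.card + T.card = b0 := by
    have := Finset.card_sdiff_add_card_eq_card (Finset.filter_subset
      (fun y : ℕ => (1 ≤ (w * (y : ZMod p)).val ∧ (w * (y : ZMod p)).val ≤ k)) (Finset.Icc 1 b0))
    rw [Nat.card_Icc, ← hTc, ← hT] at this
    omega
  have hinj : ∀ y y' : ℕ, 1 ≤ y → y ≤ b0 → 1 ≤ y' → y' ≤ b0 →
      w * (y : ZMod p) = w * (y' : ZMod p) → y = y' := by
    intro y y' h1 h2 h3 h4 h5
    have := idx_eq (w := w) (m := y) (n := y') (by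
      rw [Int.cast_natCast, Int.cast_natCast]; exact h5) (by omega) (by omega)
    exact_mod_cast this
  have hTcard : T.card ≤ b0 - k := by
    have hex : ∀ y ∈ T, ∃ u : ℕ, u ∈ Finset.Icc 1 (b0 - k) ∧ w * (u : ZMod p) = w * (-A * y) := by
      intro y hy
      have hy := hTmem y hy
      obtain ⟨u, h1, h2, h3⟩ := hP2 y hy.1.1 hy.1.2 hy.2
      exact ⟨u, Finset.mem_Icc.2 ⟨h1, by omega⟩, h3⟩
    choose! F hF1 hF2 using hex
    have h1 : T.card ≤ (Finset.Icc 1 (b0 - k)).card := by
      refine Finset.card_le_card_of_injOn F (fun y hy => hF1 y hy) ?_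
      intro y hy y' hy' hyy
      have e1 := hF2 y hy
      have e2 := hF2 y' hy'
      rw [hyy, e2] at e1
      have hy2 := hTmem y (Finset.mem_coe.1 hy)
      have hy2' := hTmem y' (Finset.mem_coe.1 hy')
      have e3 : A * (w * (y : ZMod p)) = A * (w * (y' : ZMod p)) := by linear_combination e1
      exact hinj y y' hy2.1.1 hy2.1.2 hy2'.1.1 hy2'.1.2 (hAu.mul_left_cancel e3)
    rw [Nat.card_Icc] at h1
    omega
  -- `1` is a multiple of `w`
  have h1mem : ∃ y ∈ Tc, (w * ((y : ℕ) : ZMod p)).val = 1 := by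
    have himg : Tc.image (fun y : ℕ => (w * (y : ZMod p)).val) = Finset.Icc 1 k := by
      apply Finset.eq_of_subset_of_card_le
      · intro v hv
        rw [Finset.mem_image] at hv
        obtain ⟨y, hy, rfl⟩ := hv
        rw [hTc, Finset.mem_filter] at hy
        exact Finset.mem_Icc.2 hy.2
      · rw [Finset.card_image_of_injOn]
        · rw [Nat.card_Icc]
          omega
        · intro y hy y' hy' hyy
          have hy2 := Finset.mem_filter.1 (Finset.mem_coe.1 hy)
          have hy2' := Finset.mem_filter.1 (Finset.mem_coe.1 hy')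
          rw [Finset.mem_Icc] at hy2 hy2'
          exact hinj y y' hy2.1.1 hy2.1.2 hy2'.1.1 hy2'.1.2 (ZMod.val_injective p hyy)
    have h1 : (1 : ℕ) ∈ Tc.image (fun y : ℕ => (w * (y : ZMod p)).val) := by
      rw [himg]
      exact Finset.mem_Icc.2 ⟨le_rfl, hk1⟩
    rw [Finset.mem_image] at h1
    obtain ⟨y, hy, hy2⟩ := h1
    exact ⟨y, hy, hy2⟩
  obtain ⟨y0, _, hy0⟩ := h1mem
  have hwu : w * ((y0 : ℕ) : ZMod p) = 1 := by
    apply ZMod.val_injective p
    have : Fact (1 < p) := ⟨by omega⟩
    rw [hy0, ZMod.val_one]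
  have hwU : IsUnit w := IsUnit.of_mul_eq_one _ hwu
  have hPp : P = p := by
    have h1 : P ∣ p := by
      have := (ord_iff w (p : ℤ)).1 (by rw [Int.cast_natCast, ZMod.natCast_self, mul_zero])
      exact_mod_cast this
    have h2 : w * ((P : ℤ) : ZMod p) = 0 := (ord_iff w P).2 (dvd_refl _)
    rw [hwU.mul_right_eq_zero, ZMod.intCast_zmod_eq_zero_iff_dvd] at h2
    have h3 : p ∣ P := by exact_mod_cast h2
    exact Nat.dvd_antisymm h1 h3
  have hb0b : b0 = b := by
    rw [hb0, hPp]
    exact Nat.mod_eq_of_lt (by omega)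
  -- cancel `w`
  have hcan : ∀ (u y : ℕ), w * (u : ZMod p) = w * (-A * y) → (u : ZMod p) = -A * y :=
    fun u y h => hwU.mul_left_cancel h
  have h2 := hcan u1 1 hu1c
  rcases hA with hA' | hA'
  · rw [hA', Nat.cast_one, mul_one] at h2
    have h3 : ((u1 + a : ℕ) : ZMod p) = 0 := by
      push_cast
      rw [h2]
      ring
    rw [ZMod.natCast_eq_zero_iff] at h3
    have := Nat.le_of_dvd (by omega) h3
    omega
  · rw [hA', Nat.cast_one, mul_one, neg_neg] at h2
    have h3 : u1 = a := by
      have := (ZMod.natCast_eq_natCast_iff u1 a p).1 h2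
      exact Nat.ModEq.eq_of_lt_of_lt this (by omega) (by omega)
    obtain ⟨y1, e4, e5, e7, e8⟩ : ∃ y1 : ℕ, b - k < a * y1 ∧ a * y1 ≤ b - k + a ∧ y1 ≤ b0 ∧
        1 ≤ y1 := by
      have e1 := Nat.div_add_mod (b - k) a
      have e2 := Nat.mod_lt (b - k) (show 0 < a by omega)
      have e6 : (b - k) / a ≤ b - k := Nat.div_le_self _ _
      generalize (b - k) / a = m at e1 e6
      generalize (b - k) % a = m' at e1 e2
      have e3 : a * (m + 1) = a * m + a := by
        rw [mul_add, mul_one]
      refine ⟨m + 1, ?_, ?_, ?_, ?_⟩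
      · rw [e3]
        omega
      · rw [e3]
        omega
      · omega
      · omega
    by_cases hT1 : (1 ≤ (w * ((y1 : ℕ) : ZMod p)).val ∧ (w * ((y1 : ℕ) : ZMod p)).val ≤ k)
    · obtain ⟨j1, j2⟩ := hT1
      set j := (w * ((y1 : ℕ) : ZMod p)).val with hj
      have h5 : ((j : ℕ) : ZMod p) = w * (y1 : ZMod p) := by
        rw [hj, ZMod.natCast_zmod_val]
      have h6 : (((a - 1) * y1 + j : ℕ) : ZMod p) = 0 := by
        push_cast
        rw [h5, hw, hA', Nat.cast_sub (by omega)]
        push_cast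
        ring
      rw [ZMod.natCast_eq_zero_iff] at h6
      have h7 : (a - 1) * y1 + y1 = a * y1 := by
        rw [Nat.sub_mul, one_mul]
        have : y1 ≤ a * y1 := Nat.le_mul_of_pos_left y1 (by omega)
        omega
      have h8 := Nat.le_of_dvd (by omega) h6
      omega
    · obtain ⟨u, hu1, hu2, hu3⟩ := hP2 y1 e8 e7 hT1
      have h5 := hcan u y1 hu3
      rw [hA', neg_neg] at h5
      have h6 : (u : ZMod p) = ((a * y1 : ℕ) : ZMod p) := by
        rw [h5]
        push_cast
        ring
      have h7 := (ZMod.natCast_eq_natCast_iff u (a * y1) p).1 h6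
      have h8 := Nat.ModEq.eq_of_lt_of_lt h7 (by omega) (by omega)
      omega

theorem contra_neg {a b k : ℕ} (ha2 : 2 ≤ a) (hap : 2 * a < p)
    (hk1 : 1 ≤ k) (hka : k ≤ a) (hau : IsUnit (a : ZMod p)) {A : ZMod p}
    (hA : A = (a : ZMod p) ∨ A = -(a : ZMod p)) (hκ : (1 + A) * (b : ZMod p) = -(k : ZMod p))
    (hG : ∀ s W : ZMod p, |(- ind ((-s).val < k)) - (- ind ((-W).val < k)) +
      AA b (1 + A) s (s - W).val| ≤ 1) : False := by
  set w : ZMod p := 1 + A with hw
  set P := addOrderOf w with hP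
  set b0 := b % P with hb0
  have hPpos : 0 < P := ord_pos w
  have hb0P : b0 < P := Nat.mod_lt _ hPpos
  have hkp : k < p := by omega
  have hAu : IsUnit A := by
    rcases hA with h | h
    · rw [h]; exact hau
    · rw [h]; exact hau.neg
  have hwval : k < w.val := by
    rcases hA with h | h
    · have : w = ((a + 1 : ℕ) : ZMod p) := by
        rw [hw, h]
        push_cast
        ring
      rw [this, ZMod.val_natCast_of_lt (by omega)]
      omega
    · have : w = ((p + 1 - a : ℕ) : ZMod p) := by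
        rw [hw, h, Nat.cast_sub (by omega)]
        push_cast
        rw [ZMod.natCast_self]
        ring
      rw [this, ZMod.val_natCast_of_lt (by omega)]
      omega
  have hwb : w * ((b0 : ℕ) : ZMod p) = -(k : ZMod p) := by
    rw [← hκ]
    have := (mul_eq_iff w (b0 : ℤ) (b : ℤ)).2 ?_
    · simpa using this
    · refine ⟨-(b / P : ℕ), ?_⟩
      have h1 := Nat.mod_add_div b P
      have h2 : (b : ℤ) = b0 + P * (b / P : ℕ) := by
        rw [hb0]
        exact_mod_cast h1.symm
      linear_combination -h2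
  have hb01 : 1 ≤ b0 := by
    rcases Nat.eq_zero_or_pos b0 with h | h
    · exfalso
      rw [h, Nat.cast_zero, mul_zero] at hwb
      have h1 : (k : ZMod p) = 0 := by
        rw [← neg_eq_zero]
        exact hwb.symm
      rw [ZMod.natCast_eq_zero_iff] at h1
      have := Nat.le_of_dvd (by omega) h1
      omega
    · exact h
  -- the consequence of the bound
  have hQ : ∀ (y : ZMod p) (u : ℤ), 1 ≤ u → u ≤ b0 + k - 1 → -A * (w * y) = w * (u : ZMod p) →
      (∃ t : ℤ, 1 ≤ t ∧ t ≤ b0 ∧ w * y = w * (t : ZMod p)) ∨ (-(w * y)).val < k := by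
    intro y u hu1 hu2 hu3
    by_contra hcon
    push Not at hcon
    obtain ⟨hB, hk'⟩ := hcon
    -- `u = t + j`
    obtain ⟨t, j, ht1, ht2, hj1, hj2, htj⟩ : ∃ t j : ℕ, 1 ≤ t ∧ t ≤ b0 ∧ 0 ≤ j ∧ j < k ∧
        u = (t : ℤ) + j := by
      rcases le_or_gt u b0 with h | h
      · exact ⟨u.toNat, 0, by omega, by omega, by omega, by omega, by omega⟩
      · exact ⟨b0, (u - b0).toNat, by omega, by omega, by omega, by omega, by omega⟩
    have h1 := (abs_le.1 (hG (w * y) (-(j : ZMod p)))).2
    have h2 : ind ((-(w * y)).val < k) = 0 := ind_neg (by omega)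
    have h3 : ind ((-(-(j : ZMod p))).val < k) = 1 := by
      apply ind_pos
      rw [neg_neg, ZMod.val_natCast_of_lt (by omega)]
      exact hj2
    rw [h2, h3, aa_eq] at h1
    have h4 : ∑ i ∈ Finset.range b0, ind (w * y = w * ((i : ZMod p) + 1)) = 0 := by
      apply Finset.sum_eq_zero
      intro i hi
      rw [Finset.mem_range] at hi
      apply ind_neg
      intro h5
      apply hB ((i : ℤ) + 1) (by omega) (by omega)
      push_cast
      exact h5
    have h5 : 1 ≤ ∑ i ∈ Finset.range b0, ind (w * y = w * ((i : ZMod p) + 1 +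
        ((w * y - -(j : ZMod p)).val : ℕ))) := by
      refine sum_ind_ge (i := t - 1) (by omega) ?_
      rw [Nat.cast_sub ht1, Nat.cast_one, sub_add_cancel, ZMod.natCast_zmod_val]
      rw [htj] at hu3
      push_cast at hu3
      have e : A = w - 1 := by rw [hw]; ring
      rw [e] at hu3
      linear_combination hu3
    have h6 : b % addOrderOf w = b0 := rfl
    rw [h6] at h1
    rw [h4] at h1
    linarith
  rcases Nat.lt_or_ge (b0 + k - 1) P with hcase | hcase
  · -- first case
    classical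
    obtain ⟨v, hv⟩ := hAu
    set C : ZMod p := -(↑v⁻¹ : ZMod p) with hC
    have hAC : -A * C = 1 := by
      rw [hC, ← hv]
      have := v.mul_inv
      linear_combination this
    set V := (Finset.Icc 1 (b0 + k - 1)).image (fun u : ℕ => w * (C * (u : ZMod p))) with hV
    set B := (Finset.Icc 1 b0).image (fun t : ℕ => w * (t : ZMod p)) with hBdef
    set N := (Finset.Icc 1 (k - 1)).image (fun j : ℕ => -(j : ZMod p)) with hN
    have hVcard : V.card = b0 + k - 1 := by
      rw [hV, Finset.card_image_of_injOn, Nat.card_Icc]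
      · omega
      · intro u hu u' hu' huu
        rw [Finset.mem_coe, Finset.mem_Icc] at hu hu'
        simp only at huu
        have h1 : w * ((u : ℤ) : ZMod p) = w * ((u' : ℤ) : ZMod p) := by
          rw [Int.cast_natCast, Int.cast_natCast]
          have h2 : -A * (w * (C * (u : ZMod p))) = -A * (w * (C * (u' : ZMod p))) := by rw [huu]
          linear_combination h2 - (w * u - w * u') * hAC
        have := idx_eq h1 (by omega) (by omega)
        exact_mod_cast this
    have hsub : V ⊆ B ∪ N := by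
      intro x hx
      rw [hV, Finset.mem_image] at hx
      obtain ⟨u, hu, rfl⟩ := hx
      rw [Finset.mem_Icc] at hu
      have h1 : -A * (w * (C * (u : ZMod p))) = w * ((u : ℤ) : ZMod p) := by
        rw [Int.cast_natCast]
        linear_combination (w * (u : ZMod p)) * hAC
      rw [Finset.mem_union]
      rcases hQ (C * (u : ZMod p)) u (by omega) (by omega) h1 with ⟨t, ht1, ht2, ht3⟩ | h2
      · left
        rw [hBdef, Finset.mem_image]
        refine ⟨t.toNat, Finset.mem_Icc.2 ⟨by omega, by omega⟩, ?_⟩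
        have : ((t.toNat : ℕ) : ZMod p) = (t : ZMod p) := by
          have e1 : ((t.toNat : ℕ) : ℤ) = t := Int.toNat_of_nonneg (by omega)
          rw [← Int.cast_natCast, e1]
        rw [this]
        exact ht3.symm
      · right
        rw [hN, Finset.mem_image]
        set x := w * (C * (u : ZMod p)) with hx
        have hx0 : x ≠ 0 := by
          intro h0
          rw [h0, mul_zero] at h1
          have h3 := (ord_iff w (u : ℤ)).1 h1.symm
          have := Int.le_of_dvd (by omega) h3
          omega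
        refine ⟨(-x).val, Finset.mem_Icc.2 ⟨?_, by omega⟩, ?_⟩
        · rcases Nat.eq_zero_or_pos (-x).val with h3 | h3
          · exfalso
            rw [ZMod.val_eq_zero, neg_eq_zero] at h3
            exact hx0 h3
          · exact h3
        · rw [ZMod.natCast_zmod_val, neg_neg]
    have hcardBN : (B ∪ N).card ≤ b0 + k - 1 := by
      have h1 := Finset.card_union_le B N
      have h2 : B.card ≤ b0 := by
        rw [hBdef]
        refine le_trans Finset.card_image_le ?_
        rw [Nat.card_Icc]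
        omega
      have h3 : N.card ≤ k - 1 := by
        rw [hN]
        refine le_trans Finset.card_image_le ?_
        rw [Nat.card_Icc]
        omega
      omega
    have hVeq : V = B ∪ N := Finset.eq_of_subset_of_card_le hsub (by omega)
    have hmem : w * ((b0 : ℕ) : ZMod p) ∈ V := by
      rw [hVeq, Finset.mem_union, hBdef, Finset.mem_image]
      left
      exact ⟨b0, Finset.mem_Icc.2 ⟨hb01, le_rfl⟩, rfl⟩
    rw [hV, Finset.mem_image] at hmem
    obtain ⟨u, hu, hu2⟩ := hmem
    rw [Finset.mem_Icc] at hu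
    have h1 : w * (((b0 + k : ℤ)) : ZMod p) = w * ((u : ℤ) : ZMod p) := by
      push_cast
      have e : A = w - 1 := by rw [hw]; ring
      have h2 : -A * (w * (b0 : ZMod p)) = w * (u : ZMod p) := by
        rw [← hu2]
        linear_combination (w * (u : ZMod p)) * hAC
      rw [← h2, e]
      linear_combination w * hwb
    have := idx_eq h1 (by omega) (by omega)
    omega
  · -- second case
    obtain ⟨u, hu1, hu2, hu3⟩ := exists_idx w A 1
    have h1 : -A * (w * (-1)) = w * (u : ZMod p) := by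
      rw [← hu3]
      ring
    rcases hQ (-1) u hu1 (by omega) h1 with ⟨t, ht1, ht2, ht3⟩ | h2
    · have h2 : w * ((t + 1 : ℤ) : ZMod p) = 0 := by
        push_cast
        linear_combination -ht3
      rw [ord_iff] at h2
      have h3 := Int.le_of_dvd (by omega) h2
      have h4 : t = b0 := by omega
      have h5 : (k : ZMod p) = w := by
        rw [h4, Int.cast_natCast, hwb] at ht3
        linear_combination ht3
      have h6 := congrArg ZMod.val h5
      rw [ZMod.val_natCast_of_lt hkp] at h6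
      omega
    · rw [mul_neg, mul_one, neg_neg] at h2
      omega

end

end Helper25.FLT
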