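import Pool.Agent.Helper25.FLT.G1c
import Pool.Agent.Helper25.FLT.Top

set_option autoImplicit false
set_option linter.unusedSectionVars false

/-!
# Merges with `g = 1`: assembly
-/

namespace Helper25.FLT

open Helper11.N1 Helper55.KE Pool.Agent.Helper55.FT
open Helper11.N1.DECaux (ind ite_ind ind_and ind_congr ind_pos ind_neg)

section

variable {p q a b : ℕ} [NeZero p] [NeZero q]

theorem g1_contra (hP : Par p q a b) (hpq : p ≤ q) (ha2 : 2 * a < p) (hb2 : 2 * b < p)
    (hac : a.Coprime p) (hbc : b.Coprime p) {z : ZMod p → ZMod (p * q)} {i0 β A : ZMod p}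
    (hA : A = (a : ZMod p) ∨ A = -(a : ZMod p)) (hAP : AP q z i0 (A * β) (e p q β + 1))
    {m0 : ZMod p} (hF : ∀ W S, |FF q a b z (z i0 + e p q m0) W S| ≤ 1)
    (hκ : ((1 + A) * (b : ZMod p)).val ≤ a ∨ (-((1 + A) * (b : ZMod p))).val ≤ a) : False := by
  have ha := hP.ha
  have hau : IsUnit (a : ZMod p) := (ZMod.isUnit_iff_coprime a p).2 hac
  have hbu : IsUnit (b : ZMod p) := (ZMod.isUnit_iff_coprime b p).2 hbc
  have hAu : IsUnit A := by
    rcases hA with h | h
    · rw [h]; exact hau
    · rw [h]; exact hau.neg
  obtain ⟨v, hv⟩ := hAu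
  have hAA' : A * (↑v⁻¹ : ZMod p) = 1 := by rw [← hv]; exact v.mul_inv
  -- the chain structure
  have hG1 : G1 p q a b z i0 A (↑v⁻¹ : ZMod p) := by
    refine ⟨hAA', fun j => ?_⟩
    obtain ⟨n, hn, rfl⟩ := ap_row hAP j
    refine ⟨n, by omega, ?_⟩
    have h1 : (↑v⁻¹ : ZMod p) * (i0 + (n : ZMod p) * (A * β) - i0) = (n : ZMod p) * β := by
      linear_combination ((n : ZMod p) * β) * hAA'
    rw [h1, hAP.2 n hn, e_mul]
    ring
  have hf := fun W s => hG1.f0 hP hF W s
  -- `κ ≠ 0`
  have hA1 : 1 + A ≠ 0 := by
    intro h0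
    rcases hA with h | h
    · rw [h] at h0
      have h1 : ((a + 1 : ℕ) : ZMod p) = 0 := by
        push_cast
        rw [add_comm]
        exact h0
      rw [ZMod.natCast_eq_zero_iff] at h1
      have := Nat.le_of_dvd (by omega) h1
      omega
    · rw [h] at h0
      have h1 : ((a - 1 : ℕ) : ZMod p) = 0 := by
        rw [Nat.cast_sub (by omega)]
        push_cast
        linear_combination -h0
      rw [ZMod.natCast_eq_zero_iff] at h1
      have := Nat.le_of_dvd (by omega) h1
      omega
  have hκ0 : (1 + A) * (b : ZMod p) ≠ 0 := by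
    intro h
    rw [hbu.mul_left_eq_zero] at h
    exact hA1 h
  rcases hκ with hκ | hκ
  · set k := ((1 + A) * (b : ZMod p)).val with hk
    have hk1 : 1 ≤ k := by
      rcases Nat.eq_zero_or_pos k with h | h
      · exact absurd ((ZMod.val_eq_zero _).1 h) hκ0
      · exact h
    have hkk : (1 + A) * (b : ZMod p) = (k : ZMod p) := by
      rw [hk, ZMod.natCast_zmod_val]
    have hU : IsU ((1 + A) * (b : ZMod p)) (fun y => gI k y) := by
      rw [hkk]
      exact isU_pos (by omega)
    refine contra_pos (a := a) (b := b) (k := k) ha ha2 hb2 hk1 hκ hau hA hkk ?_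
    intro s W
    rcases hA with h | h
    · subst h
      exact g_pos (by omega) hU hf s W
    · subst h
      exact g_neg (by omega) hU hf s W
  · set k := (-((1 + A) * (b : ZMod p))).val with hk
    have hk1 : 1 ≤ k := by
      rcases Nat.eq_zero_or_pos k with h | h
      · rw [hk, ZMod.val_eq_zero, neg_eq_zero] at h
        exact absurd h hκ0
      · exact h
    have hkk : (1 + A) * (b : ZMod p) = -(k : ZMod p) := by
      rw [hk, ZMod.natCast_zmod_val, neg_neg]
    have hU : IsU ((1 + A) * (b : ZMod p)) (fun y => - ind ((-y).val < k)) := by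
      rw [hkk]
      exact isU_neg (by omega)
    refine contra_neg (a := a) (b := b) (k := k) ha ha2 hk1 hκ hau hA hkk ?_
    intro s W
    rcases hA with h | h
    · subst h
      exact g_pos (by omega) hU hf s W
    · subst h
      exact g_neg (by omega) hU hf s W

/-- close indices which differ by `ε` modulo `q` -/
theorem idx_diff {a b : ℕ} {D ε : ℤ} (hε : ε = 1 ∨ ε = -1) (hpq : p < q)
    (hD : (q : ℤ) ∣ D - ε) {m n : ZMod p}
    (h : rq p q (zap q a b D m) = rq p q (zap q a b D n) + 1) :
    (idx a b m : ℤ) - idx a b n = ε := by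
  rw [rq_zap, rq_zap] at h
  have h1 : (((idx a b m : ℤ) * D - ((idx a b n : ℤ) * D + 1) : ℤ) : ZMod q) = 0 := by
    push_cast at h ⊢
    rw [h]
    ring
  rw [ZMod.intCast_zmod_eq_zero_iff_dvd] at h1
  have hm := idx_lt a b m
  have hn := idx_lt a b n
  obtain ⟨u, hu⟩ := h1
  obtain ⟨v, hv⟩ := hD
  have hD' : D = ε + q * v := by linarith
  have hε2 : ε * ε = 1 := by
    rcases hε with h | h <;> rw [h] <;> norm_num
  have h2 : (q : ℤ) ∣ ((idx a b m : ℤ) - idx a b n) - ε := by
    refine ⟨ε * (u - v * ((idx a b m : ℤ) - idx a b n)), ?_⟩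
    rw [hD'] at hu
    have h3 : ((idx a b m : ℤ) - idx a b n) * ε - 1 =
        q * (u - v * ((idx a b m : ℤ) - idx a b n)) := by linear_combination hu
    linear_combination ε * h3 - ((idx a b m : ℤ) - idx a b n) * hε2
  have h3 := Int.eq_zero_of_abs_lt_dvd h2 (by
    rw [abs_lt]
    rcases hε with h | h <;> rw [h] <;> constructor <;> omega)
  linarith

/-- rows of two indices -/
theorem row_of_idx {a b : ℕ} (hab : (a * b).Coprime p) (j : ZMod p) :
    j = ((idx a b j : ℕ) : ZMod p) * ((a * b : ℕ) : ZMod p) := by
  have hu : IsUnit ((a * b : ℕ) : ZMod p) := (ZMod.isUnit_iff_coprime _ p).2 hab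
  unfold idx
  rw [ZMod.natCast_zmod_val, mul_assoc, ZMod.inv_mul_of_unit _ hu, mul_one]

theorem g1_false (hL : StL0) {D ε : ℤ} (hε : ε = 1 ∨ ε = -1) (hpq : p < q)
    (hc : p.Coprime q) (hDq : IsCoprime D (q : ℤ)) (hF : Flat p q D) (hq : NU p q) (ha : 2 ≤ a)
    (ha2 : 2 * a < p) (hac : a.Coprime p) (haD : (p : ℤ) ∣ D + a) (hD : (q : ℤ) ∣ D - ε) :
    False := by
  obtain ⟨b, hb1, hb2, hb3, hb4, hbc⟩ := exists_b (by omega) hc hq
  have habc : (a * b).Coprime p := Nat.Coprime.mul_left hac hbc
  obtain ⟨hz1, hz2, hz3⟩ := aLK2 p q a b hb1 habc D haD (by omega)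
  have hG : Gen q (zap (p := p) q a b D) := genap p q a b hpq.le habc D hDq
  have hAP := ap_zap (q := q) habc D
  have hbd : ∀ (X : ZMod (p * q)) W S, p ∣ X.val → |FF q a b (zap q a b D) X W S| ≤ 1 := by
    intro X W S hX
    rcases hz3 X W S hX with h | ⟨N, k, h0, h1, h⟩
    · rw [h]; norm_num
    · rw [h]; exact hF N k h0 h1
  -- the step modulo `p q`
  have hθ : ((D - a * b * q : ℤ) : ZMod (p * q)) = ((ε * (b * q + 1) : ℤ) : ZMod (p * q)) := by
    rw [← sub_eq_zero, ← Int.cast_sub, ZMod.intCast_zmod_eq_zero_iff_dvd]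
    push_cast
    have hcpq : IsCoprime (p : ℤ) (q : ℤ) := Nat.isCoprime_iff_coprime.2 hc
    refine hcpq.mul_dvd ?_ ?_
    · obtain ⟨u, hu⟩ := haD
      obtain ⟨v, hv⟩ := hb1
      have hv' : (b : ℤ) * q + 1 = p * v := by exact_mod_cast hv
      refine ⟨u - a * v - ε * v, ?_⟩
      linear_combination hu - (a + ε) * hv'
    · obtain ⟨u, hu⟩ := hD
      refine ⟨u - a * b - ε * b, ?_⟩
      linear_combination hu
  rcases Nat.lt_or_ge (2 * b) p with hb | hb
  · have hP : Par p q a b := ⟨ha, hb2, by omega, by omega⟩
    set κ : ZMod p := (1 + (ε : ZMod p) * a) * b with hκ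
    by_cases hgood : a < κ.val ∧ κ.val + a < p
    · -- good merges: full flatness
      refine no_conf hL (q := q) ⟨a, b, inferInstance, inferInstance, hP, ha2, hb, hac, hbc,
        _, _, _, _, Or.inl (by push_cast; ring), hG, hAP, ?_⟩
      refine aLK3 p q a b hP hb1 _ ?_ hz1 ?_ hbd
      · intro i j hij
        refine hG i j ?_
        rw [hij, sub_self, ZMod.val_zero]
        exact dvd_zero _
      · intro n m h
        have h1 := congrArg (rq p q) h
        rw [map_sub, map_add, map_mul, map_natCast, map_natCast, map_one, ZMod.natCast_self,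
          mul_zero, sub_zero] at h1
        have h2 := idx_diff hε hpq hD h1
        have h3 : (m : ZMod p) + b - n = κ := by
          have e1 := row_of_idx habc m
          have e2 := row_of_idx habc n
          have e3 : ((idx a b m : ℕ) : ZMod p) = (idx a b n : ℕ) + (ε : ZMod p) := by
            have : ((idx a b m : ℤ) : ZMod p) = ((idx a b n + ε : ℤ) : ZMod p) := by
              rw [← h2]
              congr 1
              ring
            push_cast at this
            exact this
          rw [e1, e2, e3, hκ]
          push_cast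
          ring
        rw [h3]
        exact ⟨hgood.1.le, hgood.2⟩
    · have hbad : κ.val ≤ a ∨ (-κ).val ≤ a := by
        by_contra hcon
        push Not at hcon
        apply hgood
        refine ⟨hcon.1, ?_⟩
        have hκ0 : κ ≠ 0 := by
          intro h0
          rw [h0, ZMod.val_zero] at hcon
          omega
        have : NeZero κ := ⟨hκ0⟩
        have h1 := ZMod.val_neg_of_ne_zero κ
        have h2 := ZMod.val_lt κ
        omega
      have hblk : ∀ j : ZMod p, ∀ W S, |FF q a b (zap q a b D)
          (zap q a b D j + e p q 0) W S| ≤ 1 := by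
        intro j W S
        rw [e_zero, add_zero]
        exact hbd _ _ _ (hz1 j)
      have heb : e p q ((b : ℕ) : ZMod p) = (b : ZMod (p * q)) * q := by
        rw [e_natCast]
        push_cast
        rfl
      rcases hε with h | h
      · refine g1_contra hP hpq.le ha2 hb hac hbc (z := zap q a b D) (i0 := 0)
          (β := (b : ZMod p)) (A := (a : ZMod p)) (Or.inl rfl) ?_ (hblk 0) ?_
        · have e1 : ((D - a * b * q : ℤ) : ZMod (p * q)) = e p q ((b : ℕ) : ZMod p) + 1 := by
            rw [hθ, h, heb]
            push_cast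
            ring
          rw [e1] at hAP
          push_cast at hAP
          exact hAP
        · rw [hκ, h] at hbad
          push_cast at hbad
          rw [one_mul] at hbad
          exact hbad
      · have hAP' := ap_rev hAP
        refine g1_contra hP hpq.le ha2 hb hac hbc (z := zap q a b D)
          (i0 := 0 - ((a * b : ℕ) : ZMod p))
          (β := (b : ZMod p)) (A := -(a : ZMod p)) (Or.inr rfl) ?_ (hblk _) ?_
        · have e1 : -((D - a * b * q : ℤ) : ZMod (p * q)) = e p q ((b : ℕ) : ZMod p) + 1 := by
            rw [hθ, h, heb]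
            push_cast
            ring
          rw [e1] at hAP'
          have e2 : -((a * b : ℕ) : ZMod p) = -(a : ZMod p) * b := by
            push_cast
            ring
          rw [e2] at hAP'
          exact hAP'
        · rw [hκ, h] at hbad
          have e3 : (1 + ((-1 : ℤ) : ZMod p) * a) = 1 + -(a : ZMod p) := by
            push_cast
            ring
          rw [e3] at hbad
          exact hbad
  · have hP : Par p q a (p - b) := ⟨ha, by omega, by omega, by omega⟩
    have hbc' : (p - b).Coprime p := cop_sub (by omega) hbc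
    have hm := mir p q a b (zap (p := p) q a b D)
    have hcast : ((p - b : ℕ) : ZMod (p * q)) * q = - (b * q) := by
      rw [Nat.cast_sub (by omega), sub_mul, ← Nat.cast_mul, ZMod.natCast_self, zero_sub]
    have hbcast : ((p - b : ℕ) : ZMod p) = -(b : ZMod p) := by
      rw [Nat.cast_sub (by omega), ZMod.natCast_self, zero_sub]
    set z2 : ZMod p → ZMod (p * q) := fun j : ZMod p => zap q a b D (j - (b : ZMod p)) - b * q
      with hz2def
    have hbd2 : ∀ (X : ZMod (p * q)) W S, p ∣ X.val → |FF q a (p - b) z2 X W S| ≤ 1 := by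
      intro X W S hX
      rw [hz2def, hm.2.1 (by omega) X W S, abs_neg]
      exact hbd X W S hX
    have hAP2 : AP q z2 (0 + (b : ZMod p)) ((a * b : ℕ) : ZMod p)
        ((D - a * b * q : ℤ) : ZMod (p * q)) := ap_translate hAP (b : ZMod p) _
    have hG2 : Gen q z2 := hm.2.2.2 hG
    set κ : ZMod p := (1 + (ε : ZMod p) * a) * ((p - b : ℕ) : ZMod p) with hκ
    by_cases hgood : a < κ.val ∧ κ.val + a < p
    · refine no_conf hL (q := q) ⟨a, p - b, inferInstance, inferInstance, hP, ha2, by omega, hac,
        hbc', z2, _, _, _, Or.inr ?_, hG2, hAP2, ?_⟩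
      · rw [hbcast]
        push_cast
        ring
      obtain ⟨c, hc1⟩ := hb1
      have h3 : b * q + q ≤ p * q := by
        have : (b + 1) * q ≤ p * q := Nat.mul_le_mul_right q (by omega)
        rw [add_mul, one_mul] at this
        exact this
      have hcq : c ≤ q := by
        by_contra hcon
        have h1 : q + 1 ≤ c := by omega
        have h2 : p * (q + 1) ≤ p * c := Nat.mul_le_mul_left p h1
        rw [mul_add, mul_one] at h2
        omega
      have hbq : (p - b) * q = p * (q - c) + 1 := by
        rw [Nat.sub_mul, Nat.mul_sub]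
        have h4 : p * c ≤ p * q := Nat.mul_le_mul_left p hcq
        omega
      refine aLK3B p q a (p - b) hP ⟨q - c, hbq⟩ _ ?_ ?_ ?_ hbd2
      · intro i j hij
        refine hG2 i j ?_
        rw [hij, sub_self, ZMod.val_zero]
        exact dvd_zero _
      · intro j
        obtain ⟨t, ht⟩ := hz1 (j - (b : ZMod p))
        have h1 : z2 j = ((p * t + (p * (q - c) + 1) : ℕ) : ZMod (p * q)) := by
          rw [hz2def]
          simp only
          rw [← hbq, Nat.cast_add, ← ht, ZMod.natCast_zmod_val, Nat.cast_mul, hcast]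
          ring
        rw [h1, ZMod.val_natCast, Nat.mod_mul_right_mod]
        have h2 : p * t + (p * (q - c) + 1) = 1 + p * (t + (q - c)) := by ring
        rw [h2, Nat.add_mul_mod_self_left]
        exact Nat.mod_eq_of_lt (by omega)
      · intro n m h
        have h1 := congrArg (rq p q) h
        rw [hz2def] at h1
        simp only [map_sub, map_add, map_mul, map_natCast, map_one, ZMod.natCast_self, mul_zero,
          sub_zero] at h1
        have h2 := idx_diff hε hpq hD h1.symm
        have h3 : (m : ZMod p) + ((p - b : ℕ) : ZMod p) - n = κ := by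
          have e1 := row_of_idx habc (m - (b : ZMod p))
          have e2 := row_of_idx habc (n - (b : ZMod p))
          have e3 : ((idx a b (n - (b : ZMod p)) : ℕ) : ZMod p) =
              (idx a b (m - (b : ZMod p)) : ℕ) + (ε : ZMod p) := by
            have : ((idx a b (n - (b : ZMod p)) : ℤ) : ZMod p) =
                ((idx a b (m - (b : ZMod p)) + ε : ℤ) : ZMod p) := by
              rw [← h2]
              congr 1
              ring
            push_cast at this
            exact this
          rw [e3] at e2
          rw [hκ, hbcast]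
          push_cast at e1 e2
          linear_combination e1 - e2
        rw [h3]
        exact ⟨hgood.1, hgood.2.le⟩
    · have hbad : κ.val ≤ a ∨ (-κ).val ≤ a := by
        by_contra hcon
        push Not at hcon
        apply hgood
        refine ⟨hcon.1, ?_⟩
        have hκ0 : κ ≠ 0 := by
          intro h0
          rw [h0, ZMod.val_zero] at hcon
          omega
        have : NeZero κ := ⟨hκ0⟩
        have h1 := ZMod.val_neg_of_ne_zero κ
        have h2 := ZMod.val_lt κ
        omega
      have heb : e p q (-((p - b : ℕ) : ZMod p)) = (b : ZMod (p * q)) * q := by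
        rw [hbcast, neg_neg, e_natCast]
        push_cast
        rfl
      have hblk : ∀ j : ZMod p, ∀ W S, |FF q a (p - b) z2
          (z2 j + e p q (-((p - b : ℕ) : ZMod p))) W S| ≤ 1 := by
        intro j W S
        have e1 : z2 j + e p q (-((p - b : ℕ) : ZMod p)) = zap q a b D (j - (b : ZMod p)) := by
          rw [heb, hz2def]
          ring
        rw [e1]
        exact hbd2 _ _ _ (hz1 _)
      rcases hε with h | h
      · refine g1_contra hP hpq.le ha2 (by omega) hac hbc' (z := z2) (i0 := 0 + (b : ZMod p))
          (β := -((p - b : ℕ) : ZMod p)) (A := (a : ZMod p)) (Or.inl rfl) ?_ (hblk _) ?_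
        · have e1 : ((D - a * b * q : ℤ) : ZMod (p * q)) =
              e p q (-((p - b : ℕ) : ZMod p)) + 1 := by
            rw [hθ, h, heb]
            push_cast
            ring
          rw [e1] at hAP2
          have e2 : ((a * b : ℕ) : ZMod p) = (a : ZMod p) * -((p - b : ℕ) : ZMod p) := by
            rw [hbcast]
            push_cast
            ring
          rw [e2] at hAP2
          exact hAP2
        · rw [hκ, h] at hbad
          push_cast at hbad
          rw [one_mul] at hbad
          have e5 : ((p - b : ℕ) : ZMod p) = ((p - b : ℕ) : ZMod p) := rfl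
          exact hbad
      · have hAP' := ap_rev hAP2
        refine g1_contra hP hpq.le ha2 (by omega) hac hbc' (z := z2)
          (i0 := 0 + (b : ZMod p) - ((a * b : ℕ) : ZMod p))
          (β := -((p - b : ℕ) : ZMod p)) (A := -(a : ZMod p)) (Or.inr rfl) ?_ (hblk _) ?_
        · have e1 : -((D - a * b * q : ℤ) : ZMod (p * q)) =
              e p q (-((p - b : ℕ) : ZMod p)) + 1 := by
            rw [hθ, h, heb]
            push_cast
            ring
          rw [e1] at hAP'
          have e2 : -((a * b : ℕ) : ZMod p) = -(a : ZMod p) * -((p - b : ℕ) : ZMod p) := by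
            rw [hbcast]
            push_cast
            ring
          rw [e2] at hAP'
          exact hAP'
        · rw [hκ, h] at hbad
          have e3 : (1 + ((-1 : ℤ) : ZMod p) * a) = 1 + -(a : ZMod p) := by
            push_cast
            ring
          rw [e3] at hbad
          exact hbad

end

/-- merges with `g = 1` -/
theorem merge_one (hL : StL0) {p q : ℕ} {D : ℤ} (hp : 2 ≤ p) (hpq : p < q) (hc : p.Coprime q)
    (hD : IsCoprime D ((p * q : ℕ) : ℤ)) (hF : Flat p q D) (hq : NU p q) (hDp : NU p D)
    (h : (q : ℤ) ∣ D - 1 ∨ (q : ℤ) ∣ D + 1) : False := by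
  have h1 : NeZero p := ⟨by omega⟩
  have h2 : NeZero q := ⟨by omega⟩
  push_cast at hD
  have hDp' : IsCoprime D (p : ℤ) := hD.of_mul_right_left
  have hDq : IsCoprime D (q : ℤ) := hD.of_mul_right_right
  obtain ⟨ε, hε, hDε⟩ : ∃ ε : ℤ, (ε = 1 ∨ ε = -1) ∧ (q : ℤ) ∣ D - ε := by
    rcases h with h | h
    · exact ⟨1, Or.inl rfl, h⟩
    · exact ⟨-1, Or.inr rfl, by rwa [sub_neg_eq_add]⟩
  obtain ⟨a, ha, ha2, ha3, ha4, hac⟩ := exists_res hp hDp' hDp
  rcases Nat.lt_or_ge (2 * a) p with h | h
  · exact g1_false hL hε hpq hc hDq hF hq ha2 h hac ha hDε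
  · refine g1_false hL (a := p - a) (D := -D) (ε := -ε) ?_ hpq hc hDq.neg_left (flat_neg hF) hq
      (by omega) (by omega) (cop_sub (by omega) hac) ?_ ?_
    · rcases hε with h | h
      · exact Or.inr (by rw [h])
      · exact Or.inl (by rw [h, neg_neg])
    · obtain ⟨w, hw⟩ := ha
      refine ⟨1 - w, ?_⟩
      rw [Nat.cast_sub (by omega)]
      linarith
    · obtain ⟨w, hw⟩ := hDε
      exact ⟨-w, by linear_combination -hw⟩

end Helper25.FLT
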