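import Pool.Agent.Helper10.KE.Cfg
import Pool.Agent.Helper55.KE.FR
import Pool.Agent.Helper25.FLT.Top

set_option autoImplicit false

/-!
# The real configuration of a flat progression
-/

namespace Helper25.FLT

open Helper11.N1 Helper55.KE Helper10.KE

/-- the static clusters: index `n`, abscissa `x`, row `r` -/
def CC (p q : ℕ) (ρ : ZMod p) (θ : ZMod (p * q)) (n : ℤ) (x : ℝ) (r : ℤ) : Prop :=
  0 < n ∧ n < p ∧ ∃ X : ℤ, x = (X : ℝ) / q ∧ (n : ZMod (p * q)) * θ = (X : ZMod (p * q)) ∧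
    (n : ZMod p) * ρ = (r : ZMod p)

section

variable {p q : ℕ} {ρ : ZMod p} {θ : ZMod (p * q)}

theorem cast_pq (i : ℤ) : ((i * (p * q) : ℤ) : ZMod (p * q)) = 0 := by
  have h : ((p : ZMod (p * q)) * (q : ZMod (p * q))) = 0 := by
    rw [← Nat.cast_mul, ZMod.natCast_self]
  push_cast
  rw [h, mul_zero]

theorem cast_p (j : ℤ) : ((j * p : ℤ) : ZMod p) = 0 := by
  push_cast
  rw [ZMod.natCast_self, mul_zero]

theorem e_intCast (r : ℤ) [NeZero p] : e p q (r : ZMod p) = ((q * r : ℤ) : ZMod (p * q)) := by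
  rcases Int.eq_nat_or_neg r with ⟨n, h | h⟩
  · subst h
    rw [Int.cast_natCast, e_natCast]
    push_cast
    ring
  · subst h
    rw [Int.cast_neg, Int.cast_natCast, e_neg, e_natCast]
    push_cast
    ring

theorem e_mul_int [NeZero p] [NeZero q] (n : ℤ) (i : ZMod p) :
    e p q ((n : ZMod p) * i) = (n : ZMod (p * q)) * e p q i := by
  rcases Int.eq_nat_or_neg n with ⟨m, h | h⟩
  · subst h
    rw [Int.cast_natCast, e_mul, Int.cast_natCast]
  · subst h
    rw [Int.cast_neg, Int.cast_natCast, neg_mul, e_neg, e_mul, Int.cast_neg, Int.cast_natCast,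
      neg_mul]

/-- ordinates -/
theorem phi_of [NeZero p] [NeZero q] {n X r : ℤ} (hX : (n : ZMod (p * q)) * θ = (X : ZMod (p * q)))
    (hr : (n : ZMod p) * ρ = (r : ZMod p)) :
    (n : ZMod (p * q)) * (θ + e p q ρ) = ((X + q * r : ℤ) : ZMod (p * q)) := by
  rw [mul_add, hX, ← e_mul_int, hr, e_intCast]
  push_cast
  ring

theorem natOf {n : ℤ} (h0 : 0 < n) (h1 : n < p) : ∃ m : ℕ, n = m ∧ 0 < m ∧ m < p := by
  obtain ⟨m, rfl⟩ := Int.eq_ofNat_of_zero_le h0.le
  exact ⟨m, rfl, by exact_mod_cast h0, by exact_mod_cast h1⟩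

theorem cc_nat {n : ℤ} {x : ℝ} {r : ℤ} (h : CC p q ρ θ n x r) : ∃ (m : ℕ) (X : ℤ), n = m ∧
    0 < m ∧ m < p ∧ x = (X : ℝ) / q ∧ (m : ZMod (p * q)) * θ = (X : ZMod (p * q)) ∧
    (m : ZMod p) * ρ = (r : ZMod p) := by
  obtain ⟨h0, h1, X, h2, h3, h4⟩ := h
  obtain ⟨m, rfl, h5, h6⟩ := natOf h0 h1
  rw [Int.cast_natCast] at h3 h4
  exact ⟨m, X, rfl, h5, h6, h2, h3, h4⟩

theorem cc_refl {dl : ℕ} (hdl : (dl : ZMod (p * q)) = (p : ZMod (p * q)) * θ)
    {n : ℤ} {x : ℝ} {r : ℤ} (h : CC p q ρ θ n x r) : CC p q ρ θ (p - n) ((dl : ℝ) / q - x) (-r) := by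
  obtain ⟨h0, h1, X, h2, h3, h4⟩ := h
  refine ⟨by omega, by omega, dl - X, ?_, ?_, ?_⟩
  · rw [h2]
    push_cast
    ring
  · push_cast
    rw [sub_mul, h3, ← hdl]
  · push_cast
    rw [ZMod.natCast_self, zero_sub, neg_mul, h4]

theorem cc_shift (hq : (q : ℝ) ≠ 0) {n : ℤ} {x : ℝ} {r : ℤ} (h : CC p q ρ θ n x r) (i j : ℤ) :
    CC p q ρ θ n (x + i * p) (r + j * p) := by
  obtain ⟨h0, h1, X, h2, h3, h4⟩ := h
  refine ⟨h0, h1, X + i * (p * q), ?_, ?_, ?_⟩
  · rw [h2]
    push_cast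
    field_simp
  · rw [Int.cast_add, cast_pq, add_zero, h3]
  · rw [Int.cast_add, cast_p, add_zero, h4]

theorem cc_add {n : ℤ} {x : ℝ} {r : ℤ} {m : ℤ} {x' : ℝ} {r' : ℤ} (h : CC p q ρ θ n x r)
    (h' : CC p q ρ θ m x' r') (hnm : n + m < p) : CC p q ρ θ (n + m) (x + x') (r + r') := by
  obtain ⟨h0, h1, X, h2, h3, h4⟩ := h
  obtain ⟨h0', h1', X', h2', h3', h4'⟩ := h'
  refine ⟨by omega, hnm, X + X', ?_, ?_, ?_⟩
  · rw [h2, h2']
    push_cast
    ring
  · push_cast
    rw [add_mul, h3, h3']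
  · push_cast
    rw [add_mul, h4, h4']

theorem cc_add' {dl : ℕ} (hdl : (dl : ZMod (p * q)) = (p : ZMod (p * q)) * θ)
    {n : ℤ} {x : ℝ} {r : ℤ} {m : ℤ} {x' : ℝ} {r' : ℤ} (h : CC p q ρ θ n x r)
    (h' : CC p q ρ θ m x' r') (hnm : (p : ℤ) < n + m) :
    CC p q ρ θ (n + m - p) (x + x' - (dl : ℝ) / q) (r + r') := by
  obtain ⟨h0, h1, X, h2, h3, h4⟩ := h
  obtain ⟨h0', h1', X', h2', h3', h4'⟩ := h'
  refine ⟨by omega, by omega, X + X' - dl, ?_, ?_, ?_⟩
  · rw [h2, h2']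
    push_cast
    ring
  · push_cast
    rw [sub_mul, add_mul, h3, h3', hdl]
  · push_cast
    rw [ZMod.natCast_self, sub_zero, add_mul, h4, h4']

theorem cc_sub {n : ℤ} {x : ℝ} {r : ℤ} {m : ℤ} {x' : ℝ} {r' : ℤ} (h : CC p q ρ θ n x r)
    (h' : CC p q ρ θ m x' r') (hnm : m < n) : CC p q ρ θ (n - m) (x - x') (r - r') := by
  obtain ⟨h0, h1, X, h2, h3, h4⟩ := h
  obtain ⟨h0', h1', X', h2', h3', h4'⟩ := h'
  refine ⟨by omega, by omega, X - X', ?_, ?_, ?_⟩
  · rw [h2, h2']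
    push_cast
    ring
  · push_cast
    rw [sub_mul, h3, h3']
  · push_cast
    rw [sub_mul, h4, h4']

theorem cc_inj (hρ : IsUnit ρ) {n : ℤ} {x : ℝ} {r : ℤ} {m : ℤ} {x' : ℝ} {r' : ℤ}
    (h : CC p q ρ θ n x r) (h' : CC p q ρ θ m x' r') (hr : (p : ℤ) ∣ r - r') : n = m := by
  obtain ⟨h0, h1, X, h2, h3, h4⟩ := h
  obtain ⟨h0', h1', X', h2', h3', h4'⟩ := h'
  have h5 : ((n - m : ℤ) : ZMod p) * ρ = 0 := by
    push_cast
    rw [sub_mul, h4, h4', ← Int.cast_sub, ZMod.intCast_zmod_eq_zero_iff_dvd]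
    exact hr
  have h6 : ((n - m : ℤ) : ZMod p) = 0 := by
    rwa [hρ.mul_left_eq_zero] at h5
  rw [ZMod.intCast_zmod_eq_zero_iff_dvd] at h6
  have := Int.eq_zero_of_abs_lt_dvd h6 (by rw [abs_lt]; omega)
  omega

theorem cc_same (hq : (q : ℝ) ≠ 0) {n : ℤ} {x : ℝ} {r : ℤ} {m : ℤ} {x' : ℝ} {r' : ℤ}
    (h : CC p q ρ θ n x r) (h' : CC p q ρ θ m x' r') (hnm : n = m) :
    (∃ i : ℤ, x - x' = i * p) ∧ (p : ℤ) ∣ r - r' := by
  obtain ⟨h0, h1, X, h2, h3, h4⟩ := h
  obtain ⟨h0', h1', X', h2', h3', h4'⟩ := h'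
  subst hnm
  constructor
  · have h5 : ((X - X' : ℤ) : ZMod (p * q)) = 0 := by
      push_cast
      rw [← h3, ← h3', sub_self]
    rw [ZMod.intCast_zmod_eq_zero_iff_dvd] at h5
    obtain ⟨i, hi⟩ := h5
    refine ⟨i, ?_⟩
    rw [h2, h2', ← sub_div, ← Int.cast_sub, hi]
    push_cast
    field_simp
  · rw [← ZMod.intCast_zmod_eq_zero_iff_dvd]
    push_cast
    rw [← h4, ← h4', sub_self]

theorem cc_rne (hρ : IsUnit ρ) {n : ℤ} {x : ℝ} {r : ℤ} (h : CC p q ρ θ n x r) : ¬ (p : ℤ) ∣ r := by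
  obtain ⟨h0, h1, X, h2, h3, h4⟩ := h
  intro h5
  have h6 : (n : ZMod p) * ρ = 0 := by
    rw [h4, ZMod.intCast_zmod_eq_zero_iff_dvd]
    exact h5
  rw [hρ.mul_left_eq_zero, ZMod.intCast_zmod_eq_zero_iff_dvd] at h6
  have := Int.le_of_dvd h0 h6
  omega

theorem cc_sp {b : ℕ} (hp : p = 2 * b + 1)
    (hρ : ρ = ((2 : ℕ) : ZMod p) * b ∨ ρ = -(((2 : ℕ) : ZMod p) * b)) {n : ℤ} {x : ℝ}
    (h : CC p q ρ θ n x 1) : n = 1 ∨ n = p - 1 := by
  obtain ⟨h0, h1, X, h2, h3, h4⟩ := h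
  have h5 : ((2 : ℕ) : ZMod p) * b = -1 := by
    have h6 : ((2 * b + 1 : ℕ) : ZMod p) = 0 := by
      rw [← hp, ZMod.natCast_self]
    push_cast at h6 ⊢
    linear_combination h6
  rw [h5, neg_neg] at hρ
  rcases hρ with h6 | h6
  · right
    rw [h6, Int.cast_one] at h4
    have h7 : ((n + 1 : ℤ) : ZMod p) = 0 := by
      push_cast
      linear_combination -h4
    rw [ZMod.intCast_zmod_eq_zero_iff_dvd] at h7
    have := Int.le_of_dvd (by omega) h7
    omega
  · left
    rw [h6, Int.cast_one, mul_one] at h4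
    have h7 : ((n - 1 : ℤ) : ZMod p) = 0 := by
      push_cast
      rw [h4, sub_self]
    rw [ZMod.intCast_zmod_eq_zero_iff_dvd] at h7
    have := Int.eq_zero_of_abs_lt_dvd h7 (by rw [abs_lt]; omega)
    omega

end

section

variable {p q a b : ℕ} [NeZero p] [NeZero q] {z : ZMod p → ZMod (p * q)} {i0 ρ : ZMod p}
  {θ : ZMod (p * q)}

theorem q_ne : (q : ℝ) ≠ 0 := by
  have := NeZero.ne q
  exact_mod_cast this

theorem cc_tie (hAP : AP q z i0 ρ θ) (hG : Gen q z) {n : ℤ} {x : ℝ} {r : ℤ}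
    (h : CC p q ρ θ n x r) (j : ℤ) : x ≠ j := by
  obtain ⟨m, X, rfl, h0, h1, h2, h3, h4⟩ := cc_nat h
  intro h5
  apply ap_ndvd' hAP hG h0 h1 h3
  rw [h2, div_eq_iff q_ne] at h5
  exact ⟨j, by have : (X : ℝ) = ((j * q : ℤ) : ℝ) := by
                 rw [h5]
                 push_cast
                 ring
               have h6 : X = j * q := by exact_mod_cast this
               rw [h6]
               ring⟩

theorem cc_tie2 (hAP : AP q z i0 ρ θ) (hG : Gen q z) {n : ℤ} {x : ℝ} {r : ℤ} {m : ℤ} {x' : ℝ}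
    {r' : ℤ} (h : CC p q ρ θ n x r) (h' : CC p q ρ θ m x' r') (hnm : n ≠ m) (j : ℤ) :
    x - x' ≠ j := by
  obtain ⟨n, X, rfl, h0, h1, h2, h3, h4⟩ := cc_nat h
  obtain ⟨m, X', rfl, h0', h1', h2', h3', h4'⟩ := cc_nat h'
  have hnm' : n ≠ m := fun h => hnm (by rw [h])
  have e1 := phi_of (n := n) (X := X) (r := r) (ρ := ρ) (θ := θ)
    (by rw [Int.cast_natCast]; exact h3) (by rw [Int.cast_natCast]; exact h4)
  have e2 := phi_of (n := m) (X := X') (r := r') (ρ := ρ) (θ := θ)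
    (by rw [Int.cast_natCast]; exact h3') (by rw [Int.cast_natCast]; exact h4')
  rw [Int.cast_natCast] at e1 e2
  intro h5
  refine ap_ndvd_sub hAP hG h1 h1' hnm' e1 e2 ?_
  rw [h2, h2', ← sub_div, div_eq_iff q_ne] at h5
  have h6 : X - X' = j * q := by
    have : ((X - X' : ℤ) : ℝ) = ((j * q : ℤ) : ℝ) := by
      push_cast
      exact h5
    exact_mod_cast this
  refine ⟨j + (r - r'), ?_⟩
  linear_combination h6

theorem cc_fr (hP : Par p q a b) (hG : Gen q z) (hAP : AP q z i0 ρ θ)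
    (hF : ∀ X W S, |FF q a b z X W S| ≤ 1) {dl : ℕ} (hdl0 : 0 < dl) (hdlM : dl < p * q)
    (hdl : (dl : ZMod (p * q)) = (p : ZMod (p * q)) * θ) {n : ℤ} {x : ℝ} {r : ℤ} {m : ℤ}
    {x' : ℝ} {r' : ℤ} (h : CC p q ρ θ n x r) (h' : CC p q ρ θ m x' r') (hnm : n ≠ m) :
    FRc ((p : ℤ) : ℝ) ((a : ℤ) : ℝ) ((b : ℤ) : ℝ) ((dl : ℝ) / q) x r x' r' := by
  obtain ⟨n, X, rfl, h0, h1, h2, h3, h4⟩ := cc_nat h
  obtain ⟨m, X', rfl, h0', h1', h2', h3', h4'⟩ := cc_nat h'
  have hnm' : n ≠ m := fun h => hnm (by rw [h])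
  rw [Int.cast_natCast, Int.cast_natCast, Int.cast_natCast, h2, h2']
  exact frc hP hG hAP hF hdl0 hdlM hdl h0 h1 h0' h1' hnm' h3 h4 h3' h4'

omit [NeZero p] [NeZero q] in
/-- a representative in a window of length `p` -/
theorem window {X lo : ℤ} (hM : (0 : ℤ) < p * q) : ∃ i : ℤ, lo ≤ X + i * (p * q) ∧
    X + i * (p * q) < lo + p * q := by
  refine ⟨-((X - lo) / (p * q)), ?_, ?_⟩
  · have h1 := Int.emod_nonneg (X - lo) hM.ne'
    have h2 := Int.emod_add_mul_ediv (X - lo) (p * q)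
    nlinarith
  · have h1 := Int.emod_lt_of_pos (X - lo) hM
    have h2 := Int.emod_add_mul_ediv (X - lo) (p * q)
    nlinarith

theorem cc_row (hAP : AP q z i0 ρ θ) (hG : Gen q z) (R : ℤ) (hR : ¬ (p : ℤ) ∣ R) :
    ∃ n x, CC p q ρ θ n x R ∧ -(b : ℝ) < x ∧ x < p - b := by
  obtain ⟨u, hu⟩ := hAP.1
  set m : ℕ := ((R : ZMod p) * (↑u⁻¹ : ZMod p)).val with hm
  have hmR : (m : ZMod p) * ρ = (R : ZMod p) := by
    rw [hm, ZMod.natCast_zmod_val, mul_assoc, ← hu, Units.inv_mul, mul_one]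
  have hm1 : m < p := ZMod.val_lt _
  have hm0 : 0 < m := by
    rcases Nat.eq_zero_or_pos m with h | h
    · exfalso
      apply hR
      rw [← ZMod.intCast_zmod_eq_zero_iff_dvd, ← hmR, h, Nat.cast_zero, zero_mul]
    · exact h
  have hp0 := NeZero.pos p
  have hq0 := NeZero.pos q
  have hM : (0 : ℤ) < p * q := by exact_mod_cast Nat.mul_pos hp0 hq0
  set X0 : ℤ := (((m : ZMod (p * q)) * θ).val : ℤ) with hX0
  have hX0' : (m : ZMod (p * q)) * θ = (X0 : ZMod (p * q)) := by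
    rw [hX0, Int.cast_natCast, ZMod.natCast_zmod_val]
  obtain ⟨i, hi1, hi2⟩ := window (p := p) (q := q) (X := X0) (lo := -(b * q)) hM
  set X := X0 + i * (p * q) with hX
  have hXm : (m : ZMod (p * q)) * θ = (X : ZMod (p * q)) := by
    rw [hX, Int.cast_add, cast_pq, add_zero]
    exact hX0'
  have hne : X ≠ -(b * q) := by
    intro h
    apply ap_ndvd' hAP hG hm0 hm1 hXm
    exact ⟨-b, by rw [h]; ring⟩
  have hq0' : (0 : ℝ) < q := by exact_mod_cast hq0
  refine ⟨m, (X : ℝ) / q, ⟨by exact_mod_cast hm0, by exact_mod_cast hm1, X, rfl, ?_, ?_⟩, ?_, ?_⟩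
  · rw [Int.cast_natCast]
    exact hXm
  · rw [Int.cast_natCast]
    exact hmR
  · rw [lt_div_iff₀ hq0']
    have h1 : -(b * q : ℤ) < X := lt_of_le_of_ne hi1 (Ne.symm hne)
    have h2 : ((-(b * q : ℤ) : ℤ) : ℝ) < (X : ℝ) := by exact_mod_cast h1
    push_cast at h2
    linarith
  · rw [div_lt_iff₀ hq0']
    have h2 : (X : ℝ) < ((-(b * q) + p * q : ℤ) : ℝ) := by exact_mod_cast hi2
    push_cast at h2
    linarith

/-- a cluster from its ordinate -/
theorem mk_cc {n S r : ℤ} (h0 : 0 < n) (h1 : n < p)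
    (hS : (n : ZMod (p * q)) * (θ + e p q ρ) = (S : ZMod (p * q)))
    (hr : (n : ZMod p) * ρ = (r : ZMod p)) : CC p q ρ θ n ((S : ℝ) / q - r) r := by
  refine ⟨h0, h1, S - q * r, ?_, ?_, hr⟩
  · push_cast
    field_simp [q_ne (q := q)]
  · rw [mul_add, ← e_mul_int, hr, e_intCast] at hS
    rw [Int.cast_sub, ← hS]
    ring

/-- the integer part and the fractional part of the ordinate step -/
theorem phi_split {dl : ℕ} (hdl0 : 0 < dl) (hdlM : dl < p * q)
    (hdl : (dl : ZMod (p * q)) = (p : ZMod (p * q)) * θ) : ∃ M t0 : ℕ, dl = p * t0 ∧ 0 < t0 ∧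
      ∀ n w : ℤ, (n : ZMod (p * q)) * (θ + e p q ρ) =
        ((n * t0 + q * (n * M) - w * (p * q) : ℤ) : ZMod (p * q)) := by
  have hp0 := NeZero.pos p
  have hq0 := NeZero.pos q
  have hφ : (((θ + e p q ρ).val % q + q * ((θ + e p q ρ).val / q) : ℕ) : ZMod (p * q)) =
      θ + e p q ρ := by
    rw [Nat.mod_add_div, ZMod.natCast_zmod_val]
  set M := (θ + e p q ρ).val / q with hM
  set t0 := (θ + e p q ρ).val % q with ht0
  have hn : ∀ n w : ℤ, (n : ZMod (p * q)) * (θ + e p q ρ) =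
        ((n * t0 + q * (n * M) - w * (p * q) : ℤ) : ZMod (p * q)) := by
    intro n w
    rw [← hφ, Int.cast_sub, cast_pq, sub_zero]
    push_cast
    ring
  have h1 : (dl : ZMod (p * q)) = ((p * t0 : ℕ) : ZMod (p * q)) := by
    have h2 := hn p M
    have h3 : (p : ZMod (p * q)) * e p q ρ = 0 := by
      rw [← e_mul, ZMod.natCast_self, zero_mul, e_zero]
    rw [Int.cast_natCast, mul_add, h3, add_zero, ← hdl] at h2
    rw [h2]
    push_cast
    ring
  have ht : t0 < q := Nat.mod_lt _ hq0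
  have h4 : p * t0 < p * q := Nat.mul_lt_mul_of_pos_left ht hp0
  have h5 : dl = p * t0 := by
    have := congrArg ZMod.val h1
    rwa [ZMod.val_natCast_of_lt hdlM, ZMod.val_natCast_of_lt h4] at this
  refine ⟨M, t0, h5, ?_, hn⟩
  rcases Nat.eq_zero_or_pos t0 with h | h
  · rw [h, mul_zero] at h5
    omega
  · exact h

theorem cc_ex (ha2 : 2 ≤ a) (hap : a < p) (hρ : IsUnit ρ) {dl : ℕ} (hdl0 : 0 < dl)
    (hdlM : dl < p * q) (hdl : (dl : ZMod (p * q)) = (p : ZMod (p * q)) * θ) {k : ℤ} {x : ℝ}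
    {r : ℤ} (hk : CC p q ρ θ k x r) (hkp : 2 * k < p) :
    (∃ n x' r', CC p q ρ θ n x' r' ∧ -(a : ℝ) < x' + r' ∧ x' + r' < -a + (dl : ℝ) / q) ∨
    (∃ j x' r', CC p q ρ θ j x' r' ∧ 0 < x' + r' ∧ x' + r' < (dl : ℝ) / q ∧ j ≠ k ∧
      2 * j ≠ p ∧ j + k < p) ∨
    (∃ j r', CC p q ρ θ j ((dl : ℝ) / q / 2 - p / 2) r' ∧ 2 * j = p ∧ 2 * r' = p) ∨
    (∃ r', CC p q ρ θ k ((dl : ℝ) / q / 3 - p / 3) r' ∧ 3 * r' = p) ∨
    (∃ r', CC p q ρ θ k ((dl : ℝ) / q / 3 + p / 3) r' ∧ 3 * r' = -p) := by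
  obtain ⟨M, t0, hd, ht0, hn⟩ := phi_split (ρ := ρ) hdl0 hdlM hdl
  have hp0 := NeZero.pos p
  have hq0 := NeZero.pos q
  have hq0' : (0 : ℝ) < q := by exact_mod_cast hq0
  have ht0' : (0 : ℝ) < t0 := by exact_mod_cast ht0
  have hD : (dl : ℝ) / q = p * t0 / q := by
    rw [hd]
    push_cast
    ring
  have hk0 := hk.1
  by_cases hc : M.Coprime p
  · left
    have hu : IsUnit (M : ZMod p) := (ZMod.isUnit_iff_coprime M p).2 hc
    obtain ⟨u, hu⟩ := hu
    set n : ℕ := (-(a : ZMod p) * (↑u⁻¹ : ZMod p)).val with hndef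
    have hnM : (n : ZMod p) * (M : ZMod p) = -(a : ZMod p) := by
      rw [hndef, ZMod.natCast_zmod_val, mul_assoc, ← hu, Units.inv_mul, mul_one]
    have hn1 : n < p := ZMod.val_lt _
    have hn0 : 0 < n := by
      rcases Nat.eq_zero_or_pos n with h | h
      · exfalso
        rw [h, Nat.cast_zero, zero_mul] at hnM
        have h2 : (a : ZMod p) = 0 := by
          rw [← neg_eq_zero]
          exact hnM.symm
        rw [ZMod.natCast_eq_zero_iff] at h2
        have := Nat.le_of_dvd (by omega) h2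
        omega
      · exact h
    have hdv : (p : ℤ) ∣ n * M + a := by
      rw [← ZMod.intCast_zmod_eq_zero_iff_dvd]
      push_cast
      rw [hnM]
      ring
    obtain ⟨w, hw⟩ := hdv
    have h1 := hn n w
    have h2 : ((n : ℤ) * t0 + q * (n * M) - w * (p * q)) = n * t0 - a * q := by
      have : (n : ℤ) * M = p * w - a := by linarith
      rw [this]
      ring
    rw [h2] at h1
    have h3 := mk_cc (n := n) (S := n * t0 - a * q) (r := ((n : ZMod p) * ρ).val) (ρ := ρ) (θ := θ)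
      (by exact_mod_cast hn0) (by exact_mod_cast hn1) h1
      (by
        rw [Int.cast_natCast, Int.cast_natCast]
        exact (ZMod.natCast_zmod_val _).symm)
    refine ⟨_, _, _, h3, ?_, ?_⟩
    · rw [sub_add_cancel]
      rw [lt_div_iff₀ hq0']
      push_cast
      have : (0 : ℝ) < n := by exact_mod_cast hn0
      nlinarith [mul_pos this ht0']
    · rw [sub_add_cancel, hD, div_lt_iff₀ hq0', add_mul, div_mul_cancel₀ _ hq0'.ne']
      push_cast
      have : (n : ℝ) < p := by exact_mod_cast hn1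
      nlinarith [mul_lt_mul_of_pos_right this ht0']
  · right
    rw [Nat.Prime.not_coprime_iff_dvd] at hc
    obtain ⟨l, hl, ⟨M', hM'⟩, ⟨p', hp'⟩⟩ := hc
    have hl2 := hl.two_le
    have hp'0 : 0 < p' := by
      rcases Nat.eq_zero_or_pos p' with h | h
      · rw [h, mul_zero] at hp'
        omega
      · exact h
    -- the cluster `c p'`
    have hcl : ∀ c : ℕ, 0 < c → c < l → ∀ r' : ℤ, (((c * p' : ℕ) : ℤ) : ZMod p) * ρ = (r' : ZMod p) →
        CC p q ρ θ ((c * p' : ℕ) : ℤ) ((c : ℝ) * ((dl : ℝ) / q) / l - r') r' := by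
      intro c hc0 hcl r' hr'
      have h0 : 0 < c * p' := Nat.mul_pos hc0 hp'0
      have h1 : c * p' < p := by
        rw [hp']
        exact Nat.mul_lt_mul_of_pos_right hcl hp'0
      have h2 := hn ((c * p' : ℕ) : ℤ) (c * M')
      have h3 : ((c * p' : ℕ) : ℤ) * t0 + q * (((c * p' : ℕ) : ℤ) * M) - (c * M') * (p * q) =
          ((c * p' : ℕ) : ℤ) * t0 := by
        rw [hM']
        have : (p : ℤ) = l * p' := by exact_mod_cast hp'
        rw [this]
        push_cast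
        ring
      rw [h3] at h2
      have h4 := mk_cc (r := r') (by exact_mod_cast h0) (by exact_mod_cast h1) h2 hr'
      have h5 : (((((c * p' : ℕ) : ℤ) * t0 : ℤ) : ℝ) / q) = (c : ℝ) * ((dl : ℝ) / q) / l := by
        rw [hD]
        have h6 : (p : ℝ) = l * p' := by exact_mod_cast hp'
        have h7 : (l : ℝ) ≠ 0 := by
          have : l ≠ 0 := by omega
          exact_mod_cast this
        rw [h6]
        push_cast
        field_simp
      rw [h5] at h4
      exact h4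
    have hDpos : 0 < (dl : ℝ) / q := by
      have : (0 : ℝ) < dl := by exact_mod_cast hdl0
      positivity
    have hlpos : (0 : ℝ) < l := by exact_mod_cast (by omega : 0 < l)
    have hpz : (p : ℤ) = l * p' := by exact_mod_cast hp'
    -- second alternative
    have hB : ∀ c : ℕ, 0 < c → c < l → 2 * c ≠ l → ((c * p' : ℕ) : ℤ) ≠ k →
        ((c * p' : ℕ) : ℤ) + k < p →
        (∃ j x' r', CC p q ρ θ j x' r' ∧ 0 < x' + r' ∧ x' + r' < (dl : ℝ) / q ∧ j ≠ k ∧
          2 * j ≠ p ∧ j + k < p) := by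
      intro c hc0 hcl' hc2 hck hcp
      have h1 := hcl c hc0 hcl' ((((c * p' : ℕ) : ZMod p) * ρ).val : ℤ)
        (by rw [Int.cast_natCast, Int.cast_natCast, ZMod.natCast_zmod_val])
      have hc0' : (0 : ℝ) < c := by exact_mod_cast hc0
      have hcl2 : (c : ℝ) < l := by exact_mod_cast hcl'
      refine ⟨_, _, _, h1, ?_, ?_, hck, ?_, hcp⟩
      · rw [sub_add_cancel]
        positivity
      · rw [sub_add_cancel, div_lt_iff₀ hlpos]
        nlinarith [mul_lt_mul_of_pos_right hcl2 hDpos]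
      · intro h2
        apply hc2
        have h3 : 2 * (c * p') = l * p' := by
          rw [hpz] at h2
          exact_mod_cast h2
        have h4 : (2 * c) * p' = l * p' := by rw [← h3]; ring
        exact Nat.eq_of_mul_eq_mul_right hp'0 h4
    -- the unit `ρ` modulo `l`
    have hlρ : ¬ l ∣ ρ.val := by
      intro h
      have h1 : ρ.val.Coprime p := by
        have h2 : IsUnit ((ρ.val : ℕ) : ZMod p) := by
          rw [ZMod.natCast_zmod_val]
          exact hρ
        exact (ZMod.isUnit_iff_coprime _ p).1 h2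
      have h3 : l ∣ Nat.gcd ρ.val p := Nat.dvd_gcd h ⟨p', hp'⟩
      rw [h1] at h3
      have := Nat.le_of_dvd one_pos h3
      omega
    have hrow : ∀ r' w : ℤ, (p' : ℤ) * (ρ.val : ℤ) = r' + p * w →
        (((1 * p' : ℕ) : ℤ) : ZMod p) * ρ = (r' : ZMod p) := by
      intro r' w h
      have h1 : (((p' : ℤ) * (ρ.val : ℤ) : ℤ) : ZMod p) = ((r' + p * w : ℤ) : ZMod p) := by rw [h]
      push_cast at h1
      rw [ZMod.natCast_zmod_val, ZMod.natCast_self, zero_mul, add_zero] at h1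
      rw [one_mul, Int.cast_natCast]
      exact h1
    rcases Nat.lt_or_ge l 3 with hl3 | hl3
    · -- `l = 2`
      right; left
      have hl' : l = 2 := by omega
      subst hl'
      have h1 : ρ.val % 2 = 1 := by
        rw [Nat.dvd_iff_mod_eq_zero] at hlρ
        omega
      have h2 : (ρ.val : ℤ) = 1 + 2 * (ρ.val / 2 : ℕ) := by omega
      have h3 := hcl 1 (by omega) (by omega) p' (hrow p' (ρ.val / 2 : ℕ) (by
        rw [h2, hpz]
        push_cast
        ring))
      refine ⟨((1 * p' : ℕ) : ℤ), (p' : ℤ), ?_, ?_, ?_⟩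
      rotate_left
      · rw [hpz]
        push_cast
        ring
      · rw [hpz]
        push_cast
        ring
      · have e1 : (dl : ℝ) / q / 2 - p / 2 = ((1 : ℕ) : ℝ) * ((dl : ℝ) / q) / ((2 : ℕ) : ℝ) -
            ((p' : ℤ) : ℝ) := by
          have h6 : (p : ℝ) = (2 : ℕ) * p' := by exact_mod_cast hp'
          rw [h6]
          push_cast
          ring
        rw [e1]
        exact h3
    rcases Nat.lt_or_ge l 5 with hl5 | hl5
    · -- `l = 3`
      have hl' : l = 3 := by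
        have : l ≠ 4 := by
          rintro rfl
          exact absurd hl (by norm_num)
        omega
      subst hl'
      by_cases hkp' : ((1 * p' : ℕ) : ℤ) = k
      · right; right
        have h6 : (p : ℝ) = (3 : ℕ) * p' := by exact_mod_cast hp'
        rw [Nat.dvd_iff_mod_eq_zero] at hlρ
        have h1 : ρ.val % 3 = 1 ∨ ρ.val % 3 = 2 := by omega
        rcases h1 with h1 | h1
        · left
          have h2 : (ρ.val : ℤ) = 1 + 3 * (ρ.val / 3 : ℕ) := by omega
          have h3 := hcl 1 (by omega) (by omega) p' (hrow p' (ρ.val / 3 : ℕ) (by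
            rw [h2, hpz]
            push_cast
            ring))
          refine ⟨(p' : ℤ), ?_, ?_⟩
          · have e1 : (dl : ℝ) / q / 3 - p / 3 = ((1 : ℕ) : ℝ) * ((dl : ℝ) / q) / ((3 : ℕ) : ℝ) -
                ((p' : ℤ) : ℝ) := by
              rw [h6]
              push_cast
              ring
            rw [e1, ← hkp']
            exact h3
          · rw [hpz]
            push_cast
            ring
        · right
          have h2 : (ρ.val : ℤ) = -1 + 3 * ((ρ.val / 3 : ℕ) + 1) := by omega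
          have h3 := hcl 1 (by omega) (by omega) (-p') (hrow (-p') ((ρ.val / 3 : ℕ) + 1) (by
            rw [h2, hpz]
            push_cast
            ring))
          refine ⟨-(p' : ℤ), ?_, ?_⟩
          · have e1 : (dl : ℝ) / q / 3 + p / 3 = ((1 : ℕ) : ℝ) * ((dl : ℝ) / q) / ((3 : ℕ) : ℝ) -
                ((-(p' : ℤ) : ℤ) : ℝ) := by
              rw [h6]
              push_cast
              ring
            rw [e1, ← hkp']
            exact h3
          · rw [hpz]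
            push_cast
            ring
      · left
        refine hB 1 (by omega) (by omega) (by omega) hkp' ?_
        push_cast at hpz ⊢
        omega
    · left
      by_cases hkp' : ((1 * p' : ℕ) : ℤ) = k
      · refine hB 2 (by omega) (by omega) ?_ ?_ ?_
        · intro h
          have h1 : l = 4 := by omega
          omega
        · rw [← hkp']
          push_cast
          omega
        · have : 5 * p' ≤ p := by
            rw [hp']
            exact Nat.mul_le_mul_right p' hl5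
          push_cast
          omega
      · refine hB 1 (by omega) (by omega) (by omega) hkp' ?_
        have : 5 * p' ≤ p := by
          rw [hp']
          exact Nat.mul_le_mul_right p' hl5
        push_cast
        omega

/-- the third field which is proved elsewhere (three gap) -/
def StHalf : Prop := ∀ (p q a b : ℕ) [NeZero p] [NeZero q], Par p q a b → a ≤ b → 2 * b < p →
  ∀ (z : ZMod p → ZMod (p * q)) (i0 ρ : ZMod p) (θ : ZMod (p * q)), Gen q z → AP q z i0 ρ θ →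
  ∀ dl : ℕ, 0 < dl → 2 * dl < p * q → (dl : ZMod (p * q)) = (p : ZMod (p * q)) * θ →
  ∀ (k : ℤ) (x : ℝ) (r : ℤ), CC p q ρ θ k x r → |x + r| < 1 →
    Str (a : ℤ) (CC p q ρ θ) k (x + r) → 2 * k < p

theorem cfg (hH : StHalf) (hP : Par p q a b) (hab : a ≤ b) (hb : 2 * b < p) (hG : Gen q z)
    (hAP : AP q z i0 ρ θ) (hρ : ρ = (a : ZMod p) * b ∨ ρ = -((a : ZMod p) * b))
    (hF : ∀ X W S, |FF q a b z X W S| ≤ 1) {dl : ℕ} (hdl0 : 0 < dl) (hdlM : 2 * dl < p * q)
    (hdl : (dl : ZMod (p * q)) = (p : ZMod (p * q)) * θ) :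
    Cfg (p : ℤ) (a : ℤ) (b : ℤ) ((dl : ℝ) / q) (CC p q ρ θ) := by
  have hq0 : (0 : ℝ) < q := by exact_mod_cast NeZero.pos q
  have hdlM' : dl < p * q := by omega
  have ha := hP.ha
  refine
    { ha := by exact_mod_cast ha
      hab := by exact_mod_cast hab
      hb := by exact_mod_cast hb
      hD0 := ?_
      hD := ?_
      rng := fun h => ⟨h.1, h.2.1⟩
      refl := fun h => cc_refl hdl h
      shift := fun h i j => ?_
      add := fun h h' hnm => cc_add h h' hnm
      add' := fun h h' hnm => cc_add' hdl h h' hnm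
      sub := fun h h' hnm => cc_sub h h' hnm
      row := fun R hR => ?_
      inj := fun h h' hr => cc_inj hAP.1 h h' hr
      same := fun h h' hnm => ?_
      rne := fun h => cc_rne hAP.1 h
      tie := fun h j => cc_tie hAP hG h j
      tie2 := fun h h' hnm j => cc_tie2 hAP hG h h' hnm j
      fr := fun h h' hnm => cc_fr hP hG hAP hF hdl0 hdlM' hdl h h' hnm
      half := fun h h1 h2 => hH p q a b hP hab hb z i0 ρ θ hG hAP dl hdl0 hdlM hdl _ _ _ h h1 h2
      sp := fun ha2 hp {n} {x} h => ?_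
      ex := fun hk hkp => ?_ }
  · have : (0 : ℝ) < dl := by exact_mod_cast hdl0
    positivity
  · have h1 : ((2 * dl : ℕ) : ℝ) < ((p * q : ℕ) : ℝ) := by exact_mod_cast hdlM
    push_cast at h1 ⊢
    rw [mul_div_assoc', div_lt_iff₀ hq0]
    exact h1
  · have := cc_shift q_ne h i j
    push_cast
    exact this
  · have := cc_row (b := b) hAP hG R hR
    push_cast
    exact this
  · have := cc_same q_ne h h' hnm
    push_cast
    exact this
  · have ha2' : a = 2 := by exact_mod_cast ha2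
    have hp' : p = 2 * b + 1 := by exact_mod_cast hp
    refine cc_sp (b := b) hp' ?_ h
    rw [ha2'] at hρ
    exact hρ
  · have := cc_ex (a := a) ha (by omega) hAP.1 hdl0 hdlM' hdl hk hkp
    push_cast
    exact this

/-- `L0` from the abstract conclusion -/
theorem l0_of {D : ℝ} (h : Concl (p : ℤ) (a : ℤ) (b : ℤ) D (CC p q ρ θ)) :
    L0 p q a b θ (θ + e p q ρ) := by
  have hq0 : (0 : ℝ) < q := by exact_mod_cast NeZero.pos q
  rintro n X Y ⟨hn0, hn1, hX, hY, hX1, hY1⟩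
  -- the row
  have h1 : (((Y - X - q * (((n : ZMod p) * ρ).val : ℤ) : ℤ)) : ZMod (p * q)) = 0 := by
    have h2 : e p q ((n : ZMod p) * ρ) = ((q * (((n : ZMod p) * ρ).val : ℤ) : ℤ) : ZMod (p * q)) := by
      unfold e
      push_cast
      ring
    rw [e_mul] at h2
    rw [Int.cast_sub, Int.cast_sub, ← hX, ← hY, ← h2]
    ring
  rw [ZMod.intCast_zmod_eq_zero_iff_dvd] at h1
  obtain ⟨t, ht⟩ := h1
  push_cast at ht
  set r : ℤ := (((n : ZMod p) * ρ).val : ℤ) + p * t with hr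
  have hYX : Y = X + q * r := by
    rw [hr]
    linear_combination ht
  have hrow : (n : ZMod p) * ρ = (r : ZMod p) := by
    rw [hr]
    push_cast
    rw [ZMod.natCast_zmod_val, ZMod.natCast_self, zero_mul, add_zero]
  have hC : CC p q ρ θ (n : ℤ) ((X : ℝ) / q) r := by
    refine ⟨by exact_mod_cast hn0, by exact_mod_cast hn1, X, rfl, ?_, ?_⟩
    · rw [Int.cast_natCast]
      exact hX
    · rw [Int.cast_natCast]
      exact hrow
  have hs : (X : ℝ) / q + r = (Y : ℝ) / q := by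
    rw [hYX]
    push_cast
    field_simp
  have hXb : |(X : ℝ) / q| < ((b : ℤ) : ℝ) := by
    rw [abs_div, abs_of_pos hq0, div_lt_iff₀ hq0]
    have : ((|X| : ℤ) : ℝ) < ((b * q : ℤ) : ℝ) := by exact_mod_cast hX1
    push_cast at this ⊢
    exact this
  have hYa : |(X : ℝ) / q + r| < ((a : ℤ) : ℝ) := by
    rw [hs, abs_div, abs_of_pos hq0, div_lt_iff₀ hq0]
    have : ((|Y| : ℤ) : ℝ) < ((a * q : ℤ) : ℝ) := by exact_mod_cast hY1
    push_cast at this ⊢
    exact this
  have hneg : ∀ U : ℤ, (U : ℝ) / q < 0 ↔ U < 0 := by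
    intro U
    rw [div_lt_iff₀ hq0, zero_mul]
    exact_mod_cast Iff.rfl
  have hpos : ∀ U : ℤ, 0 < (U : ℝ) / q ↔ 0 < U := by
    intro U
    rw [lt_div_iff₀ hq0, zero_mul]
    exact_mod_cast Iff.rfl
  rcases h _ _ _ hC hXb hYa with ⟨h2, h3, h4⟩ | ⟨h2, h3, h4⟩ | ⟨h2, h3⟩
  · left
    rw [hs] at h3 h4
    refine ⟨(hneg X).1 h2, (hneg Y).1 h3, ?_⟩
    have h5 : ((X + b * q : ℤ) : ℝ) = ((Y + a * q : ℤ) : ℝ) := by
      push_cast at h4 ⊢
      field_simp at h4
      linarith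
    exact_mod_cast h5
  · right; left
    rw [hs] at h3 h4
    refine ⟨(hpos X).1 h2, (hpos Y).1 h3, ?_⟩
    have h5 : ((b * q - X : ℤ) : ℝ) = ((a * q - Y : ℤ) : ℝ) := by
      push_cast at h4 ⊢
      field_simp at h4
      linarith
    exact_mod_cast h5
  · right; right
    rw [hs] at h2 h3
    constructor
    · rw [abs_div, abs_of_pos hq0, le_div_iff₀ hq0, one_mul] at h2
      have : ((q : ℤ) : ℝ) ≤ ((|Y| : ℤ) : ℝ) := by
        push_cast
        exact h2
      exact_mod_cast this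
    · intro m hm0 hm1 hmn s hms
      have hmr : ((m : ℤ) : ZMod p) * ρ = ((((m : ZMod p) * ρ).val : ℤ) : ZMod p) := by
        rw [Int.cast_natCast, Int.cast_natCast]
        exact (ZMod.natCast_zmod_val _).symm
      have hCm := mk_cc (n := (m : ℤ)) (S := s) (ρ := ρ) (θ := θ) (by exact_mod_cast hm0)
        (by exact_mod_cast hm1) (by rw [Int.cast_natCast]; exact hms) hmr
      have h4 := h3 _ _ _ hCm (by exact_mod_cast hmn)
      rw [sub_add_cancel] at h4
      constructor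
      · rintro hy ⟨h5, h6⟩
        refine h4.1 ((hneg Y).2 hy) ⟨?_, ?_⟩
        · rw [div_lt_div_iff_of_pos_right hq0]
          exact_mod_cast h5
        · have : (s : ℝ) < ((Y + a * q : ℤ) : ℝ) := by exact_mod_cast h6
          push_cast at this ⊢
          rw [div_lt_iff₀ hq0]
          field_simp
          linarith
      · rintro hy ⟨h5, h6⟩
        refine h4.2 ((hpos Y).2 hy) ⟨?_, ?_⟩
        · have : ((Y - a * q : ℤ) : ℝ) < (s : ℝ) := by exact_mod_cast h5
          push_cast at this ⊢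
          rw [lt_div_iff₀ hq0]
          field_simp
          linarith
        · rw [div_lt_div_iff_of_pos_right hq0]
          exact_mod_cast h6

/-- `StL0` from the real glue -/
theorem stL0 (hH : StHalf) (hmain : ∀ (p a b : ℤ) (D : ℝ) (C : ℤ → ℝ → ℤ → Prop),
    Cfg p a b D C → Concl p a b D C) : StL0 := by
  intro p q a b _ _ hP hab hb hap hbp z i0 ρ θ hρ hG hAP h0 h1 hF
  have hdl : ((((p : ZMod (p * q)) * θ).val : ℕ) : ZMod (p * q)) = (p : ZMod (p * q)) * θ :=
    ZMod.natCast_zmod_val _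
  exact l0_of (hmain _ _ _ _ _ (cfg hH hP hab hb hG hAP hρ hF h0 h1 hdl))

end

end Helper25.FLT
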