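import Pool.Agent.Helper25.FLT.G2
import Pool.Agent.Helper55.KE.Half

set_option autoImplicit false

/-!
# The three gap field
-/

namespace Helper25.FLT

open Helper11.N1 Helper55.KE Helper10.KE

theorem stHalf : StHalf := by
  intro p q a b _ _ hP hab hb z i0 ρ θ hG hAP dl hdl0 hdlM hdl k x r hk h1 hS
  obtain ⟨m, X, rfl, h0, h2, h3, h4, h5⟩ := cc_nat hk
  have h6 : 2 * m < p := by
    refine half_real hP hG hAP h0 h2 h4 h5 (by rw [← h3]; exact h1) ?_
    intro n hn0 hn1 hnm x' r' hx' hr'
    have hC : CC p q ρ θ (n : ℤ) ((x' : ℝ) / q) r' := by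
      refine ⟨by exact_mod_cast hn0, by exact_mod_cast hn1, x', rfl, ?_, ?_⟩
      · rw [Int.cast_natCast]
        exact hx'
      · rw [Int.cast_natCast]
        exact hr'
    have h7 := hS _ _ _ hC (by exact_mod_cast hnm)
    rw [h3] at h7
    push_cast at h7
    exact h7
  exact_mod_cast h6

end Helper25.FLT
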