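import Pool.Agent.Helper11.N1.All
import Pool.Agent.Helper55.KE.AP

set_option autoImplicit false

/-!
# Transposition

The reflection `(X, S) ↦ (1 - S, 1 - X)` exchanges `a` and `b`; a flat configuration goes to a flat
configuration and a progression to a progression.
-/

namespace Helper25.FLT

open Helper11.N1 Helper55.KE

variable {p q a b : ℕ} [NeZero p] [NeZero q]

theorem const_of_step {M : ℕ} [NeZero M] (f : ZMod M → ℤ) (h : ∀ x, f (x + 1) = f x) (x y : ZMod M) :
    f x = f y := by
  have h1 : ∀ n : ℕ, f (n : ZMod M) = f 0 := by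
    intro n
    induction n with
    | zero => simp
    | succ n ih => rw [Nat.cast_succ, h, ih]
  have h2 := h1 x.val
  have h3 := h1 y.val
  rw [ZMod.natCast_zmod_val] at h2 h3
  rw [h2, h3]

/-- a triangle count in terms of level data -/
theorem ff_of_ld (hP : Par p q a b) (z : ZMod p → ZMod (p * q)) {W : ZMod p}
    {lam rho : ZMod (p * q) → ℤ} (h : LD q a b z W lam rho) (X S : ZMod (p * q)) :
    FF q a b z X W S = NN q a b z X S + lam X + rho S := by
  have hM : 1 < p * q := by
    have h1 := hP.hab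
    have h2 := hP.ha
    have h3 := hP.hq
    nlinarith
  have h1 := dec p q a b hP z X W S
  have h2 := h.line X
  have h3 : ∀ x, (rho (x + 1) - rhoS q a b z W (x + 1)) = rho x - rhoS q a b z W x := by
    intro x
    have e1 := h.rj x
    have e2 := LDXaux.rj (a := a) (b := b) hM z W x
    linarith
  have h4 := const_of_step (fun x => rho x - rhoS q a b z W x) h3 S (X + e p q W)
  linarith

/-- the reflected configuration is flat -/
theorem ff_zr (hP : Par p q a b) (z : ZMod p → ZMod (p * q))
    (hF : ∀ X W S, |FF q a b z X W S| ≤ 1) : ∀ X W S, |FF q b a (zr q z) X W S| ≤ 1 := by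
  intro X W S
  obtain ⟨lam, rho, h⟩ := aLDX p q a b hP z W (fun X S => hF X W S)
  have h' := (ref p q a b hP z).2.2.2.2.1 W lam rho h
  have hP' : Par p q b a := ⟨hP.hb, hP.ha, by have := hP.hab; omega, hP.hq⟩
  rw [ff_of_ld hP' (zr q z) h' X S, abs_le]
  exact ⟨h'.lo X S, h'.up X S⟩

/-- the reflected configuration is generic -/
theorem gen_zr (hP : Par p q a b) (z : ZMod p → ZMod (p * q)) (h : Gen q z) : Gen q (zr q z) :=
  (ref p q a b hP z).2.2.1 h

/-- the reflected configuration is a progression -/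
theorem ap_zr {z : ZMod p → ZMod (p * q)} {i0 ρ : ZMod p} {θ : ZMod (p * q)}
    (h : AP q z i0 ρ θ) : AP q (zr q z) i0 ρ (-(θ + e p q ρ)) := by
  refine ⟨h.1, fun n hn => ?_⟩
  unfold zr
  rw [ap_sc h hn]
  unfold sc
  ring

omit [NeZero p] [NeZero q] in
theorem phi_zr (ρ : ZMod p) (θ : ZMod (p * q)) : -(θ + e p q ρ) + e p q ρ = -θ := by
  ring

omit [NeZero p] [NeZero q] in
/-- a translated progression is a progression -/
theorem ap_translate {z : ZMod p → ZMod (p * q)} {i0 ρ : ZMod p} {θ : ZMod (p * q)}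
    (h : AP q z i0 ρ θ) (c : ZMod p) (d : ZMod (p * q)) :
    AP q (fun j => z (j - c) - d) (i0 + c) ρ θ := by
  refine ⟨h.1, fun n hn => ?_⟩
  have e1 : i0 + c + (n : ZMod p) * ρ - c = i0 + n * ρ := by ring
  have e2 : i0 + c - c = i0 := by ring
  simp only
  rw [e1, e2, h.2 n hn]
  ring

end Helper25.FLT
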